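import Pool.Agent.MP_f9a021_co.BD.Core

open Finset Pointwise

namespace Pool.Agent.MP_f9a021_co.BD

section
variable {G : Type} [AddCommGroup G] [Fintype G] [DecidableEq G]

omit [Fintype G] in
lemma ins_Bor (B : Finset G) {a : G} {I : Finset G} (ha : a ∉ I) :
    2 • B + ∑ e ∈ insert a I, insert e B = (2 • B + ∑ e ∈ I, insert e B) + insert a B := by
  rw [Finset.sum_insert ha]; abel

omit [Fintype G] in
lemma rep_Bor (B I : Finset G) : ∀ y ∈ 2 • B + ∑ e ∈ I, insert e B,
    ∃ J ⊆ I, ∃ k, k + J.card = I.card ∧ y - ∑ x ∈ J, x ∈ (k + 2) • B := by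
  induction I using Finset.induction_on with
  | empty => intro y hy; exact ⟨∅, le_rfl, 0, rfl, by simpa using hy⟩
  | insert a I ha ih =>
    intro y hy
    rw [ins_Bor B ha] at hy
    obtain ⟨z, hz, c, hc, rfl⟩ := Finset.mem_add.1 hy
    obtain ⟨J, hJ, k, h1, h2⟩ := ih z hz
    rcases Finset.mem_insert.1 hc with rfl | hc
    · have hcJ : c ∉ J := fun h => ha (hJ h)
      refine ⟨insert c J, Finset.insert_subset_insert _ hJ, k, ?_, ?_⟩
      · rw [Finset.card_insert_of_notMem hcJ, Finset.card_insert_of_notMem ha]; omega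
      · rw [Finset.sum_insert hcJ]
        convert h2 using 1
        abel
    · refine ⟨J, hJ.trans (Finset.subset_insert _ _), k + 1, ?_, ?_⟩
      · rw [Finset.card_insert_of_notMem ha]; omega
      · rw [show k + 1 + 2 = k + 2 + 1 by omega, succ_nsmul]
        convert Finset.add_mem_add h2 hc using 1
        abel

omit [Fintype G] in
lemma sub_Bor (B I : Finset G) : (I.card + 2) • B ⊆ 2 • B + ∑ e ∈ I, insert e B := by
  induction I using Finset.induction_on with
  | empty => simp
  | insert a I ha ih =>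
    rw [ins_Bor B ha, Finset.card_insert_of_notMem ha, show I.card + 1 + 2 = I.card + 2 + 1 by omega,
      succ_nsmul]
    exact Finset.add_subset_add ih (Finset.subset_insert _ _)

lemma full_Bor {A B : Finset G} {L : AddSubgroup G} {l T : ℕ} (hL : L ≤ stab B)
    (hl : (B \ A).card ≤ l) (hT : 2 * l + T ≤ (fs L).card) (k : ℕ) :
    (k + 2) • B ⊆ pop (A ∩ B) T (k + 1) := by
  induction k with
  | zero =>
    intro y hy
    rw [zero_add, two_nsmul] at hy
    obtain ⟨b, hb, c, hc, rfl⟩ := Finset.mem_add.1 hy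
    rw [mem_pop_succ, pop_zero]
    have h1 : cos L c ⊆ ((A ∩ B).filter fun a => b + c - a ∈ A ∩ B) ∪
        ((B \ A) ∪ (B \ A).image fun x => b + c - x) := by
      intro a ha
      have h2 : a ∈ B := cos_subset hL hc ha
      have h3 : b + c - a ∈ B := mem_of_sub_mem hL hb (by
        convert L.neg_mem (mem_cos.1 ha) using 1; abel)
      by_cases h4 : a ∈ A
      · by_cases h5 : b + c - a ∈ A
        · exact Finset.mem_union_left _ (Finset.mem_filter.2
            ⟨Finset.mem_inter.2 ⟨h4, h2⟩, Finset.mem_inter.2 ⟨h5, h3⟩⟩)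
        · exact Finset.mem_union_right _ (Finset.mem_union_right _ (Finset.mem_image.2
            ⟨_, Finset.mem_sdiff.2 ⟨h3, h5⟩, by abel⟩))
      · exact Finset.mem_union_right _ (Finset.mem_union_left _ (Finset.mem_sdiff.2 ⟨h2, h4⟩))
    have h2 := (Finset.card_le_card h1).trans ((Finset.card_union_le _ _).trans
      (Nat.add_le_add_left ((Finset.card_union_le _ _).trans
        (Nat.add_le_add_left Finset.card_image_le _)) _))
    rw [card_cos] at h2
    omega
  | succ k ih =>
    intro y hy
    rw [show k + 1 + 2 = k + 2 + 1 by omega, succ_nsmul] at hy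
    obtain ⟨z, hz, c, hc, rfl⟩ := Finset.mem_add.1 hy
    rw [mem_pop_succ]
    have h0 : L ≤ stab ((k + 2) • B) := by
      rw [succ_nsmul]; exact hL.trans (stab_le_add' _ _)
    have h1 : cos L c ⊆ ((A ∩ B).filter fun a => z + c - a ∈ pop (A ∩ B) T (k + 1)) ∪ (B \ A) := by
      intro a ha
      have h2 : a ∈ B := cos_subset hL hc ha
      have h3 : z + c - a ∈ (k + 2) • B := mem_of_sub_mem h0 hz (by
        convert L.neg_mem (mem_cos.1 ha) using 1; abel)
      by_cases h4 : a ∈ A
      · exact Finset.mem_union_left _ (Finset.mem_filter.2 ⟨Finset.mem_inter.2 ⟨h4, h2⟩, ih h3⟩)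
      · exact Finset.mem_union_right _ (Finset.mem_sdiff.2 ⟨h2, h4⟩)
    have h2 := (Finset.card_le_card h1).trans (Finset.card_union_le _ _)
    rw [card_cos] at h2
    omega

lemma kn_Bor {B E : Finset G} (hB : B.Nonempty) (hE : Disjoint E B)
    (hp : stab (2 • B + ∑ e ∈ E, insert e B) ≤ stab B) (I : Finset G) : I ⊆ E →
    2 * B.card + I.card * (B.card + (fs (stab (2 • B + ∑ e ∈ E, insert e B))).card) ≤
      (2 • B + ∑ e ∈ I, insert e B).card +
        (I.card + 1) * (fs (stab (2 • B + ∑ e ∈ E, insert e B))).card := by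
  set L := stab (2 • B + ∑ e ∈ E, insert e B) with hL
  have hst : ∀ J ⊆ E, stab (2 • B + ∑ e ∈ J, insert e B) = L := by
    intro J hJ
    refine le_antisymm ?_ ?_
    · rw [hL, ← Finset.sum_sdiff hJ, add_comm (∑ e ∈ E \ J, insert e B), ← add_assoc]
      exact stab_le_add _ _
    · rw [two_nsmul]
      exact hp.trans ((stab_le_add _ _).trans (stab_le_add _ _))
  induction I using Finset.induction_on with
  | empty =>
    intro _
    have h1 := kneser B B hB hB
    have h2 := hst ∅ (Finset.empty_subset _)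
    rw [Finset.sum_empty, add_zero, two_nsmul] at h2 ⊢
    unfold Kn at h1
    rw [h2, add_fs_eq hp] at h1
    simp only [Finset.card_empty]
    omega
  | insert a I ha ih =>
    intro hI
    have h0 := ih ((Finset.subset_insert _ _).trans hI)
    have hne : (2 • B + ∑ e ∈ I, insert e B).Nonempty :=
      (hB.nsmul (n := I.card + 2)).mono (sub_Bor B I)
    have h1 := kneser _ (insert a B) hne (Finset.insert_nonempty _ _)
    unfold Kn at h1
    rw [← ins_Bor B ha, hst _ hI] at h1
    have h2 := card_le_add_fs (2 • B + ∑ e ∈ I, insert e B) L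
    have h3 : B.card + (fs L).card ≤ (insert a B + fs L).card := by
      have hdis : Disjoint B (cos L a) := Finset.disjoint_left.2 fun x h4 h5 =>
        Finset.disjoint_left.1 hE (hI (Finset.mem_insert_self _ _))
          (mem_of_sub_mem hp h4 (by simpa using L.neg_mem (mem_cos.1 h5)))
      rw [← card_cos L a, ← Finset.card_union_of_disjoint hdis]
      exact Finset.card_le_card (Finset.union_subset
        ((Finset.subset_insert _ _).trans (subset_add_fs _ _))
        (cos_subset (le_stab_add_fs _ _) (subset_add_fs _ _ (Finset.mem_insert_self _ _))))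
    rw [Finset.card_insert_of_notMem ha]
    nlinarith

end

theorem BOR_pf (h : REP_st) : BOR_st := by
  intro G _ _ _ A B L m n t l D hN ht ht2 hn hL hB hA hl hD hLc
  have c1 : (A \ B).card + (A ∩ B).card = n + t := hA ▸ Finset.card_sdiff_add_card_inter _ _
  have c2 : (B \ A).card + (A ∩ B).card = n := by
    rw [Finset.inter_comm, ← hB]; exact Finset.card_sdiff_add_card_inter _ _
  obtain ⟨E, hE, hE1⟩ := Finset.exists_subset_card_eq (s := A \ B) (n := t - 2) (by omega)
  have hBne : B.Nonempty := Finset.card_pos.1 (by omega)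
  have hEB : Disjoint E B := Finset.disjoint_left.2 fun x h1 => (Finset.mem_sdiff.1 (hE h1)).2
  by_cases hX : 2 • B + ∑ e ∈ E, insert e B = univ
  · left
    obtain ⟨J, hJ, k, h1, h2⟩ := rep_Bor B E (∑ x ∈ A, x) (hX ▸ Finset.mem_univ _)
    obtain ⟨U, hU, -, h3, h4⟩ := h G (A ∩ B) (2 * t + D + 1) D k 0 _ hD (by omega)
      (full_Bor (l := l) hL (by omega) (by omega) k h2) ∅ (by simp)
    have hdis : Disjoint U J := Finset.disjoint_left.2 fun x h5 h6 =>
      Finset.disjoint_left.1 hEB (hJ h6) (Finset.mem_inter.1 (hU h5)).2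
    refine ⟨U ∪ J, Finset.union_subset (hU.trans Finset.inter_subset_left)
      (hJ.trans (hE.trans Finset.sdiff_subset)),
      by rw [Finset.card_union_of_disjoint hdis]; omega, ?_⟩
    rw [Finset.sum_union hdis, h4]
    abel
  right
  have k0 := kn_Bor hBne hEB
  have k1 := sub_Bor B E
  set X := 2 • B + ∑ e ∈ E, insert e B with hXd
  obtain ⟨y, hy⟩ : ∃ y, y ∉ X := by
    by_contra hc
    exact hX (Finset.eq_univ_iff_forall.2 fun y => by_contra fun h1 => hc ⟨y, h1⟩)
  have hLX : L ≤ stab X := by
    rw [hXd, two_nsmul]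
    exact hL.trans ((stab_le_add _ _).trans (stab_le_add _ _))
  by_cases hp : B + fs (stab X) = B
  · exfalso
    have h1 := k0 (hp ▸ le_stab_add_fs B (stab X)) E le_rfl
    have h2 : X.card + (fs (stab X)).card ≤ m * n := by
      have hdis : Disjoint X (cos (stab X) y) := Finset.disjoint_left.2 fun x h4 h5 =>
        hy (mem_of_sub_mem le_rfl h4 (by simpa using (stab X).neg_mem (mem_cos.1 h5)))
      rw [← card_cos (stab X) y, ← Finset.card_union_of_disjoint hdis, ← hN]
      exact Finset.card_le_univ _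
    rw [hB] at h1
    have h3 : (m + 1) * n ≤ (E.card + 2) * n := Nat.mul_le_mul_right _ (by omega)
    nlinarith
  · refine ⟨B + fs (stab X), subset_add_fs _ _, hLX.trans (le_stab_add_fs _ _), ?_, fun h1 => ?_⟩
    · rw [← hB]
      exact Finset.card_lt_card (Finset.ssubset_iff_subset_ne.2 ⟨subset_add_fs _ _, Ne.symm hp⟩)
    · obtain ⟨x, hx, h2⟩ := nsmul_fs_Core B (stab X) t y (h1 ▸ Finset.mem_univ y)
      rw [show t = E.card + 2 by omega] at hx
      exact hy (mem_of_sub_mem le_rfl (k1 hx) h2)

end Pool.Agent.MP_f9a021_co.BD
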