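import Pool.Agent.MP_f9a021_co.Defs

open Pointwise

namespace Pool.Agent.MP_f9a021_co

/-- The largest `t` for which some subgroup `H` with at least `4 m ^ 2` elements and some union `B`
of cosets of `H` satisfy: `B` has density above `1 / m`, the differences of `B` generate `G`, and
the `t`-fold sumset of `B` is not all of `G`. -/
noncomputable def critT (G : Type*) [AddCommGroup G] (m : ℕ) : ℕ :=
  sSup {t : ℕ | ∃ (H : AddSubgroup G) (B : Set G), 4 * m ^ 2 ≤ Nat.card H ∧
    (∀ b ∈ B, ∀ h ∈ H, b + h ∈ B) ∧ Nat.card G < m * B.ncard ∧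
    AddSubgroup.closure (B - B) = ⊤ ∧ t • B ≠ Set.univ}

end Pool.Agent.MP_f9a021_co
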