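import Pool.Agent.MP_f9a021_co.BD.Crit
import Pool.Agent.MP_f9a021_co.BD.Defs

open Pointwise

namespace Pool.Agent.MP_f9a021_co.BD

lemma coverT_eq (G : Type*) [AddCommGroup G] (m : ℕ) : coverT G m = critT G m := by
  unfold coverT critT
  congr 1
  ext t
  refine exists_congr fun H => exists_congr fun B => ?_
  have h1 : {x : G | ∃ a ∈ B, ∃ b ∈ B, x = a - b} = B - B := by
    ext x; simp only [Set.mem_setOf_eq, Set.mem_sub, eq_comm]
  have h2 : (∃ y : G, ∀ f : Fin t → G, (∀ i, f i ∈ B) → ∑ i, f i ≠ y) ↔ t • B ≠ Set.univ := by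
    rw [Ne, Set.eq_univ_iff_forall, not_forall]
    refine exists_congr fun y => ?_
    rw [Set.mem_nsmul]
    constructor
    · rintro h ⟨f, hf⟩
      rw [List.sum_ofFn] at hf
      exact h (fun i => f i) (fun i => (f i).2) hf
    · intro h f hf hy
      exact h ⟨fun i => ⟨f i, hf i⟩, by rw [List.sum_ofFn]; exact hy⟩
  rw [h1, h2]

end Pool.Agent.MP_f9a021_co.BD
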