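import Pool.Agent.MP_f9a021_co.BD.St

open Finset Pointwise

namespace Pool.Agent.MP_f9a021_co.BD

section
variable {G : Type} [AddCommGroup G] [Fintype G] [DecidableEq G]

omit [DecidableEq G] in
lemma idx_mul_Core (K : AddSubgroup G) : K.index * (fs K).card = Fintype.card G := by
  rw [card_fs, AddSubgroup.index_mul_card, Nat.card_eq_fintype_card]

lemma nsmul_cos_Core {B : Finset G} {K : AddSubgroup G} {a : G} (h : B ⊆ cos K a) (k : ℕ) :
    ∀ y ∈ k • B, y - k • a ∈ K := by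
  induction k with
  | zero => intro y hy; rw [zero_nsmul, Finset.mem_zero] at hy; simp [hy]
  | succ k ih =>
    intro y hy
    rw [succ_nsmul] at hy
    obtain ⟨z, hz, b, hb, rfl⟩ := Finset.mem_add.1 hy
    have := K.add_mem (ih z hz) (mem_cos.1 (h hb))
    rw [succ_nsmul]
    convert this using 1
    abel

omit [DecidableEq G] in
lemma sum_cos_Core {U : Finset G} {K : AddSubgroup G} {a : G} (h : U ⊆ cos K a) :
    ∑ x ∈ U, x - U.card • a ∈ K := by
  rw [← Finset.sum_const, ← Finset.sum_sub_distrib]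
  exact K.sum_mem fun x hx => mem_cos.1 (h hx)

omit [Fintype G] in
lemma stab_le_Core {X : Finset G} {K : AddSubgroup G} {c : G} (hX : X.Nonempty)
    (h : ∀ x ∈ X, x - c ∈ K) : stab X ≤ K := by
  obtain ⟨x, hx⟩ := hX
  intro g hg
  have := K.sub_mem (h _ (hg x hx)) (h x hx)
  simpa using this

lemma nsmul_fs_Core (B : Finset G) (L : AddSubgroup G) (k : ℕ) :
    ∀ y ∈ k • (B + fs L), ∃ x ∈ k • B, y - x ∈ L := by
  induction k with
  | zero => intro y hy; exact ⟨y, by simpa using hy, by simp⟩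
  | succ k ih =>
    intro y hy
    rw [succ_nsmul] at hy
    obtain ⟨z, hz, b, hb, rfl⟩ := Finset.mem_add.1 hy
    obtain ⟨x, hx, h1⟩ := ih z hz
    obtain ⟨c, hc, h2⟩ := mem_add_fs.1 hb
    refine ⟨x + c, by rw [succ_nsmul]; exact Finset.add_mem_add hx hc, ?_⟩
    convert L.add_mem h1 h2 using 1
    abel

lemma max_coset_Core (A : Finset G) {m n l : ℕ} (hm : 1 ≤ m) (hN : Fintype.card G = m * n)
    (hA : n ≤ A.card) (hn : (m + 1) * (m + 1) * l < n) :
    ∃ (K : AddSubgroup G) (a : G), K.index ≤ m ∧ (A \ cos K a).card ≤ K.index * l ∧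
      ∀ (K' : AddSubgroup G) (a' : G), (A \ cos K' a').card ≤ (K.index + 1) * l →
        K'.index ≤ K.index := by
  classical
  let P : ℕ → Prop := fun d => ∃ (K : AddSubgroup G) (a : G), K.index = d ∧
    (A \ cos K a).card ≤ d * l
  have h1 : P 1 := ⟨⊤, 0, AddSubgroup.index_top, by
    rw [Finset.sdiff_eq_empty_iff_subset.2 (fun x _ => by simp)]; simp⟩
  obtain ⟨K, a, hK, hKa⟩ : P (Nat.findGreatest P m) := Nat.findGreatest_spec hm h1
  have hle : K.index ≤ m := hK ▸ Nat.findGreatest_le m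
  refine ⟨K, a, hle, hK ▸ hKa, fun K' a' h => ?_⟩
  by_contra hc
  have h2 : K'.index ≤ m := by
    by_contra h3
    have h4 : A.card ≤ (A \ cos K' a').card + (cos K' a').card := Finset.card_le_card_sdiff_add_card
    rw [card_cos] at h4
    have h5 := idx_mul_Core K'
    have h6 : (m + 1) * (fs K').card ≤ K'.index * (fs K').card :=
      Nat.mul_le_mul_right _ (by omega)
    have h7 : (K.index + 1) * l ≤ (m + 1) * l := Nat.mul_le_mul_right _ (by omega)
    have h8 : (m + 1) * n ≤ (m + 1) * ((m + 1) * l + (fs K').card) :=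
      Nat.mul_le_mul_left _ (by omega)
    nlinarith
  have h3 : K'.index ≤ Nat.findGreatest P m :=
    Nat.le_findGreatest h2 ⟨K', a', rfl, h.trans (Nat.mul_le_mul_right _ (by omega))⟩
  omega

end

lemma arith_Core {m d i s d' : ℕ} (h2 : 2 ≤ d) (hd : d ≤ m) (hi : m + 1 ≤ i + d) (hs : 2 ≤ s)
    (h1 : (i + 1) * s + 1 ≤ d' + i) (h3 : d * d' ≤ m * s) : False := by
  obtain ⟨u, rfl⟩ : ∃ u, d = 2 + u := ⟨d - 2, by omega⟩
  obtain ⟨v, rfl⟩ : ∃ v, m = 2 + u + v := ⟨m - (2 + u), by omega⟩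
  obtain ⟨w, rfl⟩ : ∃ w, i = v + 1 + w := ⟨i - (v + 1), by omega⟩
  obtain ⟨r, rfl⟩ : ∃ r, s = 2 + r := ⟨s - 2, by omega⟩
  have h4 : (v + 2) * (r + 1) + 2 ≤ d' := by nlinarith [Nat.zero_le (w * r)]
  have h5 : (2 + u) * ((v + 2) * (r + 1) + 2) ≤ (2 + u) * d' := Nat.mul_le_mul_left _ h4
  nlinarith [Nat.zero_le (u * v * r), Nat.zero_le (u * v), Nat.zero_le (u * r),
    Nat.zero_le (v * r)]

lemma ar1_Core {m n l h e T J k a : ℕ} (hJm : J ≤ m) (hk : k ≤ J * n) (ha : n ≤ a + m * l)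
    (hn2 : m * (h + 3 * e) + T + (m + 1) * (m + 1) * l < n) :
    J * (h + 3 * e) + k + T ≤ (J + 1) * a := by
  have h1 : J * (h + 3 * e) ≤ m * (h + 3 * e) := Nat.mul_le_mul_right _ hJm
  have h2 : (J + 1) * n ≤ (J + 1) * (a + m * l) := Nat.mul_le_mul_left _ ha
  have h3 : (J + 1) * (m * l) ≤ (m + 1) * ((m + 1) * l) :=
    Nat.mul_le_mul (by omega) (Nat.mul_le_mul_right _ (by omega))
  nlinarith

lemma ar2_Core {i s d' x c : ℕ} (hx : 0 < x) (k1 : (i + 1) * (x * s) ≤ c + i * x)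
    (k2 : c + x ≤ x * d') : (i + 1) * s + 1 ≤ d' + i := by
  refine Nat.le_of_mul_le_mul_left ?_ hx
  nlinarith

lemma ar3_Core {m n l x s D : ℕ} (k6 : m * n = D * x) (h3 : n ≤ (m + 1) * l + x * s)
    (hx : m * (m + 1) * l < x) : D ≤ m * s := by
  have h3 : m * n ≤ m * ((m + 1) * l + x * s) := Nat.mul_le_mul_left _ h3
  by_contra h4
  have h5 : (m * s + 1) * x ≤ D * x := Nat.mul_le_mul_right _ (by omega)
  nlinarith

lemma ar4_Core {m d J : ℕ} (hd : d ≠ 0) (hd' : d ≤ m) (hJ : m + 1 = J + d) : m ≤ d * J := by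
  obtain ⟨u, rfl⟩ : ∃ u, d = u + 1 := ⟨d - 1, by omega⟩
  obtain ⟨v, rfl⟩ : ∃ v, J = v + 1 := ⟨J - 1, by omega⟩
  nlinarith [Nat.zero_le (u * v)]

lemma ar5_Core {m n x s d' : ℕ} (hx : 0 < x) (k6 : m * n = d' * x) (k8 : d' < m * s) :
    n < x * s := by
  refine Nat.lt_of_mul_lt_mul_left (a := m) ?_
  rw [k6]
  nlinarith

lemma ar6_Core {m : ℕ} (hm : 2 ≤ m) (l : ℕ) : m * l ≤ (m + 1) * (m + 1) * l ∧
    (m + 1) * l ≤ (m + 1) * (m + 1) * l ∧ 2 * l ≤ m * (m + 1) * l :=
  ⟨Nat.mul_le_mul_right _ (by nlinarith), Nat.mul_le_mul_right _ (by nlinarith),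
    Nat.mul_le_mul_right _ (by nlinarith)⟩

theorem CORE_pf (hRK : RK_st) (hREP : REP_st) (hDAV : DAV_st) (hROB : ROB_st) (hBOR : BOR_st) :
    CORE_st := by
  intro G _ _ _ A m n t T e g h l hm hN hn hD ht1 ht2 hA hR hT hg1 hg2 hg3 hh hn2
  by_contra hcon
  rw [not_or] at hcon
  obtain ⟨hc1, hc2⟩ := hcon
  obtain ⟨hml, hml2, hml3⟩ := ar6_Core hm l
  obtain ⟨K, a, hd, hE, hmax⟩ := max_coset_Core A (l := l) (by omega) hN (by omega) (by omega)
  have hd0 : K.index ≠ 0 := AddSubgroup.index_ne_zero_of_finite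
  have hKN := idx_mul_Core K
  obtain ⟨F, hF, hF1, hF2⟩ := hDAV G K (A \ cos K a) a
  obtain ⟨j, hj⟩ : ∃ j, t = j + 2 + F.card := ⟨t - 2 - F.card, by omega⟩
  set A0 := A ∩ cos K a with hA0
  have hc0 : (A \ cos K a).card + A0.card = n + t := by
    rw [← hA]; exact Finset.card_sdiff_add_card_inter _ _
  have hc3 : ((A \ cos K a) \ F).card + F.card = (A \ cos K a).card :=
    Finset.card_sdiff_add_card_eq_card hF
  have hs1 : ∑ x ∈ A0, x + ∑ x ∈ A \ cos K a, x = ∑ x ∈ A, x :=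
    Finset.sum_inter_add_sum_sdiff _ _ _
  have hs2 : ∑ x ∈ (A \ cos K a) \ F, x + ∑ x ∈ F, x = ∑ x ∈ A \ cos K a, x :=
    Finset.sum_sdiff hF
  set y := ∑ x ∈ A, x - ∑ x ∈ F, x with hy
  have hyK : y - (j + 1 + 1) • a ∈ K := by
    have h1 := K.add_mem (sum_cos_Core (U := A0) (K := K) (a := a) Finset.inter_subset_right) hF2
    have h2 : A0.card • a + ((A \ cos K a) \ F).card • a = (j + 1 + 1) • a := by
      rw [← add_nsmul, show A0.card + ((A \ cos K a) \ F).card = n + (j + 1 + 1) by omega,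
        add_nsmul, hn, zero_add]
    convert h1 using 1
    rw [hy, ← hs1, ← hs2, ← h2]
    abel
  have hyn : y ∉ pop A0 T (j + 1) := by
    intro hy'
    obtain ⟨U, hU, -, hU1, hU2⟩ := hREP G A0 T (2 * m) j 0 y hD (by omega) hy' ∅ (by simp)
    have hdis : Disjoint U F := Finset.disjoint_left.2 fun x h1 h2 =>
      (Finset.mem_sdiff.1 (hF h2)).2 (Finset.mem_inter.1 (hU h1)).2
    refine hc1 ⟨U ∪ F, Finset.union_subset (hU.trans Finset.inter_subset_left)
      (hF.trans Finset.sdiff_subset), by rw [Finset.card_union_of_disjoint hdis]; omega, ?_⟩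
    rw [Finset.sum_union hdis, hU2, hy]
    abel
  have hEl : (A \ cos K a).card ≤ m * l := hE.trans (Nat.mul_le_mul_right _ hd)
  obtain ⟨J, hJ⟩ : ∃ J, m + 1 = J + K.index := ⟨m + 1 - K.index, by omega⟩
  have hKJ : (fs K).card ≤ J * n := by
    have h1 : m ≤ K.index * J := ar4_Core hd0 hd hJ
    refine Nat.le_of_mul_le_mul_left ?_ (Nat.pos_of_ne_zero hd0)
    rw [hKN, hN, ← mul_assoc]
    exact Nat.mul_le_mul_right _ h1
  have hJm : J ≤ m := by omega
  obtain ⟨H, hHK, hH1, hH2⟩ := hRK G K A0 a y T e g h J (j + 1) hR Finset.inter_subset_right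
    (by omega) (by omega) (by omega) (by omega)
    (ar1_Core hJm hKJ (by omega) hn2) hg1
    (by
      have h1 : J * T * Fintype.card G ≤ m * T * Fintype.card G :=
        Nat.mul_le_mul_right _ (Nat.mul_le_mul_right _ hJm)
      omega) hyK hyn
  obtain ⟨hB1, hB2⟩ := hROB G A0 H g
  set B := rob A0 H g with hB
  have hB3 : (A0 \ B).card ≤ l := by
    refine Nat.le_of_mul_le_mul_right ?_ (fs_pos H)
    exact hB2.trans (hg3.trans (Nat.mul_le_mul_left _ hH1))
  have hB4 : B ⊆ cos K a := by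
    intro x hx
    obtain ⟨b, hb⟩ : (A0 ∩ cos H x).Nonempty :=
      Finset.card_pos.1 (lt_of_lt_of_le (by omega) (mem_rob.1 hx))
    have h1 := mem_cos.1 (Finset.mem_inter.1 (Finset.mem_inter.1 hb).1).2
    have h2 := hHK (mem_cos.1 (Finset.mem_inter.1 hb).2)
    have := K.sub_mem h1 h2
    rw [mem_cos]
    convert this using 1
    abel
  have hB5 : B.Nonempty := by
    have h1 : A0.card ≤ (A0 \ B).card + B.card := Finset.card_le_card_sdiff_add_card
    have h2 : (m + 1) * l = m * l + l := by ring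
    exact Finset.card_pos.1 (by omega)
  set i := j + 1 with hi
  set L := stab ((i + 1) • B) with hL
  have hHL : H ≤ L := by
    rw [hL, succ_nsmul]; exact hB1.trans (stab_le_add' _ _)
  have hLK : L ≤ K := stab_le_Core hB5.nsmul (nsmul_cos_Core hB4 _)
  have hLh : h ≤ (fs L).card := hH1.trans (Nat.le_of_dvd (fs_pos L) (card_fs_dvd hHL))
  have k1 := kneser_iter B hB5 i
  rw [← hL] at k1
  have k2 : ((i + 1) • B).card + (fs L).card ≤ (fs K).card := by
    have hdis : Disjoint ((i + 1) • B) (cos L y) := Finset.disjoint_left.2 fun x h1 h2 =>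
      hH2 (mem_of_sub_mem le_rfl h1 (by simpa using L.neg_mem (mem_cos.1 h2)))
    rw [← card_cos L y, ← Finset.card_union_of_disjoint hdis, ← card_cos K ((i + 1) • a)]
    refine Finset.card_le_card (Finset.union_subset
      (fun x hx => mem_cos.2 (nsmul_cos_Core hB4 _ x hx)) fun x hx => mem_cos.2 ?_)
    convert K.add_mem (hLK (mem_cos.1 hx)) hyK using 1
    abel
  obtain ⟨s, hs⟩ := card_dvd (B + fs L) (le_stab_add_fs B L)
  obtain ⟨d', hd'⟩ := card_fs_dvd hLK
  have hLpos := fs_pos L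
  have k3 : (i + 1) * s + 1 ≤ d' + i := by
    rw [hs] at k1; rw [hd'] at k2
    exact ar2_Core hLpos k1 k2
  have k4 : L.index = K.index * d' := by
    refine Nat.eq_of_mul_eq_mul_right hLpos ?_
    rw [idx_mul_Core, ← hKN, hd']; ring
  have k5 : (A \ (B + fs L)).card ≤ (K.index + 1) * l := by
    have h1 : A \ (B + fs L) ⊆ (A \ cos K a) ∪ (A0 \ B) := by
      intro x hx
      rw [Finset.mem_sdiff] at hx
      by_cases h2 : x ∈ cos K a
      · exact Finset.mem_union_right _ (Finset.mem_sdiff.2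
          ⟨Finset.mem_inter.2 ⟨hx.1, h2⟩, fun h3 => hx.2 (subset_add_fs B L h3)⟩)
      · exact Finset.mem_union_left _ (Finset.mem_sdiff.2 ⟨hx.1, h2⟩)
    have h2 := (Finset.card_le_card h1).trans (Finset.card_union_le _ _)
    rw [add_mul, one_mul]
    omega
  have k6 : m * n = K.index * d' * (fs L).card := by rw [← k4, idx_mul_Core, hN]
  have k7 : K.index * d' ≤ m * s := by
    have h1 : A.card ≤ (A \ (B + fs L)).card + (B + fs L).card :=
      Finset.card_le_card_sdiff_add_card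
    have h2 : (K.index + 1) * l ≤ (m + 1) * l := Nat.mul_le_mul_right _ (by omega)
    exact ar3_Core k6 (l := l) (by omega) (by omega)
  obtain ⟨b, hb⟩ := hB5
  have hs0 : s ≠ 0 := by
    rintro rfl
    have := Finset.card_pos.2 ⟨b, subset_add_fs B L hb⟩
    omega
  by_cases hs1' : s = 1
  · subst hs1'
    have h1 : cos L b = B + fs L :=
      Finset.eq_of_subset_of_card_le (cos_subset (le_stab_add_fs B L) (subset_add_fs B L hb))
        (by rw [card_cos]; omega)
    have h2 := hmax L b (by rw [h1]; exact k5)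
    have h3 : K.index * 2 ≤ K.index * d' := Nat.mul_le_mul_left _ (by omega)
    omega
  by_cases hd2 : 2 ≤ K.index
  · exact arith_Core hd2 hd (by omega) (by omega) k3 k7
  have hd1 : K.index = 1 := by omega
  have hti : t = i + 1 := by omega
  have gen : ∀ B' : Finset G, B + fs L ⊆ B' →
      AddSubgroup.closure ((B' : Set G) - (B' : Set G)) = ⊤ := by
    intro B' hB'
    rw [← AddSubgroup.index_eq_one]
    have h1 := hmax (AddSubgroup.closure ((B' : Set G) - (B' : Set G))) b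
      (le_trans (Finset.card_le_card (Finset.sdiff_subset_sdiff le_rfl fun x hx =>
        mem_cos.2 (AddSubgroup.subset_closure (Set.sub_mem_sub (hB' hx)
          (hB' (subset_add_fs B L hb)))))) k5)
    have h2 : (AddSubgroup.closure ((B' : Set G) - (B' : Set G))).index ≠ 0 :=
      AddSubgroup.index_ne_zero_of_finite
    omega
  rw [hd1, one_mul] at k6 k7
  rcases k7.lt_or_eq with k8 | k8
  · refine hc2 ⟨L, B + fs L, by omega, le_stab_add_fs B L, ?_, gen _ le_rfl, fun h1 => ?_⟩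
    · rw [hs]; exact ar5_Core hLpos k6 k8
    · obtain ⟨x, hx, h2⟩ := nsmul_fs_Core B L t y (h1 ▸ Finset.mem_univ y)
      rw [hti] at hx
      exact hH2 (mem_of_sub_mem le_rfl hx h2)
  · have h1 : (B + fs L).card = n := by
      refine Nat.eq_of_mul_eq_mul_left (show 0 < m by omega) ?_
      rw [k6, hs, k8]; ring
    rcases hBOR G A (B + fs L) L m n t ((K.index + 1) * l) (2 * m) hN ht1 (by omega) (by omega)
      (le_stab_add_fs B L) h1 hA k5 hD (by rw [hd1]; omega) with h3 | ⟨B', h3, h4, h5, h6⟩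
    · exact hc1 h3
    · exact hc2 ⟨L, B', by omega, h4, h5, gen _ h3, h6⟩

end Pool.Agent.MP_f9a021_co.BD
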