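import Pool.Agent.MP_f9a021_co.Defs

namespace Pool.Agent.MP_f9a021_co

/-- The largest `t` for which some subgroup `H` with at least `4 m ^ 2` elements and some union `B`
of cosets of `H` satisfy: `B` has density above `1 / m`, the differences of elements of `B` generate
`G`, and some element of `G` is not a sum of `t` (not necessarily distinct) elements of `B`. -/
noncomputable def coverT (G : Type*) [AddCommGroup G] (m : ℕ) : ℕ :=
  sSup {t : ℕ | ∃ (H : AddSubgroup G) (B : Set G), 4 * m ^ 2 ≤ Nat.card H ∧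
    (∀ b ∈ B, ∀ h ∈ H, b + h ∈ B) ∧ Nat.card G < m * B.ncard ∧
    AddSubgroup.closure {x : G | ∃ a ∈ B, ∃ b ∈ B, x = a - b} = ⊤ ∧
    ∃ y : G, ∀ f : Fin t → G, (∀ i, f i ∈ B) → ∑ i, f i ≠ y}

end Pool.Agent.MP_f9a021_co
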