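import Pool.Agent.MP_f9a021_co.BD.St

/-! The cyclic quotient construction. -/

open Finset Pointwise

namespace Pool.Agent.MP_f9a021_co.BD

lemma val_Cyc {G : Type} [AddCommGroup G] [DecidableEq G] {d q : ℕ} [NeZero d] (φ : G →+ ZMod d)
    (B : Finset G) (hB : ∀ x ∈ B, (φ x).val ≤ q) :
    ∀ (k : ℕ) (x : G), x ∈ k • B → ∃ v : ℕ, v ≤ k * q ∧ φ x = v := by
  intro k
  induction k with
  | zero =>
    intro x hx
    rw [zero_nsmul, mem_zero] at hx
    exact ⟨0, by simp, by simp [hx]⟩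
  | succ k ih =>
    intro x hx
    rw [succ_nsmul, mem_add] at hx
    obtain ⟨y, hy, z, hz, rfl⟩ := hx
    obtain ⟨v, hv, e⟩ := ih y hy
    refine ⟨v + (φ z).val, ?_, by simp [e]⟩
    have := hB z hz
    rw [add_mul, one_mul]
    omega

theorem CYC_pf : CYC_st := by
  intro G _ _ _ m d hm hG hd hmd h4
  have : NeZero d := ⟨by omega⟩
  have : Fact (1 < d) := ⟨by omega⟩
  obtain ⟨φ, hφ⟩ := exists_surj G hd
  obtain ⟨f, hf⟩ := hd
  have hs : Fintype.card G = m * f * d := by rw [hG, hf]; ring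
  have hf4 : 4 * m ≤ f := by
    rw [hf, mul_comm d] at h4
    exact Nat.le_of_mul_le_mul_right h4 (by omega)
  have q1 : 1 ≤ d / m := (Nat.one_le_div_iff (by omega)).2 hmd.le
  have q2 : d / m < d := Nat.div_lt_self (by omega) (by omega)
  have q3 : d < m * (d / m + 1) := Nat.lt_mul_div_succ d (by omega)
  have hB : ∀ x, x ∈ univ.filter (fun g => (φ g).val ≤ d / m) ↔ (φ x).val ≤ d / m := by simp
  have hc : (univ.filter (fun g => (φ g).val ≤ d / m)).card = (d / m + 1) * (m * f) := by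
    rw [card_eq_sum_card_fiberwise (f := fun g => (φ g).val) (t := range (d / m + 1))
      (fun x hx => mem_coe.2 (mem_range.2 (Nat.lt_succ_of_le ((hB x).1 hx)))), sum_const_nat
      (m := m * f), card_range]
    intro v hv
    rw [mem_range] at hv
    rw [← card_fiber φ hφ hs v (by omega), filter_filter]
    congr 1
    refine filter_congr fun x _ => ⟨fun h => h.2, fun h => ⟨by omega, h⟩⟩
  generalize univ.filter (fun g => (φ g).val ≤ d / m) = B at hB hc
  have h0 : (0 : G) ∈ B := (hB 0).2 (by simp)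
  refine ⟨φ.ker, B, ?_, ?_, ?_, ?_, ?_⟩
  · have e : fs φ.ker = univ.filter (fun g => (φ g).val = 0) := by
      ext x
      simp
    rw [e, card_fiber φ hφ hs 0 (by omega)]
    nlinarith
  · intro g hg x hx
    rw [hB] at hx ⊢
    rwa [map_add, (AddMonoidHom.mem_ker).1 hg, zero_add]
  · rw [hc, hf]
    nlinarith
  · obtain ⟨g, hg⟩ := hφ 1
    have hm : ∀ x ∈ B, x ∈ AddSubgroup.closure ((B : Set G) - (B : Set G)) := fun x hx =>
      AddSubgroup.subset_closure ⟨x, hx, 0, h0, sub_zero x⟩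
    rw [eq_top_iff]
    intro x _
    have h1 := hm g ((hB g).2 (by rw [hg, ZMod.val_one]; exact q1))
    have h2 := hm (x - (φ x).val • g) ((hB _).2 (by simp [hg]))
    simpa using add_mem h2 (nsmul_mem h1 (φ x).val)
  · intro h
    obtain ⟨x, hx⟩ := hφ ((d - 1 : ℕ) : ZMod d)
    obtain ⟨v, hv, e⟩ := val_Cyc φ B (fun x hx => (hB x).1 hx) _ x (h ▸ mem_univ x)
    have h1 := Nat.div_mul_le_self (d - 2) (d / m)
    rw [hx, ZMod.natCast_eq_natCast_iff', Nat.mod_eq_of_lt (by omega),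
      Nat.mod_eq_of_lt (by omega)] at e
    omega

theorem PRED_pf : PRED_st := by
  intro G _ _ _ m hm hG h2
  have hp := Nat.minFac_prime (n := m) (by omega)
  have : Fact m.minFac.Prime := ⟨hp⟩
  obtain ⟨x, hx⟩ := exists_prime_addOrderOf_dvd_card (G := G) m.minFac
    (hG ▸ (Nat.minFac_dvd m).mul_right _)
  obtain ⟨d, hd⟩ : m.minFac ∣ AddMonoid.exponent G := hx ▸ AddMonoid.addOrder_dvd_exponent x
  have h1 : m.minFac ≤ m := Nat.minFac_le (by omega)
  have h3 : 2 * m * m ≤ d := by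
    refine Nat.le_of_mul_le_mul_left ?_ hp.pos
    rw [← hd]
    refine le_trans ?_ h2
    calc m.minFac * (2 * m * m) ≤ m * (2 * m * m) := Nat.mul_le_mul_right _ h1
      _ = 2 * m ^ 3 := by ring
  have : NeZero d := ⟨by have : 0 < 2 * m * m := by positivity
                         omega⟩
  obtain ⟨φ, hφ⟩ := exists_surj G (d := d) (hd ▸ dvd_mul_left _ _)
  rw [hd]
  exact le_tauHat (lower_pred φ hφ (by rw [hG, hd]; ring) hm hp.two_le h3)

end Pool.Agent.MP_f9a021_co.BD
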