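import Pool.Agent.MP_f9a021_co.BD.Core

open Finset Pointwise

namespace Pool.Agent.MP_f9a021_co.BD

lemma num_Fin {m n T c x N : ℕ} (hm : 2 ≤ m) (hc : 10 * ((m + 1) * (m + 1)) ≤ c) (hT : 0 < T)
    (hN : N = m * n) (h1 : c ^ 4 * x ≤ N) (h2 : N < c ^ 4 * (x + 1)) (h3 : m * T * c ^ 4 < x) :
    x + T ≤ 3 * x ∧ m * T * N + x * (3 * x) < 3 * x * (3 * x) ∧
      3 * x * N ≤ c ^ 2 * x * (c ^ 3 * x) ∧
      m * (m + 1) * (c ^ 2 * x) + 2 * (c ^ 2 * x) + 10 * m + 4 * m ^ 2 < c ^ 3 * x ∧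
      m * (c ^ 3 * x + 3 * x) + T + (m + 1) * (m + 1) * (c ^ 2 * x) < n := by
  have hc9 : 90 ≤ c := by nlinarith
  have hx : 1 ≤ x := by omega
  have hc4 : 1 ≤ c ^ 4 := Nat.one_le_pow _ _ (by omega)
  have hTx : m * T < x := lt_of_le_of_lt (Nat.le_mul_of_pos_right _ hc4) h3
  have hTx' : T < x := by nlinarith
  have hN2 : N ≤ 2 * (c ^ 4 * x) := by nlinarith
  have hw : c ^ 3 * x = c * (c ^ 2 * x) := by ring
  have hw2 : c ^ 4 * x = c * (c ^ 3 * x) := by ring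
  have hw3 : c * x ≤ c ^ 2 * x := Nat.mul_le_mul_right _ (by nlinarith)
  have hw4 : c ≤ c * x := Nat.le_mul_of_pos_right _ hx
  have hw5 : x ≤ c * x := Nat.le_mul_of_pos_left _ (by omega)
  refine ⟨by omega, ?_, ?_, ?_, ?_⟩
  · have a1 : m * T * N ≤ m * T * (2 * (c ^ 4 * x)) := Nat.mul_le_mul_left _ hN2
    have a2 : m * T * c ^ 4 * x < x * x := Nat.mul_lt_mul_of_pos_right h3 hx
    nlinarith
  · have a1 : 3 * x * N ≤ 3 * x * (2 * (c ^ 4 * x)) := Nat.mul_le_mul_left _ hN2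
    have a2 : 6 * (c ^ 4 * x * x) ≤ c * (c ^ 4 * x * x) := Nat.mul_le_mul_right _ (by omega)
    calc 3 * x * N ≤ 6 * (c ^ 4 * x * x) := a1.trans (le_of_eq (by ring))
      _ ≤ c * (c ^ 4 * x * x) := a2
      _ = _ := by ring
  · rw [hw]
    generalize c ^ 2 * x = w at *
    have a1 : (m * (m + 1) + 3) * w ≤ c * w := Nat.mul_le_mul_right _ (by nlinarith)
    have a2 : 10 * m + 4 * m ^ 2 < w := by nlinarith
    nlinarith
  · refine Nat.lt_of_mul_lt_mul_left (a := m) ?_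
    rw [← hN]
    refine lt_of_lt_of_le ?_ h1
    rw [hw2]
    have a0 : c ^ 2 * x * m ≤ c ^ 3 * x := by
      rw [hw, mul_comm]; exact Nat.mul_le_mul_right _ (by nlinarith)
    have a00 : c ^ 2 * x ≤ c ^ 3 * x := by
      rw [hw]; exact Nat.le_mul_of_pos_left _ (by omega)
    generalize c ^ 3 * x = w at *
    generalize c ^ 2 * x = v at *
    have a1 : 10 * ((m + 1) * (m + 1)) * w ≤ c * w := Nat.mul_le_mul_right _ hc
    have a2 : (m + 1) * (m + 1) * (v * m) ≤ (m + 1) * (m + 1) * w := Nat.mul_le_mul_left _ a0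
    have a3 : m * m * x ≤ m * m * w := Nat.mul_le_mul_left _ (by omega)
    have a4 : m * T < w := by omega
    nlinarith [Nat.zero_le (m * w), Nat.zero_le (m * m * w)]

lemma upper_Fin (hR : R_st) (hT : TOR_st) (hC : CORE_st) {m : ℕ} (hm : 2 ≤ m) :
    ∃ C : ℕ, ∀ (G : Type) [AddCommGroup G] [Fintype G] [DecidableEq G],
      Fintype.card G = m * AddMonoid.exponent G → C ≤ AddMonoid.exponent G →
      ∀ (t : ℕ) (A : Finset G), m + 1 ≤ t → t ≤ 2 * m → A.card = AddMonoid.exponent G + t →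
        (∃ U ⊆ A, U.card = t ∧ ∑ x ∈ U, x = ∑ x ∈ A, x) ∨
        ∃ (H : AddSubgroup G) (B : Finset G), 4 * m ^ 2 ≤ (fs H).card ∧ H ≤ stab B ∧
          AddMonoid.exponent G < B.card ∧
          AddSubgroup.closure ((B : Set G) - (B : Set G)) = ⊤ ∧ t • B ≠ univ := by
  obtain ⟨c, hc⟩ : ∃ c, c = 10 * ((m + 1) * (m + 1)) := ⟨_, rfl⟩
  have hc0 : 0 < c ^ 4 := by rw [hc]; positivity
  obtain ⟨N₀, hN₀⟩ := hR (6 * m + 1) (c ^ 4) hc0
  refine ⟨N₀ + (m * (6 * m + 1) * c ^ 4 + 1) * c ^ 4, fun G _ _ _ hN hn t A h1 h2 hA => ?_⟩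
  have h3 : AddMonoid.exponent G ≤ Fintype.card G := by
    rw [hN]; exact Nat.le_mul_of_pos_left _ (by omega)
  obtain ⟨a1, a2, a3, a4, a5⟩ := num_Fin (x := Fintype.card G / c ^ 4) (T := 6 * m + 1) hm hc.ge
    (by omega) hN (Nat.mul_div_le _ _) (Nat.lt_mul_div_succ _ hc0)
    ((Nat.le_div_iff_mul_le hc0).2 ((Nat.le_add_left _ _).trans (hn.trans h3)))
  exact hC G A m _ t (6 * m + 1) _ _ _ _ hm hN (fun x => AddMonoid.exponent_nsmul_eq_zero x)
    (hT G m hN) h1 h2 hA (hN₀ G (by omega)) (by omega) a1 a2 a3 a4 a5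

section
variable {G : Type} [AddCommGroup G] [Fintype G] [DecidableEq G]

lemma bridge_Fin {m n t : ℕ} (hm : 2 ≤ m) (hN : Fintype.card G = m * n) :
    (∃ (H : AddSubgroup G) (B : Set G), 4 * m ^ 2 ≤ Nat.card H ∧
      (∀ b ∈ B, ∀ h ∈ H, b + h ∈ B) ∧ Nat.card G < m * B.ncard ∧
      AddSubgroup.closure (B - B) = ⊤ ∧ t • B ≠ Set.univ) ↔
    ∃ (H : AddSubgroup G) (B : Finset G), 4 * m ^ 2 ≤ (fs H).card ∧ H ≤ stab B ∧
      n < B.card ∧ AddSubgroup.closure ((B : Set G) - (B : Set G)) = ⊤ ∧ t • B ≠ univ := by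
  constructor
  · rintro ⟨H, B, h1, h2, h3, h4, h5⟩
    obtain ⟨B, rfl⟩ : ∃ B' : Finset G, (B' : Set G) = B := ⟨B.toFinite.toFinset, by simp⟩
    refine ⟨H, B, by rwa [card_fs], fun g hg x hx => ?_, ?_, h4, fun h => h5 ?_⟩
    · rw [add_comm]; exact h2 x hx g hg
    · rw [Set.ncard_coe_finset, Nat.card_eq_fintype_card, hN] at h3
      exact Nat.lt_of_mul_lt_mul_left h3
    · rw [← Finset.coe_nsmul, h, Finset.coe_univ]
  · rintro ⟨H, B, h1, h2, h3, h4, h5⟩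
    refine ⟨H, B, by rwa [card_fs] at h1, fun b hb g hg => ?_, ?_, h4, fun h => h5 ?_⟩
    · rw [add_comm]; exact h2 hg b hb
    · rw [Set.ncard_coe_finset, Nat.card_eq_fintype_card, hN]
      exact Nat.mul_lt_mul_of_pos_left h3 (by omega)
    · rw [← Finset.coe_nsmul] at h
      exact Finset.coe_eq_univ.1 h

end

lemma ar1_Fin {m t s d : ℕ} (hm : 2 ≤ m) (hs : 2 ≤ s) (h1 : t * (s - 1) + 2 ≤ d)
    (h2 : d < m * s) : t + 3 ≤ 2 * m := by
  obtain ⟨r, rfl⟩ : ∃ r, s = r + 2 := ⟨s - 2, by omega⟩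
  rw [show r + 2 - 1 = r + 1 by omega] at h1
  by_contra h
  obtain ⟨u, rfl⟩ : ∃ u, m = u + 2 := ⟨m - 2, by omega⟩
  have h3 : (2 * u + 2) * (r + 1) ≤ t * (r + 1) := Nat.mul_le_mul_right _ (by omega)
  nlinarith [Nat.zero_le (u * r)]

lemma ar2_Fin {m t s d : ℕ} (hm : m ≤ t) (hs : 2 ≤ s) (h1 : t * (s - 1) + 2 ≤ d)
    (h2 : d < m * s) : m < d ∧ 2 ≤ d % m ∧ t ≤ (d - 2) / (d / m) := by
  obtain ⟨r, rfl⟩ : ∃ r, s = r + 1 := ⟨s - 1, by omega⟩
  rw [Nat.add_sub_cancel] at h1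
  have h3 : m * r ≤ t * r := Nat.mul_le_mul_right _ hm
  have h4 : m ≤ m * r := Nat.le_mul_of_pos_right _ (by omega)
  rw [mul_add, mul_one] at h2
  have h5 : d / m = r := Nat.div_eq_of_lt_le (by rw [mul_comm]; omega)
    (by rw [add_mul, one_mul, mul_comm]; omega)
  have h6 := Nat.div_add_mod d m
  rw [h5] at h6
  refine ⟨by omega, by omega, ?_⟩
  rw [h5, Nat.le_div_iff_mul_le (by omega)]
  omega

theorem main_Fin (hR : R_st) (hT : TOR_st) (hC : CORE_st) (hCOV : COV_st) (hLOW : LOW_st)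
    (hCYC : CYC_st) (hP : PRED_st) (m : ℕ) (hm : 2 ≤ m) :
    ∃ C : ℕ, ∀ (G : Type) [AddCommGroup G] [Fintype G],
      Fintype.card G = m * AddMonoid.exponent G → C ≤ AddMonoid.exponent G →
      AddMonoid.exponent G + max (m - 1) (critT G m) ≤ tauHat G (AddMonoid.exponent G) ∧
      tauHat G (AddMonoid.exponent G) ≤ AddMonoid.exponent G + max m (critT G m) ∧
      (∀ d : ℕ, d ∣ AddMonoid.exponent G → m < d → 4 * m * d ≤ AddMonoid.exponent G →
        (d - 2) / (d / m) ≤ critT G m) ∧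
      (m ≤ critT G m → ∃ d : ℕ, d ∣ m * AddMonoid.exponent G ∧ m < d ∧
        4 * m * d ≤ AddMonoid.exponent G ∧ 2 ≤ d % m ∧ critT G m ≤ (d - 2) / (d / m)) := by
  obtain ⟨C, hC'⟩ := upper_Fin hR hT hC hm
  refine ⟨C + 2 * m ^ 3, fun G _ _ hN hn => ?_⟩
  classical
  set n := AddMonoid.exponent G with hn'
  let P : ℕ → Prop := fun t => ∃ (H : AddSubgroup G) (B : Finset G), 4 * m ^ 2 ≤ (fs H).card ∧
    H ≤ stab B ∧ n < B.card ∧ AddSubgroup.closure ((B : Set G) - (B : Set G)) = ⊤ ∧ t • B ≠ univ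
  have hS : critT G m = sSup {t | P t} := by
    unfold critT
    congr 1
    ext t
    exact bridge_Fin hm hN
  have hb : ∀ t, P t → t + 3 ≤ 2 * m := by
    rintro t ⟨H, B, -, -, h3, h4, h5⟩
    rcases Nat.eq_zero_or_pos t with rfl | ht
    · omega
    obtain ⟨s, a1, a2, a3⟩ := hCOV G B m t
      (hN ▸ Nat.mul_lt_mul_of_pos_left h3 (by omega)) h4 ht h5
    exact ar1_Fin hm a1 a2 a3
  have hbdd : BddAbove {t | P t} := ⟨2 * m, fun t ht => by have := hb t ht; omega⟩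
  have hle : ∀ t, P t → t ≤ critT G m := fun t ht => hS ▸ le_csSup hbdd ht
  have hmem : 1 ≤ critT G m → P (critT G m) := by
    intro h
    rcases Set.eq_empty_or_nonempty {t | P t} with h0 | h0
    · rw [hS, h0] at h; simp at h
    · rw [hS]; exact Nat.sSup_mem h0 hbdd
  refine ⟨?_, ?_, fun d h1 h2 h3 => hle _ (hCYC G m d hm hN h1 h2 h3), fun h => ?_⟩
  · rcases le_total (critT G m) (m - 1) with h | h
    · rw [max_eq_left h]; exact hP G m hm hN (by omega)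
    · rw [max_eq_right h]
      obtain ⟨H, B, h1, h2, h3, h4, h5⟩ := hmem (by omega)
      exact le_tauHat (hLOW G B H m n _ hm hN h1 h2 h3 h4 (by omega) h5)
  · refine tauHat_le fun A hA => ?_
    have h1 : max m (critT G m) + 1 ≤ 2 * m := by
      rcases le_total (critT G m) m with h | h
      · rw [max_eq_left h]; omega
      · rw [max_eq_right h]; have := hb _ (hmem (by omega)); omega
    rcases hC' G hN (by omega) (max m (critT G m) + 1) A (by have := le_max_left m (critT G m); omega)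
      h1 hA with ⟨U, hU, h2, h3⟩ | h2
    · refine ⟨A \ U, Finset.sdiff_subset, by rw [Finset.card_sdiff_of_subset hU]; omega, ?_⟩
      have := Finset.sum_sdiff (f := fun x : G => x) hU
      rw [h3] at this
      simpa using this
    · have := hle _ h2
      have := le_max_right m (critT G m)
      omega
  · obtain ⟨H, B, h1, h2, h3, h4, h5⟩ := hmem (by omega)
    obtain ⟨s, a1, a2, a3⟩ := hCOV G B m _
      (hN ▸ Nat.mul_lt_mul_of_pos_left h3 (by omega)) h4 (by omega) h5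
    obtain ⟨b1, b2, b3⟩ := ar2_Fin h a1 a2 a3
    have c1 := idx_mul_Core (stab (critT G m • B))
    refine ⟨_, ⟨_, by rw [← hN, c1]⟩, b1, ?_, b2, b3⟩
    have c2 : H ≤ stab (critT G m • B) := by
      obtain ⟨k, hk⟩ : ∃ k, critT G m = k + 1 := ⟨critT G m - 1, by omega⟩
      rw [hk, succ_nsmul]
      exact h2.trans (stab_le_add' _ _)
    have c3 := h1.trans (Nat.le_of_dvd (fs_pos _) (card_fs_dvd c2))
    refine Nat.le_of_mul_le_mul_left ?_ (show 0 < m by omega)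
    rw [← hN, ← c1]
    calc m * (4 * m * (stab (critT G m • B)).index)
        = (stab (critT G m • B)).index * (4 * m ^ 2) := by ring
      _ ≤ _ := Nat.mul_le_mul_left _ c3

end Pool.Agent.MP_f9a021_co.BD
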