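import Pool.Agent.MP_f9a021_co.BD.St

/-! The covering bound and the lower construction. -/

open Finset Pointwise

namespace Pool.Agent.MP_f9a021_co.BD

lemma index_Low {G : Type} [AddCommGroup G] [Fintype G] (L : AddSubgroup G) :
    L.index * (fs L).card = Fintype.card G := by
  rw [card_fs, AddSubgroup.index_mul_card, Nat.card_eq_fintype_card]

theorem COV_pf : COV_st := by
  intro G _ _ _ B m j hm hcl hj hne
  have hB : B.Nonempty := card_pos.1 (Nat.pos_of_ne_zero fun h => by simp [h] at hm)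
  obtain ⟨k, rfl⟩ : ∃ k, j = k + 1 := ⟨j - 1, by omega⟩
  have h1 := kneser_iter B hB k
  have h0 : stab ((k + 1) • B) ≠ ⊤ := fun h => hne (eq_univ_of_stab hB.nsmul h)
  obtain ⟨c, hc⟩ := card_dvd ((k + 1) • B) le_rfl
  have h2 := (card_lt_iff_ne_univ _).2 hne
  generalize stab ((k + 1) • B) = L at *
  obtain ⟨s, hs⟩ := card_dvd _ (le_stab_add_fs B L)
  have h3 := index_Low L
  have h4 := fs_pos L
  have h5 := card_le_add_fs B L
  have h6 : 2 ≤ s := by
    by_contra h
    obtain ⟨b, hb⟩ := hB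
    have e : cos L b = B + fs L := eq_of_subset_of_card_le
      (cos_subset (le_stab_add_fs B L) (subset_add_fs B L hb)) (by
        rw [card_cos, hs]
        exact mul_le_of_le_one_right' (by omega))
    refine h0 (top_unique (hcl ▸ (AddSubgroup.closure_le L).2 ?_))
    rintro _ ⟨x, hx, y, hy, rfl⟩
    have := L.sub_mem (mem_cos.1 (e ▸ subset_add_fs B L hx)) (mem_cos.1 (e ▸ subset_add_fs B L hy))
    simpa using this
  obtain ⟨u, rfl⟩ : ∃ u, s = u + 1 := ⟨s - 1, by omega⟩
  have h7 : (k + 1) * (u + 1) ≤ c + k := Nat.le_of_mul_le_mul_left (by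
    rw [hs, hc] at h1
    linarith) h4
  have h8 : c < L.index := Nat.lt_of_mul_lt_mul_left (a := (fs L).card) (by linarith)
  refine ⟨u + 1, h6, by simp only [Nat.add_sub_cancel]; linarith,
    Nat.lt_of_mul_lt_mul_left (a := (fs L).card) ?_⟩
  have := Nat.mul_le_mul_left m h5
  rw [hs] at this
  linarith

lemma sum_mem_Low {G : Type} [AddCommGroup G] [DecidableEq G] {B : Finset G} (U : Finset G)
    (h : U ⊆ B) : ∑ x ∈ U, x ∈ U.card • B := by
  induction U using Finset.induction_on with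
  | empty => simp
  | insert a U ha ih =>
    rw [sum_insert ha, card_insert_of_notMem ha, succ_nsmul, add_comm a]
    exact add_mem_add (ih ((subset_insert _ _).trans h)) (h (mem_insert_self _ _))

lemma rep_Low {G : Type} [AddCommGroup G] [DecidableEq G] {B B₁ : Finset G} {H : AddSubgroup G}
    {r : ℕ} (h : ∀ b ∈ B, ∀ F : Finset G, F.card < r → ∃ x ∈ B₁, x ∉ F ∧ x - b ∈ H) (j : ℕ)
    (hj : j ≤ r) : ∀ y ∈ j • B, ∃ U ⊆ B₁, U.card = j ∧ ∑ x ∈ U, x - y ∈ H := by
  induction j with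
  | zero =>
    intro y hy
    obtain rfl : y = 0 := by simpa using hy
    exact ⟨∅, by simp, rfl, by simp⟩
  | succ j ih =>
    intro y hy
    rw [succ_nsmul] at hy
    obtain ⟨z, hz, b, hb, rfl⟩ := mem_add.1 hy
    obtain ⟨U, u1, u2, u3⟩ := ih (by omega) z hz
    obtain ⟨x, x1, x2, x3⟩ := h b hb U (by omega)
    refine ⟨insert x U, insert_subset x1 u1, by rw [card_insert_of_notMem x2, u2], ?_⟩
    rw [sum_insert x2, show x + ∑ x ∈ U, x - (z + b) = x - b + (∑ x ∈ U, x - z) by abel]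
    exact H.add_mem x3 u3

theorem LOW_pf : LOW_st := by
  intro G _ _ _ B H m n t hm hG hH hHB hn hcl ht hne
  have c0 : Fintype.card G < m * B.card := hG ▸ Nat.mul_lt_mul_of_pos_left hn (by omega)
  have c1 : ∀ j, 1 ≤ j → j • B ≠ univ → j < 2 * m := by
    intro j h1 h2
    obtain ⟨s, s1, s2, s3⟩ := COV_pf G B m j c0 hcl h1 h2
    obtain ⟨u, rfl⟩ : ∃ u, s = u + 1 := ⟨s - 1, by omega⟩
    rw [Nat.add_sub_cancel] at s2
    have := Nat.mul_le_mul_left m (show 1 ≤ u by omega)
    exact Nat.lt_of_mul_lt_mul_right (a := u) (by linarith)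
  have c2 : (2 * m) • B = univ := by
    by_contra h
    exact lt_irrefl _ (c1 _ (by omega) h)
  have c3 := c1 t ht hne
  obtain ⟨s, hs⟩ := card_dvd B hHB
  have c4 := index_Low H
  have c5 : H.index < m * s := Nat.lt_of_mul_lt_mul_left (a := (fs H).card) (by
    rw [hs] at c0
    linarith)
  have c6 : n + 4 * m ≤ B.card := Nat.le_of_mul_le_mul_left (c := m) (by
    have := Nat.mul_le_mul_left (fs H).card (show H.index + 1 ≤ m * s from c5)
    have e : m * B.card = (fs H).card * (m * s) := by rw [hs]; ring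
    linarith) (by omega)
  have c7 : H.index * (4 * m) ≤ n := Nat.le_of_mul_le_mul_left (c := m) (by
    have := Nat.mul_le_mul_left H.index hH
    linarith) (by omega)
  obtain ⟨H₀, h1, h2⟩ := exists_subset_card_eq (s := fs H) (n := 2 * m) (by nlinarith)
  have : Fintype (G ⧸ H) := Fintype.ofFinite _
  let W := image (fun p : (G ⧸ H) × G => p.1.out + p.2) (univ ×ˢ H₀)
  have c8 : W.card ≤ H.index * (2 * m) := by
    refine card_image_le.trans ?_
    rw [card_product, h2, card_univ, AddSubgroup.index_eq_card, Nat.card_eq_fintype_card]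
  obtain ⟨B₁, b1, b2, b3⟩ := exists_subsuperset_card_eq (n := n + t + 2 * m)
    (inter_subset_left : B ∩ W ⊆ B)
    ((card_le_card inter_subset_right).trans (by linarith)) (by omega)
  have c9 : ∀ b ∈ B, ∀ F : Finset G, F.card < 2 * m → ∃ x ∈ B₁, x ∉ F ∧ x - b ∈ H := by
    intro b hb F hF
    obtain ⟨x, x1, x2⟩ := exists_mem_notMem_of_card_lt_card (s := F)
      (t := image (fun z => (b : G ⧸ H).out + z) H₀)
      (by rwa [card_image_of_injective _ (add_right_injective _), h2])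
    obtain ⟨z, hz, rfl⟩ := mem_image.1 x1
    obtain ⟨w, hw⟩ := QuotientAddGroup.mk_out_eq_add H b
    have e : (b : G ⧸ H).out + z - b ∈ H := by
      rw [hw, show b + w + z - b = w + z by abel]
      exact H.add_mem w.2 (mem_fs.1 (h1 hz))
    exact ⟨_, b1 (mem_inter.2 ⟨mem_of_sub_mem hHB hb e,
      mem_image.2 ⟨(b, z), mem_product.2 ⟨mem_univ _, hz⟩, rfl⟩⟩), x2, e⟩
  obtain ⟨z, hz⟩ : ∃ z, z ∉ t • B := by
    by_contra h
    exact hne (eq_univ_iff_forall.2 (by simpa using h))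
  obtain ⟨U, u1, u2, u3⟩ := rep_Low c9 _ le_rfl (∑ x ∈ B₁, x - z) (c2 ▸ mem_univ _)
  have a1 : (B₁ \ U).card = n + t := by
    rw [card_sdiff_of_subset u1]
    omega
  refine ⟨B₁ \ U, fun V v1 v2 v3 => hz ?_, a1⟩
  have a2 : ((B₁ \ U) \ V).card = t := by
    rw [card_sdiff_of_subset v1]
    omega
  have a3 := sum_mem_Low ((B₁ \ U) \ V) (sdiff_subset.trans (sdiff_subset.trans b2))
  rw [a2, sum_sdiff_eq_sub v1, v3, sum_sdiff_eq_sub u1] at a3
  obtain ⟨k, rfl⟩ : ∃ k, t = k + 1 := ⟨t - 1, by omega⟩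
  refine mem_of_sub_mem (K := H) (by rw [succ_nsmul]; exact hHB.trans (stab_le_add' _ _)) a3 ?_
  rwa [show z - (∑ x ∈ B₁, x - ∑ x ∈ U, x - 0) = ∑ x ∈ U, x - (∑ x ∈ B₁, x - z) by abel]

end Pool.Agent.MP_f9a021_co.BD
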