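import Pool.Agent.Mg.Ff9a021.G4a7582

section
open Pointwise

namespace Pool.Agent.MP_f9a021_co

/-- The largest `t` for which some subgroup `H` with at least `4 m ^ 2` elements and some union `B`
of cosets of `H` satisfy: `B` has density above `1 / m`, the differences of `B` generate `G`, and
the `t`-fold sumset of `B` is not all of `G`. -/
noncomputable def critT (G : Type*) [AddCommGroup G] (m : ℕ) : ℕ :=
  sSup {t : ℕ | ∃ (H : AddSubgroup G) (B : Set G), 4 * m ^ 2 ≤ Nat.card H ∧
    (∀ b ∈ B, ∀ h ∈ H, b + h ∈ B) ∧ Nat.card G < m * B.ncard ∧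
    AddSubgroup.closure (B - B) = ⊤ ∧ t • B ≠ Set.univ}

end Pool.Agent.MP_f9a021_co

end

section
/-! Statements of the steps for groups with bounded `|G| / exp G`. -/

open Finset Pointwise

namespace Pool.Agent.MP_f9a021_co.BD

/-- Iterated popular sums: `pop A T j` plays the role of the `(j + 1)`-fold sumset. -/
def pop {G : Type} [AddCommGroup G] [Fintype G] [DecidableEq G] (A : Finset G) (T : ℕ) :
    ℕ → Finset G
  | 0 => A
  | j + 1 => univ.filter fun y => T ≤ (A.filter fun a => y - a ∈ pop A T j).card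

@[simp] lemma pop_zero {G : Type} [AddCommGroup G] [Fintype G] [DecidableEq G] (A : Finset G)
    (T : ℕ) : pop A T 0 = A := rfl

lemma mem_pop_succ {G : Type} [AddCommGroup G] [Fintype G] [DecidableEq G] {A : Finset G}
    {T j : ℕ} {y : G} :
    y ∈ pop A T (j + 1) ↔ T ≤ (A.filter fun a => y - a ∈ pop A T j).card := by
  simp [pop]

/-- Arithmetic removal with budget `e` for at most `T * |G|` solutions of `a + b = c`. -/
def Rem (G : Type) [AddCommGroup G] [Fintype G] [DecidableEq G] (T e : ℕ) : Prop :=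
  ∀ A B C : Finset G, ((A ×ˢ B).filter fun p => p.1 + p.2 ∈ C).card ≤ T * Fintype.card G →
    ∃ A' ⊆ A, ∃ B' ⊆ B, ∃ C' ⊆ C, (A \ A').card ≤ e ∧ (B \ B').card ≤ e ∧ (C \ C').card ≤ e ∧
      ∀ a ∈ A', ∀ b ∈ B', a + b ∉ C'

/-- The union of the cosets of `H` that hold at least `g` elements of `A`. -/
noncomputable def rob {G : Type} [AddCommGroup G] [Fintype G] [DecidableEq G] (A : Finset G)
    (H : AddSubgroup G) (g : ℕ) : Finset G := univ.filter fun x => g ≤ (A ∩ cos H x).card

lemma mem_rob {G : Type} [AddCommGroup G] [Fintype G] [DecidableEq G] {A : Finset G}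
    {H : AddSubgroup G} {g : ℕ} {x : G} : x ∈ rob A H g ↔ g ≤ (A ∩ cos H x).card := by
  simp [rob]

def R_st : Prop :=
  ∀ T M : ℕ, 0 < M → ∃ N₀ : ℕ, ∀ (G : Type) [AddCommGroup G] [Fintype G] [DecidableEq G],
    N₀ ≤ Fintype.card G → Rem G T (Fintype.card G / M)

/-- The structured branch of the robust Kneser step. -/
def STR_st : Prop :=
  ∀ (G : Type) [AddCommGroup G] [Fintype G] [DecidableEq G] (A S' A' Z : Finset G)
    (H : AddSubgroup G) (T e g j i : ℕ), S' ⊆ pop A T j → A' ⊆ A → (pop A T j \ S').card ≤ e →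
    (A \ A').card ≤ e → Z.card ≤ e → S' + A' ⊆ pop A T (j + 1) ∪ Z → H ≤ stab (S' + A') →
    e + T ≤ g → (j + 1) * T * Fintype.card G + e * g < g * g → j + 2 ≤ i →
    (i + 1) • rob A H g ⊆ pop A T i

def RK_st : Prop :=
  ∀ (G : Type) [AddCommGroup G] [Fintype G] [DecidableEq G] (K : AddSubgroup G) (A : Finset G)
    (a y : G) (T e g h J i : ℕ), Rem G T e → A ⊆ cos K a → 1 ≤ J → J ≤ i → 0 < T →
    T ≤ A.card → J * (h + 3 * e) + (fs K).card + T ≤ (J + 1) * A.card → e + T ≤ g →
    J * T * Fintype.card G + e * g < g * g → y - (i + 1) • a ∈ K → y ∉ pop A T i →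
    ∃ H ≤ K, h ≤ (fs H).card ∧ y ∉ (i + 1) • rob A H g

def REP_st : Prop :=
  ∀ (G : Type) [AddCommGroup G] [Fintype G] [DecidableEq G] (A : Finset G) (T D j f : ℕ) (y : G),
    (∀ z : G, (univ.filter fun a : G => a + a = z).card ≤ D) → 2 * (f + j) + D < T →
    y ∈ pop A T (j + 1) → ∀ F : Finset G, F.card ≤ f →
      ∃ U ⊆ A, Disjoint U F ∧ U.card = j + 2 ∧ ∑ x ∈ U, x = y

def DAV_st : Prop :=
  ∀ (G : Type) [AddCommGroup G] [Fintype G] [DecidableEq G] (K : AddSubgroup G) (E : Finset G)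
    (a : G), ∃ F ⊆ E, F.card < K.index ∧ ∑ x ∈ E \ F, x - (E \ F).card • a ∈ K

def TOR_st : Prop :=
  ∀ (G : Type) [AddCommGroup G] [Fintype G] [DecidableEq G] (m : ℕ),
    Fintype.card G = m * AddMonoid.exponent G →
    ∀ z : G, (univ.filter fun a : G => a + a = z).card ≤ 2 * m

def ROB_st : Prop :=
  ∀ (G : Type) [AddCommGroup G] [Fintype G] [DecidableEq G] (A : Finset G) (H : AddSubgroup G)
    (g : ℕ), H ≤ stab (rob A H g) ∧ (A \ rob A H g).card * (fs H).card ≤ g * Fintype.card G

def COV_st : Prop :=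
  ∀ (G : Type) [AddCommGroup G] [Fintype G] [DecidableEq G] (B : Finset G) (m j : ℕ),
    Fintype.card G < m * B.card → AddSubgroup.closure ((B : Set G) - (B : Set G)) = ⊤ → 1 ≤ j →
    j • B ≠ univ → ∃ s : ℕ, 2 ≤ s ∧ j * (s - 1) + 2 ≤ (stab (j • B)).index ∧
      (stab (j • B)).index < m * s

def BOR_st : Prop :=
  ∀ (G : Type) [AddCommGroup G] [Fintype G] [DecidableEq G] (A B : Finset G) (L : AddSubgroup G)
    (m n t l D : ℕ), Fintype.card G = m * n → m + 1 ≤ t → 2 ≤ t → 0 < n → L ≤ stab B →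
    B.card = n → A.card = n + t → (A \ B).card ≤ l →
    (∀ z : G, (univ.filter fun a : G => a + a = z).card ≤ D) →
    2 * l + 4 * t + D < (fs L).card →
    (∃ U ⊆ A, U.card = t ∧ ∑ x ∈ U, x = ∑ x ∈ A, x) ∨
      ∃ B' : Finset G, B ⊆ B' ∧ L ≤ stab B' ∧ n < B'.card ∧ t • B' ≠ univ

def LOW_st : Prop :=
  ∀ (G : Type) [AddCommGroup G] [Fintype G] [DecidableEq G] (B : Finset G) (H : AddSubgroup G)
    (m n t : ℕ), 2 ≤ m → Fintype.card G = m * n → 4 * m ^ 2 ≤ (fs H).card → H ≤ stab B →
    n < B.card → AddSubgroup.closure ((B : Set G) - (B : Set G)) = ⊤ → 1 ≤ t → t • B ≠ univ →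
    ∃ A : Finset G, WeaklyZeroSumFree n A ∧ A.card = n + t

def CYC_st : Prop :=
  ∀ (G : Type) [AddCommGroup G] [Fintype G] [DecidableEq G] (m d : ℕ), 2 ≤ m →
    Fintype.card G = m * AddMonoid.exponent G → d ∣ AddMonoid.exponent G → m < d →
    4 * m * d ≤ AddMonoid.exponent G →
    ∃ (H : AddSubgroup G) (B : Finset G), 4 * m ^ 2 ≤ (fs H).card ∧ H ≤ stab B ∧
      AddMonoid.exponent G < B.card ∧ AddSubgroup.closure ((B : Set G) - (B : Set G)) = ⊤ ∧
      ((d - 2) / (d / m)) • B ≠ univ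

def PRED_st : Prop :=
  ∀ (G : Type) [AddCommGroup G] [Fintype G] [DecidableEq G] (m : ℕ), 2 ≤ m →
    Fintype.card G = m * AddMonoid.exponent G → 2 * m ^ 3 ≤ AddMonoid.exponent G →
    AddMonoid.exponent G + (m - 1) ≤ tauHat G (AddMonoid.exponent G)

/-- The combinatorial core of the upper bound, with explicit scales. -/
def CORE_st : Prop :=
  ∀ (G : Type) [AddCommGroup G] [Fintype G] [DecidableEq G] (A : Finset G)
    (m n t T e g h l : ℕ), 2 ≤ m → Fintype.card G = m * n → (∀ x : G, n • x = 0) →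
    (∀ z : G, (univ.filter fun a : G => a + a = z).card ≤ 2 * m) → m + 1 ≤ t → t ≤ 2 * m →
    A.card = n + t → Rem G T e → 6 * m < T → e + T ≤ g →
    m * T * Fintype.card G + e * g < g * g → g * Fintype.card G ≤ l * h →
    m * (m + 1) * l + 2 * l + 10 * m + 4 * m ^ 2 < h →
    m * (h + 3 * e) + T + (m + 1) * (m + 1) * l < n →
    (∃ U ⊆ A, U.card = t ∧ ∑ x ∈ U, x = ∑ x ∈ A, x) ∨
      ∃ (H : AddSubgroup G) (B : Finset G), 4 * m ^ 2 ≤ (fs H).card ∧ H ≤ stab B ∧
        n < B.card ∧ AddSubgroup.closure ((B : Set G) - (B : Set G)) = ⊤ ∧ t • B ≠ univ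

end Pool.Agent.MP_f9a021_co.BD

end

section
open Finset Pointwise

namespace Pool.Agent.MP_f9a021_co.BD

open SimpleGraph TripartiteFromTriangles

section
variable {G : Type} [AddCommGroup G] [Fintype G] [DecidableEq G]

/-- triangles attached to a set of pairs -/
def tri_Rem (P : Finset (G × G)) : Finset (G × G × G) :=
  univ.filter fun u => (u.2.1 - u.1, u.2.2 - u.2.1) ∈ P

/-- pairs with distinct first entries, second entries and sums -/
def Mt_Rem (P : Finset (G × G)) : Prop :=
  ∀ p ∈ P, ∀ q ∈ P, (p.1 = q.1 ∨ p.2 = q.2 ∨ p.1 + p.2 = q.1 + q.2) → p = q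

theorem mem_Rem {P : Finset (G × G)} {a b c : G} : (a, b, c) ∈ tri_Rem P ↔ (b - a, c - b) ∈ P := by
  simp [tri_Rem]

theorem card_Rem (P : Finset (G × G)) : (tri_Rem P).card = Fintype.card G * P.card := by
  rw [← card_univ, ← card_product]
  refine card_nbij' (fun u => (u.1, u.2.1 - u.1, u.2.2 - u.2.1))
    (fun u => (u.1, u.1 + u.2.1, u.1 + u.2.1 + u.2.2)) ?_ ?_ ?_ ?_
  · rintro ⟨a, b, c⟩ h
    simpa using mem_Rem.1 h
  · rintro ⟨a, b, c⟩ h
    exact mem_Rem.2 (by simpa using h)
  · rintro ⟨a, b, c⟩ -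
    simp
  · rintro ⟨a, b, c⟩ -
    simp

theorem disj_Rem {P : Finset (G × G)} (h : Mt_Rem P) : ExplicitDisjoint (tri_Rem P) := by
  constructor
  · intro a b c a' h1 h2
    have := h _ (mem_Rem.1 h1) _ (mem_Rem.1 h2) (.inr (.inl rfl))
    simpa using this
  · intro a b c b' h1 h2
    have := h _ (mem_Rem.1 h1) _ (mem_Rem.1 h2) (.inr (.inr (by simp)))
    exact sub_left_injective (Prod.mk.inj this).1
  · intro a b c c' h1 h2
    have := h _ (mem_Rem.1 h1) _ (mem_Rem.1 h2) (.inl rfl)
    simpa using this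

theorem count_Rem {A B C : Finset G} {P : Finset (G × G)} (h : Mt_Rem P)
    (hP : P ⊆ (A ×ˢ B).filter fun p => p.1 + p.2 ∈ C) {ε : ℝ}
    (hε : 9 * ε * Fintype.card G ≤ P.card) :
    triangleRemovalBound ε * (3 * Fintype.card G) ^ 3 ≤
      Fintype.card G * ((A ×ˢ B).filter fun p => p.1 + p.2 ∈ C).card := by
  classical
  haveI := disj_Rem h
  have h1 : (graph (tri_Rem P)).FarFromTriangleFree ε := by
    refine farFromTriangleFree _ ?_
    rw [card_Rem]
    push_cast
    nlinarith [mul_le_mul_of_nonneg_left hε (Nat.cast_nonneg (α := ℝ) (Fintype.card G))]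
  have h2 := h1.le_card_cliqueFinset
  have h3 : (graph (tri_Rem P)).cliqueFinset 3 ⊆
      (tri_Rem ((A ×ˢ B).filter fun p => p.1 + p.2 ∈ C)).map toTriangle := by
    intro s hs
    obtain ⟨x, y, z, hxy, hxz, hyz, rfl⟩ := SimpleGraph.is3Clique_iff.1 (mem_cliqueFinset_iff.1 hs)
    obtain ⟨a, b, c, habc, hab, hac, hbc⟩ := graph_triple hxy hxz hyz
    obtain ⟨c', hc'⟩ := Graph.in₀₁_iff.1 hab
    obtain ⟨b', hb'⟩ := Graph.in₀₂_iff.1 hac
    obtain ⟨a', ha'⟩ := Graph.in₁₂_iff.1 hbc
    have e1 := mem_filter.1 (hP (mem_Rem.1 hc'))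
    have e2 := mem_filter.1 (hP (mem_Rem.1 hb'))
    have e3 := mem_filter.1 (hP (mem_Rem.1 ha'))
    refine mem_map.2 ⟨(a, b, c), mem_Rem.2 (mem_filter.2 ⟨mem_product.2
      ⟨(mem_product.1 e1.1).1, (mem_product.1 e3.1).2⟩, ?_⟩), habc⟩
    simpa using e2.2
  have h4 := card_le_card h3
  rw [card_map, card_Rem] at h4
  have h5 : (Fintype.card (G ⊕ G ⊕ G) : ℝ) = 3 * Fintype.card G := by
    simp only [Fintype.card_sum]
    push_cast
    ring
  rw [h5] at h2
  exact h2.trans (by exact_mod_cast h4)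

theorem diff_Rem {P : Finset (G × G)} (f : G × G → G) (A : Finset G) :
    (A \ (A \ P.image f)).card ≤ P.card :=
  (card_le_card (by rw [sdiff_sdiff_self_left]; exact inter_subset_right)).trans card_image_le

end

theorem R_pf : R_st := by
  classical
  intro T M hM
  have M0 : (0 : ℝ) < M := by exact_mod_cast hM
  have b0 := triangleRemovalBound_pos (ε := 1 / (9 * M)) (by positivity)
  obtain ⟨N₀, hN⟩ := exists_nat_gt (T / (27 * triangleRemovalBound (1 / (9 * M))) : ℝ)
  refine ⟨N₀, fun G _ _ _ hG A B C hs => ?_⟩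
  obtain ⟨P, hP, hm⟩ := exists_max_image
    ((((A ×ˢ B).filter fun p => p.1 + p.2 ∈ C).powerset).filter Mt_Rem) card
    ⟨∅, by simp [Mt_Rem]⟩
  obtain ⟨h1, h2⟩ := mem_filter.1 hP
  rw [mem_powerset] at h1
  by_cases c : P.card ≤ Fintype.card G / M
  · refine ⟨A \ P.image Prod.fst, sdiff_subset, B \ P.image Prod.snd, sdiff_subset,
      C \ P.image (fun p => p.1 + p.2), sdiff_subset, (diff_Rem _ _).trans c,
      (diff_Rem _ _).trans c, (diff_Rem _ _).trans c, fun a ha b hb hc => ?_⟩
    simp only [mem_sdiff, mem_image, not_exists, not_and] at ha hb hc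
    have n : (a, b) ∉ P := fun h => ha.2 _ h rfl
    have k : ∀ q ∈ P, ¬ (q.1 = a ∨ q.2 = b ∨ q.1 + q.2 = a + b) := fun q hq => by
      rintro (e | e | e)
      exacts [ha.2 q hq e, hb.2 q hq e, hc.2 q hq e]
    have := hm (insert (a, b) P) (mem_filter.2 ⟨mem_powerset.2 (insert_subset
      (mem_filter.2 ⟨mem_product.2 ⟨ha.1, hb.1⟩, hc.1⟩) h1), fun p hp q hq e => ?_⟩)
    · rw [card_insert_of_notMem n] at this
      omega
    · rcases mem_insert.1 hp with rfl | hp <;> rcases mem_insert.1 hq with rfl | hq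
      · rfl
      · exact (k q hq (e.imp Eq.symm (Or.imp Eq.symm Eq.symm))).elim
      · exact (k p hp e).elim
      · exact h2 p hp q hq e
  · exfalso
    have c1 : Fintype.card G < P.card * M := (Nat.div_lt_iff_lt_mul hM).1 (not_le.1 c)
    have c2 : (Fintype.card G : ℝ) ≤ P.card * M := by exact_mod_cast c1.le
    have h3 := count_Rem (ε := 1 / (9 * M)) h2 h1 (by
      rw [show 9 * (1 / (9 * (M : ℝ))) * Fintype.card G = Fintype.card G / M by field_simp,
        div_le_iff₀ M0]
      exact c2)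
    have N0 : (0 : ℝ) < Fintype.card G := by exact_mod_cast Fintype.card_pos
    have h4 : (((A ×ˢ B).filter fun p => p.1 + p.2 ∈ C).card : ℝ) ≤ T * Fintype.card G := by
      exact_mod_cast hs
    have h5 : (N₀ : ℝ) ≤ Fintype.card G := by exact_mod_cast hG
    have h6 := (div_lt_iff₀ (by positivity)).1 (hN.trans_le h5)
    have h7 := h3.trans (mul_le_mul_of_nonneg_left h4 N0.le)
    nlinarith [mul_lt_mul_of_pos_right h6 (pow_pos N0 2)]

end Pool.Agent.MP_f9a021_co.BD

end

section
/-! The structured branch of the robust Kneser step. -/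

open Finset Pointwise

namespace Pool.Agent.MP_f9a021_co.BD

variable {G : Type} [AddCommGroup G] [Fintype G] [DecidableEq G]

omit [DecidableEq G] in
lemma cos_eq_Str {H : AddSubgroup G} {x y : G} (h : x - y ∈ H) : cos H x = cos H y := by
  ext z
  rw [mem_cos, mem_cos]
  constructor
  · intro hz
    have := H.add_mem hz h
    rwa [sub_add_sub_cancel] at this
  · intro hz
    have := H.sub_mem hz h
    rwa [sub_sub_sub_cancel_right] at this

lemma rob_per_Str {A : Finset G} {H : AddSubgroup G} {g : ℕ} {x y : G} (hy : y ∈ rob A H g)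
    (h : x - y ∈ H) : x ∈ rob A H g := by
  rw [mem_rob] at hy ⊢
  rwa [cos_eq_Str h]

lemma nsmul_per_Str {A : Finset G} {H : AddSubgroup G} {g k : ℕ} {x y : G}
    (hy : y ∈ (k + 1) • rob A H g) (h : x - y ∈ H) : x ∈ (k + 1) • rob A H g := by
  rw [succ_nsmul] at hy ⊢
  obtain ⟨z, hz, b, hb, rfl⟩ := Finset.mem_add.1 hy
  refine Finset.mem_add.2 ⟨z, hz, x - z, rob_per_Str hb ?_, by abel⟩
  rwa [sub_sub]

lemma count_Str (A : Finset G) (H : AddSubgroup G) (T k : ℕ) (z b : G) :
    (pop A T k ∩ cos H z).card * (A ∩ cos H b).card ≤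
      T * Fintype.card G + (pop A T (k + 1) ∩ cos H (z + b)).card * (A ∩ cos H b).card := by
  set P := pop A T k ∩ cos H z with hP
  set Q := A ∩ cos H b with hQ
  set W := pop A T (k + 1) ∩ cos H (z + b) with hW
  have h1 : (P ×ˢ Q).card =
      ∑ y : G, ((P ×ˢ Q).filter fun p : G × G => p.1 + p.2 = y).card :=
    Finset.card_eq_sum_card_fiberwise (f := fun p : G × G => p.1 + p.2)
      (fun _ _ => Finset.mem_coe.2 (Finset.mem_univ _))
  have hinj : ∀ y : G, Set.InjOn (fun p : G × G => p.2)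
      ↑((P ×ˢ Q).filter fun p : G × G => p.1 + p.2 = y) := by
    intro y p hp p' hp' hpp
    have e1 := (Finset.mem_filter.1 (Finset.mem_coe.1 hp)).2
    have e2 := (Finset.mem_filter.1 (Finset.mem_coe.1 hp')).2
    have e3 : p.2 = p'.2 := hpp
    refine Prod.ext ?_ e3
    rw [← e2, e3] at e1
    exact add_right_cancel e1
  have h2 : ∀ y : G, ((P ×ˢ Q).filter fun p : G × G => p.1 + p.2 = y).card ≤
      T + if y ∈ W then Q.card else 0 := by
    intro y
    by_cases hy : y ∈ W
    · rw [if_pos hy]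
      refine le_trans ?_ (Nat.le_add_left _ _)
      refine Finset.card_le_card_of_injOn (fun p : G × G => p.2) ?_ (hinj y)
      intro p hp
      exact Finset.mem_coe.2
        (Finset.mem_product.1 (Finset.mem_filter.1 (Finset.mem_coe.1 hp)).1).2
    · rw [if_neg hy, add_zero]
      rcases Finset.eq_empty_or_nonempty
        ((P ×ˢ Q).filter fun p : G × G => p.1 + p.2 = y) with he | ⟨p₀, hp₀⟩
      · rw [he]; simp
      · obtain ⟨hp₁, hp₂⟩ := Finset.mem_filter.1 hp₀
        obtain ⟨hp₃, hp₄⟩ := Finset.mem_product.1 hp₁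
        have hc : y ∈ cos H (z + b) := by
          rw [mem_cos, ← hp₂, add_sub_add_comm]
          exact H.add_mem (mem_cos.1 (Finset.mem_inter.1 hp₃).2)
            (mem_cos.1 (Finset.mem_inter.1 hp₄).2)
        have hn : y ∉ pop A T (k + 1) := fun h => hy (Finset.mem_inter.2 ⟨h, hc⟩)
        rw [mem_pop_succ, not_le] at hn
        refine le_trans ?_ hn.le
        refine Finset.card_le_card_of_injOn (fun p : G × G => p.2) ?_ (hinj y)
        intro p hp
        obtain ⟨hq₁, hq₂⟩ := Finset.mem_filter.1 (Finset.mem_coe.1 hp)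
        obtain ⟨hq₃, hq₄⟩ := Finset.mem_product.1 hq₁
        refine Finset.mem_coe.2 (Finset.mem_filter.2 ⟨(Finset.mem_inter.1 hq₄).1, ?_⟩)
        rw [← hq₂, add_sub_cancel_right]
        exact (Finset.mem_inter.1 hq₃).1
  rw [← Finset.card_product, h1]
  refine le_trans (Finset.sum_le_sum fun y _ => h2 y) (le_of_eq ?_)
  rw [Finset.sum_add_distrib, Finset.sum_const, Finset.card_univ, smul_eq_mul, mul_comm,
    Finset.sum_ite_mem, Finset.univ_inter, Finset.sum_const, smul_eq_mul]

lemma dens_Str (A : Finset G) (H : AddSubgroup G) (T g : ℕ) : ∀ (k : ℕ) (z : G),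
    z ∈ (k + 1) • rob A H g →
      g * g ≤ (pop A T k ∩ cos H z).card * g + k * T * Fintype.card G := by
  intro k
  induction k with
  | zero =>
    intro z hz
    rw [zero_add, one_nsmul, mem_rob] at hz
    rw [pop_zero]
    simpa using Nat.mul_le_mul_right g hz
  | succ k ih =>
    intro y hy
    rw [succ_nsmul] at hy
    obtain ⟨z, hz, b, hb, rfl⟩ := Finset.mem_add.1 hy
    have h1 := ih z hz
    have h2 := count_Str A H T k z b
    rw [mem_rob] at hb
    generalize (pop A T k ∩ cos H z).card = u at h1 h2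
    generalize (pop A T (k + 1) ∩ cos H (z + b)).card = w at h2 ⊢
    generalize (A ∩ cos H b).card = v at hb h2
    have e1 : (k + 1) * T * Fintype.card G = k * T * Fintype.card G + T * Fintype.card G := by
      ring
    rw [e1]
    rcases le_total u w with huw | huw
    · have := Nat.mul_le_mul_right g huw
      omega
    · obtain ⟨c, rfl⟩ := Nat.exists_eq_add_of_le huw
      have h3 := Nat.mul_le_mul_left c hb
      rw [add_mul] at h1 h2
      omega

omit [AddCommGroup G] [Fintype G] in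
lemma meet_Str {X X' C : Finset G} {e : ℕ} (h1 : (X \ X').card ≤ e) (h2 : e < (X ∩ C).card) :
    ∃ x ∈ X', x ∈ C := by
  by_contra hn
  have : X ∩ C ⊆ X \ X' := by
    intro x hx
    obtain ⟨hx1, hx2⟩ := Finset.mem_inter.1 hx
    exact Finset.mem_sdiff.2 ⟨hx1, fun h => hn ⟨x, h, hx2⟩⟩
  have := Finset.card_le_card this
  omega

lemma up_Str {A Z : Finset G} {H : AddSubgroup G} {T e g m : ℕ} (hZ : Z.card ≤ e)
    (hg : e + T ≤ g) (h : (m + 1) • rob A H g ⊆ pop A T m ∪ Z) :
    (m + 1 + 1) • rob A H g ⊆ pop A T (m + 1) := by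
  intro y hy
  rw [succ_nsmul] at hy
  obtain ⟨z, hz, b, hb, rfl⟩ := Finset.mem_add.1 hy
  rw [mem_rob] at hb
  rw [mem_pop_succ]
  have h1 : A ∩ cos H b ⊆ (A.filter fun a => z + b - a ∈ pop A T m) ∪
      Z.image fun x => z + b - x := by
    intro a ha
    obtain ⟨ha1, ha2⟩ := Finset.mem_inter.1 ha
    have h2 : z + b - a ∈ (m + 1) • rob A H g := by
      refine nsmul_per_Str hz ?_
      have e1 : z + b - a - z = -(a - b) := by abel
      rw [e1]
      exact H.neg_mem (mem_cos.1 ha2)
    rcases Finset.mem_union.1 (h h2) with h3 | h3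
    · exact Finset.mem_union_left _ (Finset.mem_filter.2 ⟨ha1, h3⟩)
    · exact Finset.mem_union_right _ (Finset.mem_image.2 ⟨_, h3, by abel⟩)
  have h2 := (Finset.card_le_card h1).trans (Finset.card_union_le _ _)
  have h3 : (Z.image fun x => z + b - x).card ≤ Z.card := Finset.card_image_le
  omega

theorem STR_pf : STR_st := by
  intro G _ _ _ A S' A' Z H T e g j i _ _ hS hA hZ hD hH hg hgg hi
  have heg : e < g := by
    have : e * g < g * g := by omega
    exact Nat.lt_of_mul_lt_mul_right this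
  have h0 : (j + 1 + 1) • rob A H g ⊆ pop A T (j + 1) ∪ Z := by
    intro y hy
    rw [succ_nsmul] at hy
    obtain ⟨z, hz, b, hb, rfl⟩ := Finset.mem_add.1 hy
    have h1 := dens_Str A H T g j z hz
    have e1 : (j + 1) * T * Fintype.card G = j * T * Fintype.card G + T * Fintype.card G := by
      ring
    have h2 : e * g < (pop A T j ∩ cos H z).card * g := by omega
    obtain ⟨s, hs, hs'⟩ := meet_Str hS (Nat.lt_of_mul_lt_mul_right h2)
    obtain ⟨a, ha, ha'⟩ := meet_Str hA (lt_of_lt_of_le heg (mem_rob.1 hb))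
    refine hD (mem_of_sub_mem hH (Finset.add_mem_add hs ha) ?_)
    have e2 : z + b - (s + a) = -(s - z) + -(a - b) := by abel
    rw [e2]
    exact H.add_mem (H.neg_mem (mem_cos.1 hs')) (H.neg_mem (mem_cos.1 ha'))
  induction i, hi using Nat.le_induction with
  | base => exact up_Str hZ hg h0
  | succ i _ ih => exact up_Str hZ hg (ih.trans Finset.subset_union_left)

end Pool.Agent.MP_f9a021_co.BD

end

section
/-! The robust Kneser step. -/

open Finset Pointwise

namespace Pool.Agent.MP_f9a021_co.BD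

section

variable {G : Type} [AddCommGroup G] [Fintype G] [DecidableEq G] {K : AddSubgroup G}
  {A : Finset G} {a : G} {T : ℕ}

lemma sub_RK (hA : A ⊆ cos K a) (hT : 0 < T) (j : ℕ) : pop A T j ⊆ cos K ((j + 1) • a) := by
  induction j with
  | zero => simpa using hA
  | succ j ih =>
    intro y hy
    obtain ⟨b, hb⟩ := card_pos.1 (hT.trans_le (mem_pop_succ.1 hy))
    obtain ⟨h1, h2⟩ := mem_filter.1 hb
    have h3 := K.add_mem (mem_cos.1 (ih h2)) (mem_cos.1 (hA h1))
    have e : y - (j + 1 + 1) • a = y - b - (j + 1) • a + (b - a) := by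
      rw [succ_nsmul a (j + 1)]
      abel
    rw [mem_cos, e]
    exact h3

lemma count_RK (j : ℕ) :
    ((pop A T j ×ˢ A).filter fun p => p.1 + p.2 ∈ univ \ pop A T (j + 1)).card ≤
      T * Fintype.card G := by
  refine (card_le_mul_card_image_of_maps_to (f := fun p : G × G => p.1 + p.2)
    (t := univ \ pop A T (j + 1)) (fun p hp => (mem_filter.1 hp).2) T fun c hc => ?_).trans
    (Nat.mul_le_mul_left T (card_le_univ _))
  have h1 : (A.filter fun b => c - b ∈ pop A T j).card < T :=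
    not_le.1 fun h => (mem_sdiff.1 hc).2 (mem_pop_succ.2 h)
  refine le_trans (card_le_card_of_injOn Prod.snd (fun p hp => ?_) fun p hp q hq e => ?_) h1.le
  · obtain ⟨h2, h3⟩ := mem_filter.1 (mem_coe.1 hp)
    obtain ⟨h4, h5⟩ := mem_product.1 (mem_filter.1 h2).1
    refine mem_coe.2 (mem_filter.2 ⟨h5, ?_⟩)
    rw [← h3, add_sub_cancel_right]
    exact h4
  · have h2 := (mem_filter.1 (mem_coe.1 hp)).2
    have h3 := (mem_filter.1 (mem_coe.1 hq)).2
    refine Prod.ext ?_ e
    rw [← h3, e] at h2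
    exact add_right_cancel h2

lemma full_RK (hA : A ⊆ cos K a) (hT : 0 < T) {j : ℕ}
    (h : (fs K).card + T ≤ (pop A T j).card + A.card) :
    cos K ((j + 1 + 1) • a) ⊆ pop A T (j + 1) := by
  intro z hz
  have h1 : (pop A T j).image (fun s => z - s) ⊆ cos K a := by
    intro x hx
    obtain ⟨s, hs, rfl⟩ := mem_image.1 hx
    have h3 := K.sub_mem (mem_cos.1 hz) (mem_cos.1 (sub_RK hA hT j hs))
    have e : z - s - a = z - (j + 1 + 1) • a - (s - (j + 1) • a) := by
      rw [succ_nsmul a (j + 1)]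
      abel
    rw [mem_cos, e]
    exact h3
  have h2 := card_union_add_card_inter A ((pop A T j).image fun s => z - s)
  have h3 := card_le_card (union_subset hA h1)
  rw [card_cos] at h3
  rw [card_image_of_injective _ sub_right_injective] at h2
  refine mem_pop_succ.2 (le_trans (by omega : T ≤ (A ∩ (pop A T j).image fun s => z - s).card)
    (card_le_card fun x hx => ?_))
  obtain ⟨h4, h5⟩ := mem_inter.1 hx
  obtain ⟨s, hs, rfl⟩ := mem_image.1 h5
  exact mem_filter.2 ⟨h4, by rwa [sub_sub_cancel]⟩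

lemma up_RK (hA : A ⊆ cos K a) (hT : T ≤ A.card) {j i : ℕ} (hi : j ≤ i)
    (h : cos K ((j + 1) • a) ⊆ pop A T j) : cos K ((i + 1) • a) ⊆ pop A T i := by
  induction i, hi using Nat.le_induction with
  | base => exact h
  | succ i _ ih =>
    intro z hz
    refine mem_pop_succ.2 (hT.trans (card_le_card fun b hb => mem_filter.2 ⟨hb, ih ?_⟩))
    have h3 := K.sub_mem (mem_cos.1 hz) (mem_cos.1 (hA hb))
    have e : z - b - (i + 1) • a = z - (i + 1 + 1) • a - (b - a) := by
      rw [succ_nsmul a (i + 1)]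
      abel
    rw [mem_cos, e]
    exact h3

lemma step_RK (hS : STR_st) (hA : A ⊆ cos K a) (hT : 0 < T) {e g h j i : ℕ} (hR : Rem G T e)
    (h1 : e < A.card) (h2 : e < (pop A T j).card) (hg : e + T ≤ g)
    (hg' : (j + 1) * T * Fintype.card G + e * g < g * g) (hi : j + 2 ≤ i) :
    (∃ H ≤ K, h ≤ (fs H).card ∧ (i + 1) • rob A H g ⊆ pop A T i) ∨
      (pop A T j).card + A.card ≤ (pop A T (j + 1)).card + (h + 3 * e) := by
  obtain ⟨S', s1, A', a1, C', c1, s2, a2, c2, hn⟩ := hR _ _ _ (count_RK (A := A) (T := T) j)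
  have s3 := card_sdiff_add_card_eq_card s1
  have a3 := card_sdiff_add_card_eq_card a1
  have s4 : S'.Nonempty := card_pos.1 (by omega)
  have a4 : A'.Nonempty := card_pos.1 (by omega)
  have hsub : S' + A' ⊆ pop A T (j + 1) ∪ ((univ \ pop A T (j + 1)) \ C') := by
    intro z hz
    obtain ⟨s, hs, b, hb, rfl⟩ := mem_add.1 hz
    by_cases c : s + b ∈ pop A T (j + 1)
    · exact mem_union_left _ c
    · exact mem_union_right _ (mem_sdiff.2 ⟨mem_sdiff.2 ⟨mem_univ _, c⟩, hn s hs b hb⟩)
  have hK : ∀ z ∈ S' + A', z - ((j + 1) • a + a) ∈ K := by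
    intro z hz
    obtain ⟨s, hs, b, hb, rfl⟩ := mem_add.1 hz
    rw [add_sub_add_comm]
    exact K.add_mem (mem_cos.1 (sub_RK hA hT j (s1 hs))) (mem_cos.1 (hA (a1 hb)))
  by_cases hh : h ≤ (fs (stab (S' + A'))).card
  · refine Or.inl ⟨stab (S' + A'), fun x hx => ?_, hh,
      hS G A S' A' _ _ T e g j i s1 a1 s2 a2 c2 hsub le_rfl hg hg' hi⟩
    obtain ⟨z, hz⟩ := s4.add a4
    simpa using K.sub_mem (hK _ (hx z hz)) (hK z hz)
  · have k1 := kneser S' A' s4 a4
    have k2 := card_le_add_fs S' (stab (S' + A'))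
    have k3 := card_le_add_fs A' (stab (S' + A'))
    have k4 := (card_le_card hsub).trans (card_union_le _ _)
    unfold Kn at k1
    omega

end

theorem RK_pf (h : STR_st) : RK_st := by
  intro G _ _ _ K A a y T e g n J i hR hA hJ hi hT hTA hc hg hg' hy hn
  by_contra hcon
  have h1 : A.card ≤ (fs K).card := card_cos K a ▸ card_le_card hA
  have h2 : n + 3 * e < A.card := by
    by_contra c
    have := Nat.mul_le_mul_left J (not_lt.1 c)
    nlinarith
  have key : ∀ j, j + 1 ≤ J → (j + 1) * A.card ≤ (pop A T j).card + j * (n + 3 * e) := by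
    intro j
    induction j with
    | zero => simp
    | succ j ih =>
      intro hj
      have ih := ih (by omega)
      have h3 := Nat.mul_le_mul_left j h2.le
      have h4 : (j + 1) * T * Fintype.card G ≤ J * T * Fintype.card G := by gcongr; omega
      rcases step_RK (h := n) (i := i) h hA hT hR (by omega) (j := j) (by nlinarith) hg (by omega)
        (by omega) with ⟨H, a1, a2, a3⟩ | c
      · exact absurd ⟨H, a1, a2, fun c => hn (a3 c)⟩ hcon
      · nlinarith
  obtain ⟨j, rfl⟩ : ∃ j, J = j + 1 := ⟨J - 1, by omega⟩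
  have h3 := key j le_rfl
  exact hn (up_RK hA hTA hi (full_RK hA hT (by nlinarith)) (mem_cos.2 hy))

end Pool.Agent.MP_f9a021_co.BD

end

section
/-! Four small steps. -/

open Finset Pointwise

namespace Pool.Agent.MP_f9a021_co.BD

theorem REP_pf : REP_st := by
  intro G _ _ _ A T D j f y hD
  induction j generalizing f y with
  | zero =>
    intro hT hy F hF
    rw [mem_pop_succ, pop_zero] at hy
    have hc : (F ∪ F.image (fun x => y - x) ∪ univ.filter fun a : G => a + a = y).card <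
        (A.filter fun a => y - a ∈ A).card := by
      have h1 := card_union_le (F ∪ F.image (fun x => y - x)) (univ.filter fun a : G => a + a = y)
      have h2 := card_union_le F (F.image (fun x => y - x))
      have h3 : (F.image (fun x => y - x)).card ≤ F.card := card_image_le
      have h4 := hD y
      omega
    obtain ⟨a, ha, hb⟩ := exists_mem_notMem_of_card_lt_card hc
    rw [mem_filter] at ha
    simp only [mem_union, mem_image, mem_filter, mem_univ, true_and, not_or, not_exists,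
      not_and] at hb
    have hne : a ≠ y - a := fun h => hb.2 (by rw [eq_sub_iff_add_eq] at h; exact h)
    refine ⟨{a, y - a}, ?_, ?_, card_pair hne, by rw [sum_pair hne]; abel⟩
    · intro x hx
      rcases mem_insert.1 hx with rfl | hx
      · exact ha.1
      · rw [mem_singleton.1 hx]; exact ha.2
    · rw [disjoint_left]
      intro x hx hxF
      rcases mem_insert.1 hx with rfl | hx
      · exact hb.1.1 hxF
      · exact hb.1.2 x hxF (by rw [mem_singleton.1 hx]; abel)
  | succ j ih =>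
    intro hT hy F hF
    rw [mem_pop_succ] at hy
    obtain ⟨a, ha, hb⟩ := exists_mem_notMem_of_card_lt_card
      (show F.card < (A.filter fun a => y - a ∈ pop A T (j + 1)).card by omega)
    rw [mem_filter] at ha
    obtain ⟨U, hUA, hUF, hUc, hUs⟩ := ih (f + 1) (y - a) (by omega) ha.2 (insert a F)
      ((card_insert_le _ _).trans (by omega))
    rw [disjoint_insert_right] at hUF
    refine ⟨insert a U, insert_subset ha.1 hUA, disjoint_insert_left.2 ⟨hb, hUF.2⟩, ?_, ?_⟩
    · rw [card_insert_of_notMem hUF.1, hUc]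
    · rw [sum_insert hUF.1, hUs]; abel

lemma sums_Small {α Q : Type} [DecidableEq α] [AddCommGroup Q] [DecidableEq Q] (φ : α → Q)
    (F : Finset α) (h : ∀ U ⊆ F, U.Nonempty → ∑ x ∈ U, φ x ≠ 0) :
    F.card < (F.powerset.image fun U => ∑ x ∈ U, φ x).card := by
  induction F using Finset.induction_on with
  | empty => simp
  | insert x F hx ih =>
    have h1 := ih fun U hU => h U (hU.trans (subset_insert _ _))
    have h2 : ∑ z ∈ insert x F, φ z ∉ F.powerset.image fun U => ∑ x ∈ U, φ x := by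
      intro h2
      obtain ⟨U, hU, hs⟩ := mem_image.1 h2
      rw [mem_powerset] at hU
      have h3 := sum_sdiff (f := φ) (hU.trans (subset_insert x F))
      refine h (insert x F \ U) sdiff_subset
        ⟨x, mem_sdiff.2 ⟨mem_insert_self _ _, fun h4 => hx (hU h4)⟩⟩ ?_
      rw [← hs] at h3
      exact add_eq_right.1 h3
    have h3 : insert (∑ z ∈ insert x F, φ z) (F.powerset.image fun U => ∑ x ∈ U, φ x) ⊆
        (insert x F).powerset.image fun U => ∑ x ∈ U, φ x :=
      insert_subset (mem_image.2 ⟨_, mem_powerset_self _, rfl⟩)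
        (image_subset_image (powerset_mono.2 (subset_insert _ _)))
    have h4 := card_le_card h3
    rw [card_insert_of_notMem h2] at h4
    rw [card_insert_of_notMem hx]
    omega

theorem DAV_pf : DAV_st := by
  intro G _ _ _ K E a
  classical
  obtain ⟨E', hE', hmax⟩ := exists_max_image
    (E.powerset.filter fun U => ∑ x ∈ U, x - U.card • a ∈ K) card
    ⟨∅, by simp⟩
  rw [mem_filter, mem_powerset] at hE'
  refine ⟨E \ E', sdiff_subset, ?_, by rw [Finset.sdiff_sdiff_eq_self hE'.1]; exact hE'.2⟩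
  have h1 := sums_Small (fun x => (QuotientAddGroup.mk' K (x - a) : G ⧸ K)) (E \ E') (by
    intro U hU hne h0
    rw [← map_sum, QuotientAddGroup.mk'_apply, QuotientAddGroup.eq_zero_iff, sum_sub_distrib,
      sum_const] at h0
    have hd : Disjoint E' U := disjoint_of_subset_right hU disjoint_sdiff
    have h2 := hmax (E' ∪ U) (by
      rw [mem_filter, mem_powerset, sum_union hd, card_union_of_disjoint hd, add_nsmul]
      refine ⟨union_subset hE'.1 (hU.trans sdiff_subset), ?_⟩
      have := K.add_mem hE'.2 h0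
      rwa [← add_sub_add_comm] at this)
    rw [card_union_of_disjoint hd] at h2
    have := hne.card_pos
    omega)
  refine h1.trans_le ?_
  rw [AddSubgroup.index_eq_card, Nat.card_eq_fintype_card]
  exact card_le_univ _

theorem TOR_pf : TOR_st := by
  intro G _ _ _ m hm z
  obtain ⟨φ, hφ⟩ : ∃ φ : G →+ G, ∀ x, φ x = x + x :=
    ⟨AddMonoidHom.id G + AddMonoidHom.id G, fun _ => rfl⟩
  have h1 : Nat.card φ.ker * Nat.card φ.range = Fintype.card G := by
    rw [← AddSubgroup.index_ker, AddSubgroup.card_mul_index, Nat.card_eq_fintype_card]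
  have hr : 0 < Nat.card φ.range := Nat.card_pos
  have h2 : AddMonoid.exponent G ∣ Nat.card φ.range * 2 := by
    apply AddMonoid.exponent_dvd_of_forall_nsmul_eq_zero
    intro g
    have h3 := congrArg Subtype.val (card_nsmul_eq_zero' (x := (⟨φ g, g, rfl⟩ : φ.range)))
    rw [mul_nsmul', two_nsmul, ← hφ]
    exact h3
  have h3 := Nat.le_of_dvd (by omega) h2
  have h4 : Nat.card φ.ker ≤ 2 * m := by
    apply Nat.le_of_mul_le_mul_right _ hr
    rw [h1, hm]
    calc m * AddMonoid.exponent G ≤ m * (Nat.card φ.range * 2) := Nat.mul_le_mul_left _ h3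
      _ = _ := by ring
  refine le_trans ?_ h4
  rcases (univ.filter fun a : G => a + a = z).eq_empty_or_nonempty with h | ⟨b, hb⟩
  · rw [h]; simp
  · rw [← card_fs, ← card_cos _ b]
    apply card_le_card
    intro x hx
    rw [mem_filter] at hx hb
    rw [mem_cos, AddMonoidHom.mem_ker, hφ, ← add_sub_add_comm, hx.2, hb.2, sub_self]

theorem ROB_pf : ROB_st := by
  intro G _ _ _ A H g
  classical
  refine ⟨fun h hh x hx => ?_, ?_⟩
  · rw [mem_rob] at hx ⊢
    refine hx.trans (card_le_card (inter_subset_inter_left fun a ha => ?_))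
    rw [mem_cos] at ha ⊢
    have := H.sub_mem ha hh
    rwa [sub_sub, add_comm] at this
  · rw [mul_comm g, ← card_univ]
    refine card_mul_le_card_mul (fun a x => x - a ∈ H) (fun a _ => ?_) (fun x _ => ?_)
    · rw [← card_cos H a]
      apply card_le_card
      intro x hx
      exact (mem_bipartiteAbove _).2 ⟨mem_univ _, mem_cos.1 hx⟩
    · rcases ((A \ rob A H g).bipartiteBelow (fun a x => x - a ∈ H) x).eq_empty_or_nonempty with
        h | ⟨b, hb⟩
      · rw [h]; simp
      · rw [mem_bipartiteBelow, mem_sdiff, mem_rob, not_le] at hb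
        refine le_trans (card_le_card fun a ha => ?_) hb.1.2.le
        rw [mem_bipartiteBelow, mem_sdiff] at ha
        refine mem_inter.2 ⟨ha.1.1, mem_cos.2 ?_⟩
        have := H.sub_mem hb.2 ha.2
        rwa [sub_sub_sub_cancel_left] at this

end Pool.Agent.MP_f9a021_co.BD

end

section
/-! The covering bound and the lower construction. -/

open Finset Pointwise

namespace Pool.Agent.MP_f9a021_co.BD

lemma index_Low {G : Type} [AddCommGroup G] [Fintype G] (L : AddSubgroup G) :
    L.index * (fs L).card = Fintype.card G := by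
  rw [card_fs, AddSubgroup.index_mul_card, Nat.card_eq_fintype_card]

theorem COV_pf : COV_st := by
  intro G _ _ _ B m j hm hcl hj hne
  have hB : B.Nonempty := card_pos.1 (Nat.pos_of_ne_zero fun h => by simp [h] at hm)
  obtain ⟨k, rfl⟩ : ∃ k, j = k + 1 := ⟨j - 1, by omega⟩
  have h1 := kneser_iter B hB k
  have h0 : stab ((k + 1) • B) ≠ ⊤ := fun h => hne (eq_univ_of_stab hB.nsmul h)
  obtain ⟨c, hc⟩ := card_dvd ((k + 1) • B) le_rfl
  have h2 := (card_lt_iff_ne_univ _).2 hne
  generalize stab ((k + 1) • B) = L at *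
  obtain ⟨s, hs⟩ := card_dvd _ (le_stab_add_fs B L)
  have h3 := index_Low L
  have h4 := fs_pos L
  have h5 := card_le_add_fs B L
  have h6 : 2 ≤ s := by
    by_contra h
    obtain ⟨b, hb⟩ := hB
    have e : cos L b = B + fs L := eq_of_subset_of_card_le
      (cos_subset (le_stab_add_fs B L) (subset_add_fs B L hb)) (by
        rw [card_cos, hs]
        exact mul_le_of_le_one_right' (by omega))
    refine h0 (top_unique (hcl ▸ (AddSubgroup.closure_le L).2 ?_))
    rintro _ ⟨x, hx, y, hy, rfl⟩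
    have := L.sub_mem (mem_cos.1 (e ▸ subset_add_fs B L hx)) (mem_cos.1 (e ▸ subset_add_fs B L hy))
    simpa using this
  obtain ⟨u, rfl⟩ : ∃ u, s = u + 1 := ⟨s - 1, by omega⟩
  have h7 : (k + 1) * (u + 1) ≤ c + k := Nat.le_of_mul_le_mul_left (by
    rw [hs, hc] at h1
    linarith) h4
  have h8 : c < L.index := Nat.lt_of_mul_lt_mul_left (a := (fs L).card) (by linarith)
  refine ⟨u + 1, h6, by simp only [Nat.add_sub_cancel]; linarith,
    Nat.lt_of_mul_lt_mul_left (a := (fs L).card) ?_⟩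
  have := Nat.mul_le_mul_left m h5
  rw [hs] at this
  linarith

lemma sum_mem_Low {G : Type} [AddCommGroup G] [DecidableEq G] {B : Finset G} (U : Finset G)
    (h : U ⊆ B) : ∑ x ∈ U, x ∈ U.card • B := by
  induction U using Finset.induction_on with
  | empty => simp
  | insert a U ha ih =>
    rw [sum_insert ha, card_insert_of_notMem ha, succ_nsmul, add_comm a]
    exact add_mem_add (ih ((subset_insert _ _).trans h)) (h (mem_insert_self _ _))

lemma rep_Low {G : Type} [AddCommGroup G] [DecidableEq G] {B B₁ : Finset G} {H : AddSubgroup G}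
    {r : ℕ} (h : ∀ b ∈ B, ∀ F : Finset G, F.card < r → ∃ x ∈ B₁, x ∉ F ∧ x - b ∈ H) (j : ℕ)
    (hj : j ≤ r) : ∀ y ∈ j • B, ∃ U ⊆ B₁, U.card = j ∧ ∑ x ∈ U, x - y ∈ H := by
  induction j with
  | zero =>
    intro y hy
    obtain rfl : y = 0 := by simpa using hy
    exact ⟨∅, by simp, rfl, by simp⟩
  | succ j ih =>
    intro y hy
    rw [succ_nsmul] at hy
    obtain ⟨z, hz, b, hb, rfl⟩ := mem_add.1 hy
    obtain ⟨U, u1, u2, u3⟩ := ih (by omega) z hz
    obtain ⟨x, x1, x2, x3⟩ := h b hb U (by omega)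
    refine ⟨insert x U, insert_subset x1 u1, by rw [card_insert_of_notMem x2, u2], ?_⟩
    rw [sum_insert x2, show x + ∑ x ∈ U, x - (z + b) = x - b + (∑ x ∈ U, x - z) by abel]
    exact H.add_mem x3 u3

theorem LOW_pf : LOW_st := by
  intro G _ _ _ B H m n t hm hG hH hHB hn hcl ht hne
  have c0 : Fintype.card G < m * B.card := hG ▸ Nat.mul_lt_mul_of_pos_left hn (by omega)
  have c1 : ∀ j, 1 ≤ j → j • B ≠ univ → j < 2 * m := by
    intro j h1 h2
    obtain ⟨s, s1, s2, s3⟩ := COV_pf G B m j c0 hcl h1 h2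
    obtain ⟨u, rfl⟩ : ∃ u, s = u + 1 := ⟨s - 1, by omega⟩
    rw [Nat.add_sub_cancel] at s2
    have := Nat.mul_le_mul_left m (show 1 ≤ u by omega)
    exact Nat.lt_of_mul_lt_mul_right (a := u) (by linarith)
  have c2 : (2 * m) • B = univ := by
    by_contra h
    exact lt_irrefl _ (c1 _ (by omega) h)
  have c3 := c1 t ht hne
  obtain ⟨s, hs⟩ := card_dvd B hHB
  have c4 := index_Low H
  have c5 : H.index < m * s := Nat.lt_of_mul_lt_mul_left (a := (fs H).card) (by
    rw [hs] at c0
    linarith)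
  have c6 : n + 4 * m ≤ B.card := Nat.le_of_mul_le_mul_left (c := m) (by
    have := Nat.mul_le_mul_left (fs H).card (show H.index + 1 ≤ m * s from c5)
    have e : m * B.card = (fs H).card * (m * s) := by rw [hs]; ring
    linarith) (by omega)
  have c7 : H.index * (4 * m) ≤ n := Nat.le_of_mul_le_mul_left (c := m) (by
    have := Nat.mul_le_mul_left H.index hH
    linarith) (by omega)
  obtain ⟨H₀, h1, h2⟩ := exists_subset_card_eq (s := fs H) (n := 2 * m) (by nlinarith)
  have : Fintype (G ⧸ H) := Fintype.ofFinite _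
  let W := image (fun p : (G ⧸ H) × G => p.1.out + p.2) (univ ×ˢ H₀)
  have c8 : W.card ≤ H.index * (2 * m) := by
    refine card_image_le.trans ?_
    rw [card_product, h2, card_univ, AddSubgroup.index_eq_card, Nat.card_eq_fintype_card]
  obtain ⟨B₁, b1, b2, b3⟩ := exists_subsuperset_card_eq (n := n + t + 2 * m)
    (inter_subset_left : B ∩ W ⊆ B)
    ((card_le_card inter_subset_right).trans (by linarith)) (by omega)
  have c9 : ∀ b ∈ B, ∀ F : Finset G, F.card < 2 * m → ∃ x ∈ B₁, x ∉ F ∧ x - b ∈ H := by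
    intro b hb F hF
    obtain ⟨x, x1, x2⟩ := exists_mem_notMem_of_card_lt_card (s := F)
      (t := image (fun z => (b : G ⧸ H).out + z) H₀)
      (by rwa [card_image_of_injective _ (add_right_injective _), h2])
    obtain ⟨z, hz, rfl⟩ := mem_image.1 x1
    obtain ⟨w, hw⟩ := QuotientAddGroup.mk_out_eq_add H b
    have e : (b : G ⧸ H).out + z - b ∈ H := by
      rw [hw, show b + w + z - b = w + z by abel]
      exact H.add_mem w.2 (mem_fs.1 (h1 hz))
    exact ⟨_, b1 (mem_inter.2 ⟨mem_of_sub_mem hHB hb e,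
      mem_image.2 ⟨(b, z), mem_product.2 ⟨mem_univ _, hz⟩, rfl⟩⟩), x2, e⟩
  obtain ⟨z, hz⟩ : ∃ z, z ∉ t • B := by
    by_contra h
    exact hne (eq_univ_iff_forall.2 (by simpa using h))
  obtain ⟨U, u1, u2, u3⟩ := rep_Low c9 _ le_rfl (∑ x ∈ B₁, x - z) (c2 ▸ mem_univ _)
  have a1 : (B₁ \ U).card = n + t := by
    rw [card_sdiff_of_subset u1]
    omega
  refine ⟨B₁ \ U, fun V v1 v2 v3 => hz ?_, a1⟩
  have a2 : ((B₁ \ U) \ V).card = t := by
    rw [card_sdiff_of_subset v1]
    omega
  have a3 := sum_mem_Low ((B₁ \ U) \ V) (sdiff_subset.trans (sdiff_subset.trans b2))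
  rw [a2, sum_sdiff_eq_sub v1, v3, sum_sdiff_eq_sub u1] at a3
  obtain ⟨k, rfl⟩ : ∃ k, t = k + 1 := ⟨t - 1, by omega⟩
  refine mem_of_sub_mem (K := H) (by rw [succ_nsmul]; exact hHB.trans (stab_le_add' _ _)) a3 ?_
  rwa [show z - (∑ x ∈ B₁, x - ∑ x ∈ U, x - 0) = ∑ x ∈ U, x - (∑ x ∈ B₁, x - z) by abel]

end Pool.Agent.MP_f9a021_co.BD

end

section
/-! The cyclic quotient construction. -/

open Finset Pointwise

namespace Pool.Agent.MP_f9a021_co.BD

lemma val_Cyc {G : Type} [AddCommGroup G] [DecidableEq G] {d q : ℕ} [NeZero d] (φ : G →+ ZMod d)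
    (B : Finset G) (hB : ∀ x ∈ B, (φ x).val ≤ q) :
    ∀ (k : ℕ) (x : G), x ∈ k • B → ∃ v : ℕ, v ≤ k * q ∧ φ x = v := by
  intro k
  induction k with
  | zero =>
    intro x hx
    rw [zero_nsmul, mem_zero] at hx
    exact ⟨0, by simp, by simp [hx]⟩
  | succ k ih =>
    intro x hx
    rw [succ_nsmul, mem_add] at hx
    obtain ⟨y, hy, z, hz, rfl⟩ := hx
    obtain ⟨v, hv, e⟩ := ih y hy
    refine ⟨v + (φ z).val, ?_, by simp [e]⟩
    have := hB z hz
    rw [add_mul, one_mul]
    omega

theorem CYC_pf : CYC_st := by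
  intro G _ _ _ m d hm hG hd hmd h4
  have : NeZero d := ⟨by omega⟩
  have : Fact (1 < d) := ⟨by omega⟩
  obtain ⟨φ, hφ⟩ := exists_surj G hd
  obtain ⟨f, hf⟩ := hd
  have hs : Fintype.card G = m * f * d := by rw [hG, hf]; ring
  have hf4 : 4 * m ≤ f := by
    rw [hf, mul_comm d] at h4
    exact Nat.le_of_mul_le_mul_right h4 (by omega)
  have q1 : 1 ≤ d / m := (Nat.one_le_div_iff (by omega)).2 hmd.le
  have q2 : d / m < d := Nat.div_lt_self (by omega) (by omega)
  have q3 : d < m * (d / m + 1) := Nat.lt_mul_div_succ d (by omega)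
  have hB : ∀ x, x ∈ univ.filter (fun g => (φ g).val ≤ d / m) ↔ (φ x).val ≤ d / m := by simp
  have hc : (univ.filter (fun g => (φ g).val ≤ d / m)).card = (d / m + 1) * (m * f) := by
    rw [card_eq_sum_card_fiberwise (f := fun g => (φ g).val) (t := range (d / m + 1))
      (fun x hx => mem_coe.2 (mem_range.2 (Nat.lt_succ_of_le ((hB x).1 hx)))), sum_const_nat
      (m := m * f), card_range]
    intro v hv
    rw [mem_range] at hv
    rw [← card_fiber φ hφ hs v (by omega), filter_filter]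
    congr 1
    refine filter_congr fun x _ => ⟨fun h => h.2, fun h => ⟨by omega, h⟩⟩
  generalize univ.filter (fun g => (φ g).val ≤ d / m) = B at hB hc
  have h0 : (0 : G) ∈ B := (hB 0).2 (by simp)
  refine ⟨φ.ker, B, ?_, ?_, ?_, ?_, ?_⟩
  · have e : fs φ.ker = univ.filter (fun g => (φ g).val = 0) := by
      ext x
      simp
    rw [e, card_fiber φ hφ hs 0 (by omega)]
    nlinarith
  · intro g hg x hx
    rw [hB] at hx ⊢
    rwa [map_add, (AddMonoidHom.mem_ker).1 hg, zero_add]
  · rw [hc, hf]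
    nlinarith
  · obtain ⟨g, hg⟩ := hφ 1
    have hm : ∀ x ∈ B, x ∈ AddSubgroup.closure ((B : Set G) - (B : Set G)) := fun x hx =>
      AddSubgroup.subset_closure ⟨x, hx, 0, h0, sub_zero x⟩
    rw [eq_top_iff]
    intro x _
    have h1 := hm g ((hB g).2 (by rw [hg, ZMod.val_one]; exact q1))
    have h2 := hm (x - (φ x).val • g) ((hB _).2 (by simp [hg]))
    simpa using add_mem h2 (nsmul_mem h1 (φ x).val)
  · intro h
    obtain ⟨x, hx⟩ := hφ ((d - 1 : ℕ) : ZMod d)
    obtain ⟨v, hv, e⟩ := val_Cyc φ B (fun x hx => (hB x).1 hx) _ x (h ▸ mem_univ x)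
    have h1 := Nat.div_mul_le_self (d - 2) (d / m)
    rw [hx, ZMod.natCast_eq_natCast_iff', Nat.mod_eq_of_lt (by omega),
      Nat.mod_eq_of_lt (by omega)] at e
    omega

theorem PRED_pf : PRED_st := by
  intro G _ _ _ m hm hG h2
  have hp := Nat.minFac_prime (n := m) (by omega)
  have : Fact m.minFac.Prime := ⟨hp⟩
  obtain ⟨x, hx⟩ := exists_prime_addOrderOf_dvd_card (G := G) m.minFac
    (hG ▸ (Nat.minFac_dvd m).mul_right _)
  obtain ⟨d, hd⟩ : m.minFac ∣ AddMonoid.exponent G := hx ▸ AddMonoid.addOrder_dvd_exponent x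
  have h1 : m.minFac ≤ m := Nat.minFac_le (by omega)
  have h3 : 2 * m * m ≤ d := by
    refine Nat.le_of_mul_le_mul_left ?_ hp.pos
    rw [← hd]
    refine le_trans ?_ h2
    calc m.minFac * (2 * m * m) ≤ m * (2 * m * m) := Nat.mul_le_mul_right _ h1
      _ = 2 * m ^ 3 := by ring
  have : NeZero d := ⟨by have : 0 < 2 * m * m := by positivity
                         omega⟩
  obtain ⟨φ, hφ⟩ := exists_surj G (d := d) (hd ▸ dvd_mul_left _ _)
  rw [hd]
  exact le_tauHat (lower_pred φ hφ (by rw [hG, hd]; ring) hm hp.two_le h3)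

end Pool.Agent.MP_f9a021_co.BD

end
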