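import Pool.Agent.MP_f9a021_co.BD.M1
import Pool.Agent.MP_f9a021_co.BD.Crit

section
open Finset Pointwise

namespace Pool.Agent.MP_f9a021_co.BD

section
variable {G : Type} [AddCommGroup G] [Fintype G] [DecidableEq G]

omit [DecidableEq G] in
lemma idx_mul_Core (K : AddSubgroup G) : K.index * (fs K).card = Fintype.card G := by
  rw [card_fs, AddSubgroup.index_mul_card, Nat.card_eq_fintype_card]

lemma nsmul_cos_Core {B : Finset G} {K : AddSubgroup G} {a : G} (h : B ⊆ cos K a) (k : ℕ) :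
    ∀ y ∈ k • B, y - k • a ∈ K := by
  induction k with
  | zero => intro y hy; rw [zero_nsmul, Finset.mem_zero] at hy; simp [hy]
  | succ k ih =>
    intro y hy
    rw [succ_nsmul] at hy
    obtain ⟨z, hz, b, hb, rfl⟩ := Finset.mem_add.1 hy
    have := K.add_mem (ih z hz) (mem_cos.1 (h hb))
    rw [succ_nsmul]
    convert this using 1
    abel

omit [DecidableEq G] in
lemma sum_cos_Core {U : Finset G} {K : AddSubgroup G} {a : G} (h : U ⊆ cos K a) :
    ∑ x ∈ U, x - U.card • a ∈ K := by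
  rw [← Finset.sum_const, ← Finset.sum_sub_distrib]
  exact K.sum_mem fun x hx => mem_cos.1 (h hx)

omit [Fintype G] in
lemma stab_le_Core {X : Finset G} {K : AddSubgroup G} {c : G} (hX : X.Nonempty)
    (h : ∀ x ∈ X, x - c ∈ K) : stab X ≤ K := by
  obtain ⟨x, hx⟩ := hX
  intro g hg
  have := K.sub_mem (h _ (hg x hx)) (h x hx)
  simpa using this

lemma nsmul_fs_Core (B : Finset G) (L : AddSubgroup G) (k : ℕ) :
    ∀ y ∈ k • (B + fs L), ∃ x ∈ k • B, y - x ∈ L := by
  induction k with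
  | zero => intro y hy; exact ⟨y, by simpa using hy, by simp⟩
  | succ k ih =>
    intro y hy
    rw [succ_nsmul] at hy
    obtain ⟨z, hz, b, hb, rfl⟩ := Finset.mem_add.1 hy
    obtain ⟨x, hx, h1⟩ := ih z hz
    obtain ⟨c, hc, h2⟩ := mem_add_fs.1 hb
    refine ⟨x + c, by rw [succ_nsmul]; exact Finset.add_mem_add hx hc, ?_⟩
    convert L.add_mem h1 h2 using 1
    abel

lemma max_coset_Core (A : Finset G) {m n l : ℕ} (hm : 1 ≤ m) (hN : Fintype.card G = m * n)
    (hA : n ≤ A.card) (hn : (m + 1) * (m + 1) * l < n) :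
    ∃ (K : AddSubgroup G) (a : G), K.index ≤ m ∧ (A \ cos K a).card ≤ K.index * l ∧
      ∀ (K' : AddSubgroup G) (a' : G), (A \ cos K' a').card ≤ (K.index + 1) * l →
        K'.index ≤ K.index := by
  classical
  let P : ℕ → Prop := fun d => ∃ (K : AddSubgroup G) (a : G), K.index = d ∧
    (A \ cos K a).card ≤ d * l
  have h1 : P 1 := ⟨⊤, 0, AddSubgroup.index_top, by
    rw [Finset.sdiff_eq_empty_iff_subset.2 (fun x _ => by simp)]; simp⟩
  obtain ⟨K, a, hK, hKa⟩ : P (Nat.findGreatest P m) := Nat.findGreatest_spec hm h1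
  have hle : K.index ≤ m := hK ▸ Nat.findGreatest_le m
  refine ⟨K, a, hle, hK ▸ hKa, fun K' a' h => ?_⟩
  by_contra hc
  have h2 : K'.index ≤ m := by
    by_contra h3
    have h4 : A.card ≤ (A \ cos K' a').card + (cos K' a').card := Finset.card_le_card_sdiff_add_card
    rw [card_cos] at h4
    have h5 := idx_mul_Core K'
    have h6 : (m + 1) * (fs K').card ≤ K'.index * (fs K').card :=
      Nat.mul_le_mul_right _ (by omega)
    have h7 : (K.index + 1) * l ≤ (m + 1) * l := Nat.mul_le_mul_right _ (by omega)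
    have h8 : (m + 1) * n ≤ (m + 1) * ((m + 1) * l + (fs K').card) :=
      Nat.mul_le_mul_left _ (by omega)
    nlinarith
  have h3 : K'.index ≤ Nat.findGreatest P m :=
    Nat.le_findGreatest h2 ⟨K', a', rfl, h.trans (Nat.mul_le_mul_right _ (by omega))⟩
  omega

end

lemma arith_Core {m d i s d' : ℕ} (h2 : 2 ≤ d) (hd : d ≤ m) (hi : m + 1 ≤ i + d) (hs : 2 ≤ s)
    (h1 : (i + 1) * s + 1 ≤ d' + i) (h3 : d * d' ≤ m * s) : False := by
  obtain ⟨u, rfl⟩ : ∃ u, d = 2 + u := ⟨d - 2, by omega⟩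
  obtain ⟨v, rfl⟩ : ∃ v, m = 2 + u + v := ⟨m - (2 + u), by omega⟩
  obtain ⟨w, rfl⟩ : ∃ w, i = v + 1 + w := ⟨i - (v + 1), by omega⟩
  obtain ⟨r, rfl⟩ : ∃ r, s = 2 + r := ⟨s - 2, by omega⟩
  have h4 : (v + 2) * (r + 1) + 2 ≤ d' := by nlinarith [Nat.zero_le (w * r)]
  have h5 : (2 + u) * ((v + 2) * (r + 1) + 2) ≤ (2 + u) * d' := Nat.mul_le_mul_left _ h4
  nlinarith [Nat.zero_le (u * v * r), Nat.zero_le (u * v), Nat.zero_le (u * r),
    Nat.zero_le (v * r)]

lemma ar1_Core {m n l h e T J k a : ℕ} (hJm : J ≤ m) (hk : k ≤ J * n) (ha : n ≤ a + m * l)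
    (hn2 : m * (h + 3 * e) + T + (m + 1) * (m + 1) * l < n) :
    J * (h + 3 * e) + k + T ≤ (J + 1) * a := by
  have h1 : J * (h + 3 * e) ≤ m * (h + 3 * e) := Nat.mul_le_mul_right _ hJm
  have h2 : (J + 1) * n ≤ (J + 1) * (a + m * l) := Nat.mul_le_mul_left _ ha
  have h3 : (J + 1) * (m * l) ≤ (m + 1) * ((m + 1) * l) :=
    Nat.mul_le_mul (by omega) (Nat.mul_le_mul_right _ (by omega))
  nlinarith

lemma ar2_Core {i s d' x c : ℕ} (hx : 0 < x) (k1 : (i + 1) * (x * s) ≤ c + i * x)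
    (k2 : c + x ≤ x * d') : (i + 1) * s + 1 ≤ d' + i := by
  refine Nat.le_of_mul_le_mul_left ?_ hx
  nlinarith

lemma ar3_Core {m n l x s D : ℕ} (k6 : m * n = D * x) (h3 : n ≤ (m + 1) * l + x * s)
    (hx : m * (m + 1) * l < x) : D ≤ m * s := by
  have h3 : m * n ≤ m * ((m + 1) * l + x * s) := Nat.mul_le_mul_left _ h3
  by_contra h4
  have h5 : (m * s + 1) * x ≤ D * x := Nat.mul_le_mul_right _ (by omega)
  nlinarith

lemma ar4_Core {m d J : ℕ} (hd : d ≠ 0) (hd' : d ≤ m) (hJ : m + 1 = J + d) : m ≤ d * J := by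
  obtain ⟨u, rfl⟩ : ∃ u, d = u + 1 := ⟨d - 1, by omega⟩
  obtain ⟨v, rfl⟩ : ∃ v, J = v + 1 := ⟨J - 1, by omega⟩
  nlinarith [Nat.zero_le (u * v)]

lemma ar5_Core {m n x s d' : ℕ} (hx : 0 < x) (k6 : m * n = d' * x) (k8 : d' < m * s) :
    n < x * s := by
  refine Nat.lt_of_mul_lt_mul_left (a := m) ?_
  rw [k6]
  nlinarith

lemma ar6_Core {m : ℕ} (hm : 2 ≤ m) (l : ℕ) : m * l ≤ (m + 1) * (m + 1) * l ∧
    (m + 1) * l ≤ (m + 1) * (m + 1) * l ∧ 2 * l ≤ m * (m + 1) * l :=
  ⟨Nat.mul_le_mul_right _ (by nlinarith), Nat.mul_le_mul_right _ (by nlinarith),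
    Nat.mul_le_mul_right _ (by nlinarith)⟩

theorem CORE_pf (hRK : RK_st) (hREP : REP_st) (hDAV : DAV_st) (hROB : ROB_st) (hBOR : BOR_st) :
    CORE_st := by
  intro G _ _ _ A m n t T e g h l hm hN hn hD ht1 ht2 hA hR hT hg1 hg2 hg3 hh hn2
  by_contra hcon
  rw [not_or] at hcon
  obtain ⟨hc1, hc2⟩ := hcon
  obtain ⟨hml, hml2, hml3⟩ := ar6_Core hm l
  obtain ⟨K, a, hd, hE, hmax⟩ := max_coset_Core A (l := l) (by omega) hN (by omega) (by omega)
  have hd0 : K.index ≠ 0 := AddSubgroup.index_ne_zero_of_finite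
  have hKN := idx_mul_Core K
  obtain ⟨F, hF, hF1, hF2⟩ := hDAV G K (A \ cos K a) a
  obtain ⟨j, hj⟩ : ∃ j, t = j + 2 + F.card := ⟨t - 2 - F.card, by omega⟩
  set A0 := A ∩ cos K a with hA0
  have hc0 : (A \ cos K a).card + A0.card = n + t := by
    rw [← hA]; exact Finset.card_sdiff_add_card_inter _ _
  have hc3 : ((A \ cos K a) \ F).card + F.card = (A \ cos K a).card :=
    Finset.card_sdiff_add_card_eq_card hF
  have hs1 : ∑ x ∈ A0, x + ∑ x ∈ A \ cos K a, x = ∑ x ∈ A, x :=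
    Finset.sum_inter_add_sum_sdiff _ _ _
  have hs2 : ∑ x ∈ (A \ cos K a) \ F, x + ∑ x ∈ F, x = ∑ x ∈ A \ cos K a, x :=
    Finset.sum_sdiff hF
  set y := ∑ x ∈ A, x - ∑ x ∈ F, x with hy
  have hyK : y - (j + 1 + 1) • a ∈ K := by
    have h1 := K.add_mem (sum_cos_Core (U := A0) (K := K) (a := a) Finset.inter_subset_right) hF2
    have h2 : A0.card • a + ((A \ cos K a) \ F).card • a = (j + 1 + 1) • a := by
      rw [← add_nsmul, show A0.card + ((A \ cos K a) \ F).card = n + (j + 1 + 1) by omega,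
        add_nsmul, hn, zero_add]
    convert h1 using 1
    rw [hy, ← hs1, ← hs2, ← h2]
    abel
  have hyn : y ∉ pop A0 T (j + 1) := by
    intro hy'
    obtain ⟨U, hU, -, hU1, hU2⟩ := hREP G A0 T (2 * m) j 0 y hD (by omega) hy' ∅ (by simp)
    have hdis : Disjoint U F := Finset.disjoint_left.2 fun x h1 h2 =>
      (Finset.mem_sdiff.1 (hF h2)).2 (Finset.mem_inter.1 (hU h1)).2
    refine hc1 ⟨U ∪ F, Finset.union_subset (hU.trans Finset.inter_subset_left)
      (hF.trans Finset.sdiff_subset), by rw [Finset.card_union_of_disjoint hdis]; omega, ?_⟩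
    rw [Finset.sum_union hdis, hU2, hy]
    abel
  have hEl : (A \ cos K a).card ≤ m * l := hE.trans (Nat.mul_le_mul_right _ hd)
  obtain ⟨J, hJ⟩ : ∃ J, m + 1 = J + K.index := ⟨m + 1 - K.index, by omega⟩
  have hKJ : (fs K).card ≤ J * n := by
    have h1 : m ≤ K.index * J := ar4_Core hd0 hd hJ
    refine Nat.le_of_mul_le_mul_left ?_ (Nat.pos_of_ne_zero hd0)
    rw [hKN, hN, ← mul_assoc]
    exact Nat.mul_le_mul_right _ h1
  have hJm : J ≤ m := by omega
  obtain ⟨H, hHK, hH1, hH2⟩ := hRK G K A0 a y T e g h J (j + 1) hR Finset.inter_subset_right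
    (by omega) (by omega) (by omega) (by omega)
    (ar1_Core hJm hKJ (by omega) hn2) hg1
    (by
      have h1 : J * T * Fintype.card G ≤ m * T * Fintype.card G :=
        Nat.mul_le_mul_right _ (Nat.mul_le_mul_right _ hJm)
      omega) hyK hyn
  obtain ⟨hB1, hB2⟩ := hROB G A0 H g
  set B := rob A0 H g with hB
  have hB3 : (A0 \ B).card ≤ l := by
    refine Nat.le_of_mul_le_mul_right ?_ (fs_pos H)
    exact hB2.trans (hg3.trans (Nat.mul_le_mul_left _ hH1))
  have hB4 : B ⊆ cos K a := by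
    intro x hx
    obtain ⟨b, hb⟩ : (A0 ∩ cos H x).Nonempty :=
      Finset.card_pos.1 (lt_of_lt_of_le (by omega) (mem_rob.1 hx))
    have h1 := mem_cos.1 (Finset.mem_inter.1 (Finset.mem_inter.1 hb).1).2
    have h2 := hHK (mem_cos.1 (Finset.mem_inter.1 hb).2)
    have := K.sub_mem h1 h2
    rw [mem_cos]
    convert this using 1
    abel
  have hB5 : B.Nonempty := by
    have h1 : A0.card ≤ (A0 \ B).card + B.card := Finset.card_le_card_sdiff_add_card
    have h2 : (m + 1) * l = m * l + l := by ring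
    exact Finset.card_pos.1 (by omega)
  set i := j + 1 with hi
  set L := stab ((i + 1) • B) with hL
  have hHL : H ≤ L := by
    rw [hL, succ_nsmul]; exact hB1.trans (stab_le_add' _ _)
  have hLK : L ≤ K := stab_le_Core hB5.nsmul (nsmul_cos_Core hB4 _)
  have hLh : h ≤ (fs L).card := hH1.trans (Nat.le_of_dvd (fs_pos L) (card_fs_dvd hHL))
  have k1 := kneser_iter B hB5 i
  rw [← hL] at k1
  have k2 : ((i + 1) • B).card + (fs L).card ≤ (fs K).card := by
    have hdis : Disjoint ((i + 1) • B) (cos L y) := Finset.disjoint_left.2 fun x h1 h2 =>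
      hH2 (mem_of_sub_mem le_rfl h1 (by simpa using L.neg_mem (mem_cos.1 h2)))
    rw [← card_cos L y, ← Finset.card_union_of_disjoint hdis, ← card_cos K ((i + 1) • a)]
    refine Finset.card_le_card (Finset.union_subset
      (fun x hx => mem_cos.2 (nsmul_cos_Core hB4 _ x hx)) fun x hx => mem_cos.2 ?_)
    convert K.add_mem (hLK (mem_cos.1 hx)) hyK using 1
    abel
  obtain ⟨s, hs⟩ := card_dvd (B + fs L) (le_stab_add_fs B L)
  obtain ⟨d', hd'⟩ := card_fs_dvd hLK
  have hLpos := fs_pos L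
  have k3 : (i + 1) * s + 1 ≤ d' + i := by
    rw [hs] at k1; rw [hd'] at k2
    exact ar2_Core hLpos k1 k2
  have k4 : L.index = K.index * d' := by
    refine Nat.eq_of_mul_eq_mul_right hLpos ?_
    rw [idx_mul_Core, ← hKN, hd']; ring
  have k5 : (A \ (B + fs L)).card ≤ (K.index + 1) * l := by
    have h1 : A \ (B + fs L) ⊆ (A \ cos K a) ∪ (A0 \ B) := by
      intro x hx
      rw [Finset.mem_sdiff] at hx
      by_cases h2 : x ∈ cos K a
      · exact Finset.mem_union_right _ (Finset.mem_sdiff.2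
          ⟨Finset.mem_inter.2 ⟨hx.1, h2⟩, fun h3 => hx.2 (subset_add_fs B L h3)⟩)
      · exact Finset.mem_union_left _ (Finset.mem_sdiff.2 ⟨hx.1, h2⟩)
    have h2 := (Finset.card_le_card h1).trans (Finset.card_union_le _ _)
    rw [add_mul, one_mul]
    omega
  have k6 : m * n = K.index * d' * (fs L).card := by rw [← k4, idx_mul_Core, hN]
  have k7 : K.index * d' ≤ m * s := by
    have h1 : A.card ≤ (A \ (B + fs L)).card + (B + fs L).card :=
      Finset.card_le_card_sdiff_add_card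
    have h2 : (K.index + 1) * l ≤ (m + 1) * l := Nat.mul_le_mul_right _ (by omega)
    exact ar3_Core k6 (l := l) (by omega) (by omega)
  obtain ⟨b, hb⟩ := hB5
  have hs0 : s ≠ 0 := by
    rintro rfl
    have := Finset.card_pos.2 ⟨b, subset_add_fs B L hb⟩
    omega
  by_cases hs1' : s = 1
  · subst hs1'
    have h1 : cos L b = B + fs L :=
      Finset.eq_of_subset_of_card_le (cos_subset (le_stab_add_fs B L) (subset_add_fs B L hb))
        (by rw [card_cos]; omega)
    have h2 := hmax L b (by rw [h1]; exact k5)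
    have h3 : K.index * 2 ≤ K.index * d' := Nat.mul_le_mul_left _ (by omega)
    omega
  by_cases hd2 : 2 ≤ K.index
  · exact arith_Core hd2 hd (by omega) (by omega) k3 k7
  have hd1 : K.index = 1 := by omega
  have hti : t = i + 1 := by omega
  have gen : ∀ B' : Finset G, B + fs L ⊆ B' →
      AddSubgroup.closure ((B' : Set G) - (B' : Set G)) = ⊤ := by
    intro B' hB'
    rw [← AddSubgroup.index_eq_one]
    have h1 := hmax (AddSubgroup.closure ((B' : Set G) - (B' : Set G))) b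
      (le_trans (Finset.card_le_card (Finset.sdiff_subset_sdiff le_rfl fun x hx =>
        mem_cos.2 (AddSubgroup.subset_closure (Set.sub_mem_sub (hB' hx)
          (hB' (subset_add_fs B L hb)))))) k5)
    have h2 : (AddSubgroup.closure ((B' : Set G) - (B' : Set G))).index ≠ 0 :=
      AddSubgroup.index_ne_zero_of_finite
    omega
  rw [hd1, one_mul] at k6 k7
  rcases k7.lt_or_eq with k8 | k8
  · refine hc2 ⟨L, B + fs L, by omega, le_stab_add_fs B L, ?_, gen _ le_rfl, fun h1 => ?_⟩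
    · rw [hs]; exact ar5_Core hLpos k6 k8
    · obtain ⟨x, hx, h2⟩ := nsmul_fs_Core B L t y (h1 ▸ Finset.mem_univ y)
      rw [hti] at hx
      exact hH2 (mem_of_sub_mem le_rfl hx h2)
  · have h1 : (B + fs L).card = n := by
      refine Nat.eq_of_mul_eq_mul_left (show 0 < m by omega) ?_
      rw [k6, hs, k8]; ring
    rcases hBOR G A (B + fs L) L m n t ((K.index + 1) * l) (2 * m) hN ht1 (by omega) (by omega)
      (le_stab_add_fs B L) h1 hA k5 hD (by rw [hd1]; omega) with h3 | ⟨B', h3, h4, h5, h6⟩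
    · exact hc1 h3
    · exact hc2 ⟨L, B', by omega, h4, h5, gen _ h3, h6⟩

end Pool.Agent.MP_f9a021_co.BD

end

section
open Finset Pointwise

namespace Pool.Agent.MP_f9a021_co.BD

section
variable {G : Type} [AddCommGroup G] [Fintype G] [DecidableEq G]

omit [Fintype G] in
lemma ins_Bor (B : Finset G) {a : G} {I : Finset G} (ha : a ∉ I) :
    2 • B + ∑ e ∈ insert a I, insert e B = (2 • B + ∑ e ∈ I, insert e B) + insert a B := by
  rw [Finset.sum_insert ha]; abel

omit [Fintype G] in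
lemma rep_Bor (B I : Finset G) : ∀ y ∈ 2 • B + ∑ e ∈ I, insert e B,
    ∃ J ⊆ I, ∃ k, k + J.card = I.card ∧ y - ∑ x ∈ J, x ∈ (k + 2) • B := by
  induction I using Finset.induction_on with
  | empty => intro y hy; exact ⟨∅, le_rfl, 0, rfl, by simpa using hy⟩
  | insert a I ha ih =>
    intro y hy
    rw [ins_Bor B ha] at hy
    obtain ⟨z, hz, c, hc, rfl⟩ := Finset.mem_add.1 hy
    obtain ⟨J, hJ, k, h1, h2⟩ := ih z hz
    rcases Finset.mem_insert.1 hc with rfl | hc
    · have hcJ : c ∉ J := fun h => ha (hJ h)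
      refine ⟨insert c J, Finset.insert_subset_insert _ hJ, k, ?_, ?_⟩
      · rw [Finset.card_insert_of_notMem hcJ, Finset.card_insert_of_notMem ha]; omega
      · rw [Finset.sum_insert hcJ]
        convert h2 using 1
        abel
    · refine ⟨J, hJ.trans (Finset.subset_insert _ _), k + 1, ?_, ?_⟩
      · rw [Finset.card_insert_of_notMem ha]; omega
      · rw [show k + 1 + 2 = k + 2 + 1 by omega, succ_nsmul]
        convert Finset.add_mem_add h2 hc using 1
        abel

omit [Fintype G] in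
lemma sub_Bor (B I : Finset G) : (I.card + 2) • B ⊆ 2 • B + ∑ e ∈ I, insert e B := by
  induction I using Finset.induction_on with
  | empty => simp
  | insert a I ha ih =>
    rw [ins_Bor B ha, Finset.card_insert_of_notMem ha, show I.card + 1 + 2 = I.card + 2 + 1 by omega,
      succ_nsmul]
    exact Finset.add_subset_add ih (Finset.subset_insert _ _)

lemma full_Bor {A B : Finset G} {L : AddSubgroup G} {l T : ℕ} (hL : L ≤ stab B)
    (hl : (B \ A).card ≤ l) (hT : 2 * l + T ≤ (fs L).card) (k : ℕ) :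
    (k + 2) • B ⊆ pop (A ∩ B) T (k + 1) := by
  induction k with
  | zero =>
    intro y hy
    rw [zero_add, two_nsmul] at hy
    obtain ⟨b, hb, c, hc, rfl⟩ := Finset.mem_add.1 hy
    rw [mem_pop_succ, pop_zero]
    have h1 : cos L c ⊆ ((A ∩ B).filter fun a => b + c - a ∈ A ∩ B) ∪
        ((B \ A) ∪ (B \ A).image fun x => b + c - x) := by
      intro a ha
      have h2 : a ∈ B := cos_subset hL hc ha
      have h3 : b + c - a ∈ B := mem_of_sub_mem hL hb (by
        convert L.neg_mem (mem_cos.1 ha) using 1; abel)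
      by_cases h4 : a ∈ A
      · by_cases h5 : b + c - a ∈ A
        · exact Finset.mem_union_left _ (Finset.mem_filter.2
            ⟨Finset.mem_inter.2 ⟨h4, h2⟩, Finset.mem_inter.2 ⟨h5, h3⟩⟩)
        · exact Finset.mem_union_right _ (Finset.mem_union_right _ (Finset.mem_image.2
            ⟨_, Finset.mem_sdiff.2 ⟨h3, h5⟩, by abel⟩))
      · exact Finset.mem_union_right _ (Finset.mem_union_left _ (Finset.mem_sdiff.2 ⟨h2, h4⟩))
    have h2 := (Finset.card_le_card h1).trans ((Finset.card_union_le _ _).trans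
      (Nat.add_le_add_left ((Finset.card_union_le _ _).trans
        (Nat.add_le_add_left Finset.card_image_le _)) _))
    rw [card_cos] at h2
    omega
  | succ k ih =>
    intro y hy
    rw [show k + 1 + 2 = k + 2 + 1 by omega, succ_nsmul] at hy
    obtain ⟨z, hz, c, hc, rfl⟩ := Finset.mem_add.1 hy
    rw [mem_pop_succ]
    have h0 : L ≤ stab ((k + 2) • B) := by
      rw [succ_nsmul]; exact hL.trans (stab_le_add' _ _)
    have h1 : cos L c ⊆ ((A ∩ B).filter fun a => z + c - a ∈ pop (A ∩ B) T (k + 1)) ∪ (B \ A) := by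
      intro a ha
      have h2 : a ∈ B := cos_subset hL hc ha
      have h3 : z + c - a ∈ (k + 2) • B := mem_of_sub_mem h0 hz (by
        convert L.neg_mem (mem_cos.1 ha) using 1; abel)
      by_cases h4 : a ∈ A
      · exact Finset.mem_union_left _ (Finset.mem_filter.2 ⟨Finset.mem_inter.2 ⟨h4, h2⟩, ih h3⟩)
      · exact Finset.mem_union_right _ (Finset.mem_sdiff.2 ⟨h2, h4⟩)
    have h2 := (Finset.card_le_card h1).trans (Finset.card_union_le _ _)
    rw [card_cos] at h2
    omega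

lemma kn_Bor {B E : Finset G} (hB : B.Nonempty) (hE : Disjoint E B)
    (hp : stab (2 • B + ∑ e ∈ E, insert e B) ≤ stab B) (I : Finset G) : I ⊆ E →
    2 * B.card + I.card * (B.card + (fs (stab (2 • B + ∑ e ∈ E, insert e B))).card) ≤
      (2 • B + ∑ e ∈ I, insert e B).card +
        (I.card + 1) * (fs (stab (2 • B + ∑ e ∈ E, insert e B))).card := by
  set L := stab (2 • B + ∑ e ∈ E, insert e B) with hL
  have hst : ∀ J ⊆ E, stab (2 • B + ∑ e ∈ J, insert e B) = L := by
    intro J hJ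
    refine le_antisymm ?_ ?_
    · rw [hL, ← Finset.sum_sdiff hJ, add_comm (∑ e ∈ E \ J, insert e B), ← add_assoc]
      exact stab_le_add _ _
    · rw [two_nsmul]
      exact hp.trans ((stab_le_add _ _).trans (stab_le_add _ _))
  induction I using Finset.induction_on with
  | empty =>
    intro _
    have h1 := kneser B B hB hB
    have h2 := hst ∅ (Finset.empty_subset _)
    rw [Finset.sum_empty, add_zero, two_nsmul] at h2 ⊢
    unfold Kn at h1
    rw [h2, add_fs_eq hp] at h1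
    simp only [Finset.card_empty]
    omega
  | insert a I ha ih =>
    intro hI
    have h0 := ih ((Finset.subset_insert _ _).trans hI)
    have hne : (2 • B + ∑ e ∈ I, insert e B).Nonempty :=
      (hB.nsmul (n := I.card + 2)).mono (sub_Bor B I)
    have h1 := kneser _ (insert a B) hne (Finset.insert_nonempty _ _)
    unfold Kn at h1
    rw [← ins_Bor B ha, hst _ hI] at h1
    have h2 := card_le_add_fs (2 • B + ∑ e ∈ I, insert e B) L
    have h3 : B.card + (fs L).card ≤ (insert a B + fs L).card := by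
      have hdis : Disjoint B (cos L a) := Finset.disjoint_left.2 fun x h4 h5 =>
        Finset.disjoint_left.1 hE (hI (Finset.mem_insert_self _ _))
          (mem_of_sub_mem hp h4 (by simpa using L.neg_mem (mem_cos.1 h5)))
      rw [← card_cos L a, ← Finset.card_union_of_disjoint hdis]
      exact Finset.card_le_card (Finset.union_subset
        ((Finset.subset_insert _ _).trans (subset_add_fs _ _))
        (cos_subset (le_stab_add_fs _ _) (subset_add_fs _ _ (Finset.mem_insert_self _ _))))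
    rw [Finset.card_insert_of_notMem ha]
    nlinarith

end

theorem BOR_pf (h : REP_st) : BOR_st := by
  intro G _ _ _ A B L m n t l D hN ht ht2 hn hL hB hA hl hD hLc
  have c1 : (A \ B).card + (A ∩ B).card = n + t := hA ▸ Finset.card_sdiff_add_card_inter _ _
  have c2 : (B \ A).card + (A ∩ B).card = n := by
    rw [Finset.inter_comm, ← hB]; exact Finset.card_sdiff_add_card_inter _ _
  obtain ⟨E, hE, hE1⟩ := Finset.exists_subset_card_eq (s := A \ B) (n := t - 2) (by omega)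
  have hBne : B.Nonempty := Finset.card_pos.1 (by omega)
  have hEB : Disjoint E B := Finset.disjoint_left.2 fun x h1 => (Finset.mem_sdiff.1 (hE h1)).2
  by_cases hX : 2 • B + ∑ e ∈ E, insert e B = univ
  · left
    obtain ⟨J, hJ, k, h1, h2⟩ := rep_Bor B E (∑ x ∈ A, x) (hX ▸ Finset.mem_univ _)
    obtain ⟨U, hU, -, h3, h4⟩ := h G (A ∩ B) (2 * t + D + 1) D k 0 _ hD (by omega)
      (full_Bor (l := l) hL (by omega) (by omega) k h2) ∅ (by simp)
    have hdis : Disjoint U J := Finset.disjoint_left.2 fun x h5 h6 =>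
      Finset.disjoint_left.1 hEB (hJ h6) (Finset.mem_inter.1 (hU h5)).2
    refine ⟨U ∪ J, Finset.union_subset (hU.trans Finset.inter_subset_left)
      (hJ.trans (hE.trans Finset.sdiff_subset)),
      by rw [Finset.card_union_of_disjoint hdis]; omega, ?_⟩
    rw [Finset.sum_union hdis, h4]
    abel
  right
  have k0 := kn_Bor hBne hEB
  have k1 := sub_Bor B E
  set X := 2 • B + ∑ e ∈ E, insert e B with hXd
  obtain ⟨y, hy⟩ : ∃ y, y ∉ X := by
    by_contra hc
    exact hX (Finset.eq_univ_iff_forall.2 fun y => by_contra fun h1 => hc ⟨y, h1⟩)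
  have hLX : L ≤ stab X := by
    rw [hXd, two_nsmul]
    exact hL.trans ((stab_le_add _ _).trans (stab_le_add _ _))
  by_cases hp : B + fs (stab X) = B
  · exfalso
    have h1 := k0 (hp ▸ le_stab_add_fs B (stab X)) E le_rfl
    have h2 : X.card + (fs (stab X)).card ≤ m * n := by
      have hdis : Disjoint X (cos (stab X) y) := Finset.disjoint_left.2 fun x h4 h5 =>
        hy (mem_of_sub_mem le_rfl h4 (by simpa using (stab X).neg_mem (mem_cos.1 h5)))
      rw [← card_cos (stab X) y, ← Finset.card_union_of_disjoint hdis, ← hN]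
      exact Finset.card_le_univ _
    rw [hB] at h1
    have h3 : (m + 1) * n ≤ (E.card + 2) * n := Nat.mul_le_mul_right _ (by omega)
    nlinarith
  · refine ⟨B + fs (stab X), subset_add_fs _ _, hLX.trans (le_stab_add_fs _ _), ?_, fun h1 => ?_⟩
    · rw [← hB]
      exact Finset.card_lt_card (Finset.ssubset_iff_subset_ne.2 ⟨subset_add_fs _ _, Ne.symm hp⟩)
    · obtain ⟨x, hx, h2⟩ := nsmul_fs_Core B (stab X) t y (h1 ▸ Finset.mem_univ y)
      rw [show t = E.card + 2 by omega] at hx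
      exact hy (mem_of_sub_mem le_rfl (k1 hx) h2)

end Pool.Agent.MP_f9a021_co.BD

end

section
open Finset Pointwise

namespace Pool.Agent.MP_f9a021_co.BD

lemma num_Fin {m n T c x N : ℕ} (hm : 2 ≤ m) (hc : 10 * ((m + 1) * (m + 1)) ≤ c) (hT : 0 < T)
    (hN : N = m * n) (h1 : c ^ 4 * x ≤ N) (h2 : N < c ^ 4 * (x + 1)) (h3 : m * T * c ^ 4 < x) :
    x + T ≤ 3 * x ∧ m * T * N + x * (3 * x) < 3 * x * (3 * x) ∧
      3 * x * N ≤ c ^ 2 * x * (c ^ 3 * x) ∧
      m * (m + 1) * (c ^ 2 * x) + 2 * (c ^ 2 * x) + 10 * m + 4 * m ^ 2 < c ^ 3 * x ∧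
      m * (c ^ 3 * x + 3 * x) + T + (m + 1) * (m + 1) * (c ^ 2 * x) < n := by
  have hc9 : 90 ≤ c := by nlinarith
  have hx : 1 ≤ x := by omega
  have hc4 : 1 ≤ c ^ 4 := Nat.one_le_pow _ _ (by omega)
  have hTx : m * T < x := lt_of_le_of_lt (Nat.le_mul_of_pos_right _ hc4) h3
  have hTx' : T < x := by nlinarith
  have hN2 : N ≤ 2 * (c ^ 4 * x) := by nlinarith
  have hw : c ^ 3 * x = c * (c ^ 2 * x) := by ring
  have hw2 : c ^ 4 * x = c * (c ^ 3 * x) := by ring
  have hw3 : c * x ≤ c ^ 2 * x := Nat.mul_le_mul_right _ (by nlinarith)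
  have hw4 : c ≤ c * x := Nat.le_mul_of_pos_right _ hx
  have hw5 : x ≤ c * x := Nat.le_mul_of_pos_left _ (by omega)
  refine ⟨by omega, ?_, ?_, ?_, ?_⟩
  · have a1 : m * T * N ≤ m * T * (2 * (c ^ 4 * x)) := Nat.mul_le_mul_left _ hN2
    have a2 : m * T * c ^ 4 * x < x * x := Nat.mul_lt_mul_of_pos_right h3 hx
    nlinarith
  · have a1 : 3 * x * N ≤ 3 * x * (2 * (c ^ 4 * x)) := Nat.mul_le_mul_left _ hN2
    have a2 : 6 * (c ^ 4 * x * x) ≤ c * (c ^ 4 * x * x) := Nat.mul_le_mul_right _ (by omega)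
    calc 3 * x * N ≤ 6 * (c ^ 4 * x * x) := a1.trans (le_of_eq (by ring))
      _ ≤ c * (c ^ 4 * x * x) := a2
      _ = _ := by ring
  · rw [hw]
    generalize c ^ 2 * x = w at *
    have a1 : (m * (m + 1) + 3) * w ≤ c * w := Nat.mul_le_mul_right _ (by nlinarith)
    have a2 : 10 * m + 4 * m ^ 2 < w := by nlinarith
    nlinarith
  · refine Nat.lt_of_mul_lt_mul_left (a := m) ?_
    rw [← hN]
    refine lt_of_lt_of_le ?_ h1
    rw [hw2]
    have a0 : c ^ 2 * x * m ≤ c ^ 3 * x := by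
      rw [hw, mul_comm]; exact Nat.mul_le_mul_right _ (by nlinarith)
    have a00 : c ^ 2 * x ≤ c ^ 3 * x := by
      rw [hw]; exact Nat.le_mul_of_pos_left _ (by omega)
    generalize c ^ 3 * x = w at *
    generalize c ^ 2 * x = v at *
    have a1 : 10 * ((m + 1) * (m + 1)) * w ≤ c * w := Nat.mul_le_mul_right _ hc
    have a2 : (m + 1) * (m + 1) * (v * m) ≤ (m + 1) * (m + 1) * w := Nat.mul_le_mul_left _ a0
    have a3 : m * m * x ≤ m * m * w := Nat.mul_le_mul_left _ (by omega)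
    have a4 : m * T < w := by omega
    nlinarith [Nat.zero_le (m * w), Nat.zero_le (m * m * w)]

lemma upper_Fin (hR : R_st) (hT : TOR_st) (hC : CORE_st) {m : ℕ} (hm : 2 ≤ m) :
    ∃ C : ℕ, ∀ (G : Type) [AddCommGroup G] [Fintype G] [DecidableEq G],
      Fintype.card G = m * AddMonoid.exponent G → C ≤ AddMonoid.exponent G →
      ∀ (t : ℕ) (A : Finset G), m + 1 ≤ t → t ≤ 2 * m → A.card = AddMonoid.exponent G + t →
        (∃ U ⊆ A, U.card = t ∧ ∑ x ∈ U, x = ∑ x ∈ A, x) ∨
        ∃ (H : AddSubgroup G) (B : Finset G), 4 * m ^ 2 ≤ (fs H).card ∧ H ≤ stab B ∧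
          AddMonoid.exponent G < B.card ∧
          AddSubgroup.closure ((B : Set G) - (B : Set G)) = ⊤ ∧ t • B ≠ univ := by
  obtain ⟨c, hc⟩ : ∃ c, c = 10 * ((m + 1) * (m + 1)) := ⟨_, rfl⟩
  have hc0 : 0 < c ^ 4 := by rw [hc]; positivity
  obtain ⟨N₀, hN₀⟩ := hR (6 * m + 1) (c ^ 4) hc0
  refine ⟨N₀ + (m * (6 * m + 1) * c ^ 4 + 1) * c ^ 4, fun G _ _ _ hN hn t A h1 h2 hA => ?_⟩
  have h3 : AddMonoid.exponent G ≤ Fintype.card G := by
    rw [hN]; exact Nat.le_mul_of_pos_left _ (by omega)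
  obtain ⟨a1, a2, a3, a4, a5⟩ := num_Fin (x := Fintype.card G / c ^ 4) (T := 6 * m + 1) hm hc.ge
    (by omega) hN (Nat.mul_div_le _ _) (Nat.lt_mul_div_succ _ hc0)
    ((Nat.le_div_iff_mul_le hc0).2 ((Nat.le_add_left _ _).trans (hn.trans h3)))
  exact hC G A m _ t (6 * m + 1) _ _ _ _ hm hN (fun x => AddMonoid.exponent_nsmul_eq_zero x)
    (hT G m hN) h1 h2 hA (hN₀ G (by omega)) (by omega) a1 a2 a3 a4 a5

section
variable {G : Type} [AddCommGroup G] [Fintype G] [DecidableEq G]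

lemma bridge_Fin {m n t : ℕ} (hm : 2 ≤ m) (hN : Fintype.card G = m * n) :
    (∃ (H : AddSubgroup G) (B : Set G), 4 * m ^ 2 ≤ Nat.card H ∧
      (∀ b ∈ B, ∀ h ∈ H, b + h ∈ B) ∧ Nat.card G < m * B.ncard ∧
      AddSubgroup.closure (B - B) = ⊤ ∧ t • B ≠ Set.univ) ↔
    ∃ (H : AddSubgroup G) (B : Finset G), 4 * m ^ 2 ≤ (fs H).card ∧ H ≤ stab B ∧
      n < B.card ∧ AddSubgroup.closure ((B : Set G) - (B : Set G)) = ⊤ ∧ t • B ≠ univ := by
  constructor
  · rintro ⟨H, B, h1, h2, h3, h4, h5⟩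
    obtain ⟨B, rfl⟩ : ∃ B' : Finset G, (B' : Set G) = B := ⟨B.toFinite.toFinset, by simp⟩
    refine ⟨H, B, by rwa [card_fs], fun g hg x hx => ?_, ?_, h4, fun h => h5 ?_⟩
    · rw [add_comm]; exact h2 x hx g hg
    · rw [Set.ncard_coe_finset, Nat.card_eq_fintype_card, hN] at h3
      exact Nat.lt_of_mul_lt_mul_left h3
    · rw [← Finset.coe_nsmul, h, Finset.coe_univ]
  · rintro ⟨H, B, h1, h2, h3, h4, h5⟩
    refine ⟨H, B, by rwa [card_fs] at h1, fun b hb g hg => ?_, ?_, h4, fun h => h5 ?_⟩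
    · rw [add_comm]; exact h2 hg b hb
    · rw [Set.ncard_coe_finset, Nat.card_eq_fintype_card, hN]
      exact Nat.mul_lt_mul_of_pos_left h3 (by omega)
    · rw [← Finset.coe_nsmul] at h
      exact Finset.coe_eq_univ.1 h

end

lemma ar1_Fin {m t s d : ℕ} (hm : 2 ≤ m) (hs : 2 ≤ s) (h1 : t * (s - 1) + 2 ≤ d)
    (h2 : d < m * s) : t + 3 ≤ 2 * m := by
  obtain ⟨r, rfl⟩ : ∃ r, s = r + 2 := ⟨s - 2, by omega⟩
  rw [show r + 2 - 1 = r + 1 by omega] at h1
  by_contra h
  obtain ⟨u, rfl⟩ : ∃ u, m = u + 2 := ⟨m - 2, by omega⟩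
  have h3 : (2 * u + 2) * (r + 1) ≤ t * (r + 1) := Nat.mul_le_mul_right _ (by omega)
  nlinarith [Nat.zero_le (u * r)]

lemma ar2_Fin {m t s d : ℕ} (hm : m ≤ t) (hs : 2 ≤ s) (h1 : t * (s - 1) + 2 ≤ d)
    (h2 : d < m * s) : m < d ∧ 2 ≤ d % m ∧ t ≤ (d - 2) / (d / m) := by
  obtain ⟨r, rfl⟩ : ∃ r, s = r + 1 := ⟨s - 1, by omega⟩
  rw [Nat.add_sub_cancel] at h1
  have h3 : m * r ≤ t * r := Nat.mul_le_mul_right _ hm
  have h4 : m ≤ m * r := Nat.le_mul_of_pos_right _ (by omega)
  rw [mul_add, mul_one] at h2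
  have h5 : d / m = r := Nat.div_eq_of_lt_le (by rw [mul_comm]; omega)
    (by rw [add_mul, one_mul, mul_comm]; omega)
  have h6 := Nat.div_add_mod d m
  rw [h5] at h6
  refine ⟨by omega, by omega, ?_⟩
  rw [h5, Nat.le_div_iff_mul_le (by omega)]
  omega

theorem main_Fin (hR : R_st) (hT : TOR_st) (hC : CORE_st) (hCOV : COV_st) (hLOW : LOW_st)
    (hCYC : CYC_st) (hP : PRED_st) (m : ℕ) (hm : 2 ≤ m) :
    ∃ C : ℕ, ∀ (G : Type) [AddCommGroup G] [Fintype G],
      Fintype.card G = m * AddMonoid.exponent G → C ≤ AddMonoid.exponent G →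
      AddMonoid.exponent G + max (m - 1) (critT G m) ≤ tauHat G (AddMonoid.exponent G) ∧
      tauHat G (AddMonoid.exponent G) ≤ AddMonoid.exponent G + max m (critT G m) ∧
      (∀ d : ℕ, d ∣ AddMonoid.exponent G → m < d → 4 * m * d ≤ AddMonoid.exponent G →
        (d - 2) / (d / m) ≤ critT G m) ∧
      (m ≤ critT G m → ∃ d : ℕ, d ∣ m * AddMonoid.exponent G ∧ m < d ∧
        4 * m * d ≤ AddMonoid.exponent G ∧ 2 ≤ d % m ∧ critT G m ≤ (d - 2) / (d / m)) := by
  obtain ⟨C, hC'⟩ := upper_Fin hR hT hC hm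
  refine ⟨C + 2 * m ^ 3, fun G _ _ hN hn => ?_⟩
  classical
  set n := AddMonoid.exponent G with hn'
  let P : ℕ → Prop := fun t => ∃ (H : AddSubgroup G) (B : Finset G), 4 * m ^ 2 ≤ (fs H).card ∧
    H ≤ stab B ∧ n < B.card ∧ AddSubgroup.closure ((B : Set G) - (B : Set G)) = ⊤ ∧ t • B ≠ univ
  have hS : critT G m = sSup {t | P t} := by
    unfold critT
    congr 1
    ext t
    exact bridge_Fin hm hN
  have hb : ∀ t, P t → t + 3 ≤ 2 * m := by
    rintro t ⟨H, B, -, -, h3, h4, h5⟩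
    rcases Nat.eq_zero_or_pos t with rfl | ht
    · omega
    obtain ⟨s, a1, a2, a3⟩ := hCOV G B m t
      (hN ▸ Nat.mul_lt_mul_of_pos_left h3 (by omega)) h4 ht h5
    exact ar1_Fin hm a1 a2 a3
  have hbdd : BddAbove {t | P t} := ⟨2 * m, fun t ht => by have := hb t ht; omega⟩
  have hle : ∀ t, P t → t ≤ critT G m := fun t ht => hS ▸ le_csSup hbdd ht
  have hmem : 1 ≤ critT G m → P (critT G m) := by
    intro h
    rcases Set.eq_empty_or_nonempty {t | P t} with h0 | h0
    · rw [hS, h0] at h; simp at h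
    · rw [hS]; exact Nat.sSup_mem h0 hbdd
  refine ⟨?_, ?_, fun d h1 h2 h3 => hle _ (hCYC G m d hm hN h1 h2 h3), fun h => ?_⟩
  · rcases le_total (critT G m) (m - 1) with h | h
    · rw [max_eq_left h]; exact hP G m hm hN (by omega)
    · rw [max_eq_right h]
      obtain ⟨H, B, h1, h2, h3, h4, h5⟩ := hmem (by omega)
      exact le_tauHat (hLOW G B H m n _ hm hN h1 h2 h3 h4 (by omega) h5)
  · refine tauHat_le fun A hA => ?_
    have h1 : max m (critT G m) + 1 ≤ 2 * m := by
      rcases le_total (critT G m) m with h | h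
      · rw [max_eq_left h]; omega
      · rw [max_eq_right h]; have := hb _ (hmem (by omega)); omega
    rcases hC' G hN (by omega) (max m (critT G m) + 1) A (by have := le_max_left m (critT G m); omega)
      h1 hA with ⟨U, hU, h2, h3⟩ | h2
    · refine ⟨A \ U, Finset.sdiff_subset, by rw [Finset.card_sdiff_of_subset hU]; omega, ?_⟩
      have := Finset.sum_sdiff (f := fun x : G => x) hU
      rw [h3] at this
      simpa using this
    · have := hle _ h2
      have := le_max_right m (critT G m)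
      omega
  · obtain ⟨H, B, h1, h2, h3, h4, h5⟩ := hmem (by omega)
    obtain ⟨s, a1, a2, a3⟩ := hCOV G B m _
      (hN ▸ Nat.mul_lt_mul_of_pos_left h3 (by omega)) h4 (by omega) h5
    obtain ⟨b1, b2, b3⟩ := ar2_Fin h a1 a2 a3
    have c1 := idx_mul_Core (stab (critT G m • B))
    refine ⟨_, ⟨_, by rw [← hN, c1]⟩, b1, ?_, b2, b3⟩
    have c2 : H ≤ stab (critT G m • B) := by
      obtain ⟨k, hk⟩ : ∃ k, critT G m = k + 1 := ⟨critT G m - 1, by omega⟩
      rw [hk, succ_nsmul]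
      exact h2.trans (stab_le_add' _ _)
    have c3 := h1.trans (Nat.le_of_dvd (fs_pos _) (card_fs_dvd c2))
    refine Nat.le_of_mul_le_mul_left ?_ (show 0 < m by omega)
    rw [← hN, ← c1]
    calc m * (4 * m * (stab (critT G m • B)).index)
        = (stab (critT G m • B)).index * (4 * m ^ 2) := by ring
      _ ≤ _ := Nat.mul_le_mul_left _ c3

end Pool.Agent.MP_f9a021_co.BD

end

section
open Pointwise

namespace Pool.Agent.MP_f9a021_co.BD

lemma coverT_eq (G : Type*) [AddCommGroup G] (m : ℕ) : coverT G m = critT G m := by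
  unfold coverT critT
  congr 1
  ext t
  refine exists_congr fun H => exists_congr fun B => ?_
  have h1 : {x : G | ∃ a ∈ B, ∃ b ∈ B, x = a - b} = B - B := by
    ext x; simp only [Set.mem_setOf_eq, Set.mem_sub, eq_comm]
  have h2 : (∃ y : G, ∀ f : Fin t → G, (∀ i, f i ∈ B) → ∑ i, f i ≠ y) ↔ t • B ≠ Set.univ := by
    rw [Ne, Set.eq_univ_iff_forall, not_forall]
    refine exists_congr fun y => ?_
    rw [Set.mem_nsmul]
    constructor
    · rintro h ⟨f, hf⟩
      rw [List.sum_ofFn] at hf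
      exact h (fun i => f i) (fun i => (f i).2) hf
    · intro h f hf hy
      exact h ⟨fun i => ⟨f i, hf i⟩, by rw [List.sum_ofFn]; exact hy⟩
  rw [h1, h2]

end Pool.Agent.MP_f9a021_co.BD

end
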