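import Pool.Agent.MP_f9a021_co.BD.St

/-! The robust Kneser step. -/

open Finset Pointwise

namespace Pool.Agent.MP_f9a021_co.BD

section

variable {G : Type} [AddCommGroup G] [Fintype G] [DecidableEq G] {K : AddSubgroup G}
  {A : Finset G} {a : G} {T : ℕ}

lemma sub_RK (hA : A ⊆ cos K a) (hT : 0 < T) (j : ℕ) : pop A T j ⊆ cos K ((j + 1) • a) := by
  induction j with
  | zero => simpa using hA
  | succ j ih =>
    intro y hy
    obtain ⟨b, hb⟩ := card_pos.1 (hT.trans_le (mem_pop_succ.1 hy))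
    obtain ⟨h1, h2⟩ := mem_filter.1 hb
    have h3 := K.add_mem (mem_cos.1 (ih h2)) (mem_cos.1 (hA h1))
    have e : y - (j + 1 + 1) • a = y - b - (j + 1) • a + (b - a) := by
      rw [succ_nsmul a (j + 1)]
      abel
    rw [mem_cos, e]
    exact h3

lemma count_RK (j : ℕ) :
    ((pop A T j ×ˢ A).filter fun p => p.1 + p.2 ∈ univ \ pop A T (j + 1)).card ≤
      T * Fintype.card G := by
  refine (card_le_mul_card_image_of_maps_to (f := fun p : G × G => p.1 + p.2)
    (t := univ \ pop A T (j + 1)) (fun p hp => (mem_filter.1 hp).2) T fun c hc => ?_).trans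
    (Nat.mul_le_mul_left T (card_le_univ _))
  have h1 : (A.filter fun b => c - b ∈ pop A T j).card < T :=
    not_le.1 fun h => (mem_sdiff.1 hc).2 (mem_pop_succ.2 h)
  refine le_trans (card_le_card_of_injOn Prod.snd (fun p hp => ?_) fun p hp q hq e => ?_) h1.le
  · obtain ⟨h2, h3⟩ := mem_filter.1 (mem_coe.1 hp)
    obtain ⟨h4, h5⟩ := mem_product.1 (mem_filter.1 h2).1
    refine mem_coe.2 (mem_filter.2 ⟨h5, ?_⟩)
    rw [← h3, add_sub_cancel_right]
    exact h4
  · have h2 := (mem_filter.1 (mem_coe.1 hp)).2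
    have h3 := (mem_filter.1 (mem_coe.1 hq)).2
    refine Prod.ext ?_ e
    rw [← h3, e] at h2
    exact add_right_cancel h2

lemma full_RK (hA : A ⊆ cos K a) (hT : 0 < T) {j : ℕ}
    (h : (fs K).card + T ≤ (pop A T j).card + A.card) :
    cos K ((j + 1 + 1) • a) ⊆ pop A T (j + 1) := by
  intro z hz
  have h1 : (pop A T j).image (fun s => z - s) ⊆ cos K a := by
    intro x hx
    obtain ⟨s, hs, rfl⟩ := mem_image.1 hx
    have h3 := K.sub_mem (mem_cos.1 hz) (mem_cos.1 (sub_RK hA hT j hs))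
    have e : z - s - a = z - (j + 1 + 1) • a - (s - (j + 1) • a) := by
      rw [succ_nsmul a (j + 1)]
      abel
    rw [mem_cos, e]
    exact h3
  have h2 := card_union_add_card_inter A ((pop A T j).image fun s => z - s)
  have h3 := card_le_card (union_subset hA h1)
  rw [card_cos] at h3
  rw [card_image_of_injective _ sub_right_injective] at h2
  refine mem_pop_succ.2 (le_trans (by omega : T ≤ (A ∩ (pop A T j).image fun s => z - s).card)
    (card_le_card fun x hx => ?_))
  obtain ⟨h4, h5⟩ := mem_inter.1 hx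
  obtain ⟨s, hs, rfl⟩ := mem_image.1 h5
  exact mem_filter.2 ⟨h4, by rwa [sub_sub_cancel]⟩

lemma up_RK (hA : A ⊆ cos K a) (hT : T ≤ A.card) {j i : ℕ} (hi : j ≤ i)
    (h : cos K ((j + 1) • a) ⊆ pop A T j) : cos K ((i + 1) • a) ⊆ pop A T i := by
  induction i, hi using Nat.le_induction with
  | base => exact h
  | succ i _ ih =>
    intro z hz
    refine mem_pop_succ.2 (hT.trans (card_le_card fun b hb => mem_filter.2 ⟨hb, ih ?_⟩))
    have h3 := K.sub_mem (mem_cos.1 hz) (mem_cos.1 (hA hb))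
    have e : z - b - (i + 1) • a = z - (i + 1 + 1) • a - (b - a) := by
      rw [succ_nsmul a (i + 1)]
      abel
    rw [mem_cos, e]
    exact h3

lemma step_RK (hS : STR_st) (hA : A ⊆ cos K a) (hT : 0 < T) {e g h j i : ℕ} (hR : Rem G T e)
    (h1 : e < A.card) (h2 : e < (pop A T j).card) (hg : e + T ≤ g)
    (hg' : (j + 1) * T * Fintype.card G + e * g < g * g) (hi : j + 2 ≤ i) :
    (∃ H ≤ K, h ≤ (fs H).card ∧ (i + 1) • rob A H g ⊆ pop A T i) ∨
      (pop A T j).card + A.card ≤ (pop A T (j + 1)).card + (h + 3 * e) := by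
  obtain ⟨S', s1, A', a1, C', c1, s2, a2, c2, hn⟩ := hR _ _ _ (count_RK (A := A) (T := T) j)
  have s3 := card_sdiff_add_card_eq_card s1
  have a3 := card_sdiff_add_card_eq_card a1
  have s4 : S'.Nonempty := card_pos.1 (by omega)
  have a4 : A'.Nonempty := card_pos.1 (by omega)
  have hsub : S' + A' ⊆ pop A T (j + 1) ∪ ((univ \ pop A T (j + 1)) \ C') := by
    intro z hz
    obtain ⟨s, hs, b, hb, rfl⟩ := mem_add.1 hz
    by_cases c : s + b ∈ pop A T (j + 1)
    · exact mem_union_left _ c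
    · exact mem_union_right _ (mem_sdiff.2 ⟨mem_sdiff.2 ⟨mem_univ _, c⟩, hn s hs b hb⟩)
  have hK : ∀ z ∈ S' + A', z - ((j + 1) • a + a) ∈ K := by
    intro z hz
    obtain ⟨s, hs, b, hb, rfl⟩ := mem_add.1 hz
    rw [add_sub_add_comm]
    exact K.add_mem (mem_cos.1 (sub_RK hA hT j (s1 hs))) (mem_cos.1 (hA (a1 hb)))
  by_cases hh : h ≤ (fs (stab (S' + A'))).card
  · refine Or.inl ⟨stab (S' + A'), fun x hx => ?_, hh,
      hS G A S' A' _ _ T e g j i s1 a1 s2 a2 c2 hsub le_rfl hg hg' hi⟩
    obtain ⟨z, hz⟩ := s4.add a4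
    simpa using K.sub_mem (hK _ (hx z hz)) (hK z hz)
  · have k1 := kneser S' A' s4 a4
    have k2 := card_le_add_fs S' (stab (S' + A'))
    have k3 := card_le_add_fs A' (stab (S' + A'))
    have k4 := (card_le_card hsub).trans (card_union_le _ _)
    unfold Kn at k1
    omega

end

theorem RK_pf (h : STR_st) : RK_st := by
  intro G _ _ _ K A a y T e g n J i hR hA hJ hi hT hTA hc hg hg' hy hn
  by_contra hcon
  have h1 : A.card ≤ (fs K).card := card_cos K a ▸ card_le_card hA
  have h2 : n + 3 * e < A.card := by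
    by_contra c
    have := Nat.mul_le_mul_left J (not_lt.1 c)
    nlinarith
  have key : ∀ j, j + 1 ≤ J → (j + 1) * A.card ≤ (pop A T j).card + j * (n + 3 * e) := by
    intro j
    induction j with
    | zero => simp
    | succ j ih =>
      intro hj
      have ih := ih (by omega)
      have h3 := Nat.mul_le_mul_left j h2.le
      have h4 : (j + 1) * T * Fintype.card G ≤ J * T * Fintype.card G := by gcongr; omega
      rcases step_RK (h := n) (i := i) h hA hT hR (by omega) (j := j) (by nlinarith) hg (by omega)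
        (by omega) with ⟨H, a1, a2, a3⟩ | c
      · exact absurd ⟨H, a1, a2, fun c => hn (a3 c)⟩ hcon
      · nlinarith
  obtain ⟨j, rfl⟩ : ∃ j, J = j + 1 := ⟨J - 1, by omega⟩
  have h3 := key j le_rfl
  exact hn (up_RK hA hTA hi (full_RK hA hT (by nlinarith)) (mem_cos.2 hy))

end Pool.Agent.MP_f9a021_co.BD
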