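import Pool.Agent.MP_f9a021_co.BD.St

open Finset Pointwise

namespace Pool.Agent.MP_f9a021_co.BD

open SimpleGraph TripartiteFromTriangles

section
variable {G : Type} [AddCommGroup G] [Fintype G] [DecidableEq G]

/-- triangles attached to a set of pairs -/
def tri_Rem (P : Finset (G × G)) : Finset (G × G × G) :=
  univ.filter fun u => (u.2.1 - u.1, u.2.2 - u.2.1) ∈ P

/-- pairs with distinct first entries, second entries and sums -/
def Mt_Rem (P : Finset (G × G)) : Prop :=
  ∀ p ∈ P, ∀ q ∈ P, (p.1 = q.1 ∨ p.2 = q.2 ∨ p.1 + p.2 = q.1 + q.2) → p = q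

theorem mem_Rem {P : Finset (G × G)} {a b c : G} : (a, b, c) ∈ tri_Rem P ↔ (b - a, c - b) ∈ P := by
  simp [tri_Rem]

theorem card_Rem (P : Finset (G × G)) : (tri_Rem P).card = Fintype.card G * P.card := by
  rw [← card_univ, ← card_product]
  refine card_nbij' (fun u => (u.1, u.2.1 - u.1, u.2.2 - u.2.1))
    (fun u => (u.1, u.1 + u.2.1, u.1 + u.2.1 + u.2.2)) ?_ ?_ ?_ ?_
  · rintro ⟨a, b, c⟩ h
    simpa using mem_Rem.1 h
  · rintro ⟨a, b, c⟩ h
    exact mem_Rem.2 (by simpa using h)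
  · rintro ⟨a, b, c⟩ -
    simp
  · rintro ⟨a, b, c⟩ -
    simp

theorem disj_Rem {P : Finset (G × G)} (h : Mt_Rem P) : ExplicitDisjoint (tri_Rem P) := by
  constructor
  · intro a b c a' h1 h2
    have := h _ (mem_Rem.1 h1) _ (mem_Rem.1 h2) (.inr (.inl rfl))
    simpa using this
  · intro a b c b' h1 h2
    have := h _ (mem_Rem.1 h1) _ (mem_Rem.1 h2) (.inr (.inr (by simp)))
    exact sub_left_injective (Prod.mk.inj this).1
  · intro a b c c' h1 h2
    have := h _ (mem_Rem.1 h1) _ (mem_Rem.1 h2) (.inl rfl)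
    simpa using this

theorem count_Rem {A B C : Finset G} {P : Finset (G × G)} (h : Mt_Rem P)
    (hP : P ⊆ (A ×ˢ B).filter fun p => p.1 + p.2 ∈ C) {ε : ℝ}
    (hε : 9 * ε * Fintype.card G ≤ P.card) :
    triangleRemovalBound ε * (3 * Fintype.card G) ^ 3 ≤
      Fintype.card G * ((A ×ˢ B).filter fun p => p.1 + p.2 ∈ C).card := by
  classical
  haveI := disj_Rem h
  have h1 : (graph (tri_Rem P)).FarFromTriangleFree ε := by
    refine farFromTriangleFree _ ?_
    rw [card_Rem]
    push_cast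
    nlinarith [mul_le_mul_of_nonneg_left hε (Nat.cast_nonneg (α := ℝ) (Fintype.card G))]
  have h2 := h1.le_card_cliqueFinset
  have h3 : (graph (tri_Rem P)).cliqueFinset 3 ⊆
      (tri_Rem ((A ×ˢ B).filter fun p => p.1 + p.2 ∈ C)).map toTriangle := by
    intro s hs
    obtain ⟨x, y, z, hxy, hxz, hyz, rfl⟩ := SimpleGraph.is3Clique_iff.1 (mem_cliqueFinset_iff.1 hs)
    obtain ⟨a, b, c, habc, hab, hac, hbc⟩ := graph_triple hxy hxz hyz
    obtain ⟨c', hc'⟩ := Graph.in₀₁_iff.1 hab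
    obtain ⟨b', hb'⟩ := Graph.in₀₂_iff.1 hac
    obtain ⟨a', ha'⟩ := Graph.in₁₂_iff.1 hbc
    have e1 := mem_filter.1 (hP (mem_Rem.1 hc'))
    have e2 := mem_filter.1 (hP (mem_Rem.1 hb'))
    have e3 := mem_filter.1 (hP (mem_Rem.1 ha'))
    refine mem_map.2 ⟨(a, b, c), mem_Rem.2 (mem_filter.2 ⟨mem_product.2
      ⟨(mem_product.1 e1.1).1, (mem_product.1 e3.1).2⟩, ?_⟩), habc⟩
    simpa using e2.2
  have h4 := card_le_card h3
  rw [card_map, card_Rem] at h4
  have h5 : (Fintype.card (G ⊕ G ⊕ G) : ℝ) = 3 * Fintype.card G := by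
    simp only [Fintype.card_sum]
    push_cast
    ring
  rw [h5] at h2
  exact h2.trans (by exact_mod_cast h4)

theorem diff_Rem {P : Finset (G × G)} (f : G × G → G) (A : Finset G) :
    (A \ (A \ P.image f)).card ≤ P.card :=
  (card_le_card (by rw [sdiff_sdiff_self_left]; exact inter_subset_right)).trans card_image_le

end

theorem R_pf : R_st := by
  classical
  intro T M hM
  have M0 : (0 : ℝ) < M := by exact_mod_cast hM
  have b0 := triangleRemovalBound_pos (ε := 1 / (9 * M)) (by positivity)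
  obtain ⟨N₀, hN⟩ := exists_nat_gt (T / (27 * triangleRemovalBound (1 / (9 * M))) : ℝ)
  refine ⟨N₀, fun G _ _ _ hG A B C hs => ?_⟩
  obtain ⟨P, hP, hm⟩ := exists_max_image
    ((((A ×ˢ B).filter fun p => p.1 + p.2 ∈ C).powerset).filter Mt_Rem) card
    ⟨∅, by simp [Mt_Rem]⟩
  obtain ⟨h1, h2⟩ := mem_filter.1 hP
  rw [mem_powerset] at h1
  by_cases c : P.card ≤ Fintype.card G / M
  · refine ⟨A \ P.image Prod.fst, sdiff_subset, B \ P.image Prod.snd, sdiff_subset,
      C \ P.image (fun p => p.1 + p.2), sdiff_subset, (diff_Rem _ _).trans c,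
      (diff_Rem _ _).trans c, (diff_Rem _ _).trans c, fun a ha b hb hc => ?_⟩
    simp only [mem_sdiff, mem_image, not_exists, not_and] at ha hb hc
    have n : (a, b) ∉ P := fun h => ha.2 _ h rfl
    have k : ∀ q ∈ P, ¬ (q.1 = a ∨ q.2 = b ∨ q.1 + q.2 = a + b) := fun q hq => by
      rintro (e | e | e)
      exacts [ha.2 q hq e, hb.2 q hq e, hc.2 q hq e]
    have := hm (insert (a, b) P) (mem_filter.2 ⟨mem_powerset.2 (insert_subset
      (mem_filter.2 ⟨mem_product.2 ⟨ha.1, hb.1⟩, hc.1⟩) h1), fun p hp q hq e => ?_⟩)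
    · rw [card_insert_of_notMem n] at this
      omega
    · rcases mem_insert.1 hp with rfl | hp <;> rcases mem_insert.1 hq with rfl | hq
      · rfl
      · exact (k q hq (e.imp Eq.symm (Or.imp Eq.symm Eq.symm))).elim
      · exact (k p hp e).elim
      · exact h2 p hp q hq e
  · exfalso
    have c1 : Fintype.card G < P.card * M := (Nat.div_lt_iff_lt_mul hM).1 (not_le.1 c)
    have c2 : (Fintype.card G : ℝ) ≤ P.card * M := by exact_mod_cast c1.le
    have h3 := count_Rem (ε := 1 / (9 * M)) h2 h1 (by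
      rw [show 9 * (1 / (9 * (M : ℝ))) * Fintype.card G = Fintype.card G / M by field_simp,
        div_le_iff₀ M0]
      exact c2)
    have N0 : (0 : ℝ) < Fintype.card G := by exact_mod_cast Fintype.card_pos
    have h4 : (((A ×ˢ B).filter fun p => p.1 + p.2 ∈ C).card : ℝ) ≤ T * Fintype.card G := by
      exact_mod_cast hs
    have h5 : (N₀ : ℝ) ≤ Fintype.card G := by exact_mod_cast hG
    have h6 := (div_lt_iff₀ (by positivity)).1 (hN.trans_le h5)
    have h7 := h3.trans (mul_le_mul_of_nonneg_left h4 N0.le)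
    nlinarith [mul_lt_mul_of_pos_right h6 (pow_pos N0 2)]

end Pool.Agent.MP_f9a021_co.BD
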