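import Pool.Agent.MP_f9a021_co.BD.St

/-! Four small steps. -/

open Finset Pointwise

namespace Pool.Agent.MP_f9a021_co.BD

theorem REP_pf : REP_st := by
  intro G _ _ _ A T D j f y hD
  induction j generalizing f y with
  | zero =>
    intro hT hy F hF
    rw [mem_pop_succ, pop_zero] at hy
    have hc : (F ∪ F.image (fun x => y - x) ∪ univ.filter fun a : G => a + a = y).card <
        (A.filter fun a => y - a ∈ A).card := by
      have h1 := card_union_le (F ∪ F.image (fun x => y - x)) (univ.filter fun a : G => a + a = y)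
      have h2 := card_union_le F (F.image (fun x => y - x))
      have h3 : (F.image (fun x => y - x)).card ≤ F.card := card_image_le
      have h4 := hD y
      omega
    obtain ⟨a, ha, hb⟩ := exists_mem_notMem_of_card_lt_card hc
    rw [mem_filter] at ha
    simp only [mem_union, mem_image, mem_filter, mem_univ, true_and, not_or, not_exists,
      not_and] at hb
    have hne : a ≠ y - a := fun h => hb.2 (by rw [eq_sub_iff_add_eq] at h; exact h)
    refine ⟨{a, y - a}, ?_, ?_, card_pair hne, by rw [sum_pair hne]; abel⟩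
    · intro x hx
      rcases mem_insert.1 hx with rfl | hx
      · exact ha.1
      · rw [mem_singleton.1 hx]; exact ha.2
    · rw [disjoint_left]
      intro x hx hxF
      rcases mem_insert.1 hx with rfl | hx
      · exact hb.1.1 hxF
      · exact hb.1.2 x hxF (by rw [mem_singleton.1 hx]; abel)
  | succ j ih =>
    intro hT hy F hF
    rw [mem_pop_succ] at hy
    obtain ⟨a, ha, hb⟩ := exists_mem_notMem_of_card_lt_card
      (show F.card < (A.filter fun a => y - a ∈ pop A T (j + 1)).card by omega)
    rw [mem_filter] at ha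
    obtain ⟨U, hUA, hUF, hUc, hUs⟩ := ih (f + 1) (y - a) (by omega) ha.2 (insert a F)
      ((card_insert_le _ _).trans (by omega))
    rw [disjoint_insert_right] at hUF
    refine ⟨insert a U, insert_subset ha.1 hUA, disjoint_insert_left.2 ⟨hb, hUF.2⟩, ?_, ?_⟩
    · rw [card_insert_of_notMem hUF.1, hUc]
    · rw [sum_insert hUF.1, hUs]; abel

lemma sums_Small {α Q : Type} [DecidableEq α] [AddCommGroup Q] [DecidableEq Q] (φ : α → Q)
    (F : Finset α) (h : ∀ U ⊆ F, U.Nonempty → ∑ x ∈ U, φ x ≠ 0) :
    F.card < (F.powerset.image fun U => ∑ x ∈ U, φ x).card := by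
  induction F using Finset.induction_on with
  | empty => simp
  | insert x F hx ih =>
    have h1 := ih fun U hU => h U (hU.trans (subset_insert _ _))
    have h2 : ∑ z ∈ insert x F, φ z ∉ F.powerset.image fun U => ∑ x ∈ U, φ x := by
      intro h2
      obtain ⟨U, hU, hs⟩ := mem_image.1 h2
      rw [mem_powerset] at hU
      have h3 := sum_sdiff (f := φ) (hU.trans (subset_insert x F))
      refine h (insert x F \ U) sdiff_subset
        ⟨x, mem_sdiff.2 ⟨mem_insert_self _ _, fun h4 => hx (hU h4)⟩⟩ ?_
      rw [← hs] at h3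
      exact add_eq_right.1 h3
    have h3 : insert (∑ z ∈ insert x F, φ z) (F.powerset.image fun U => ∑ x ∈ U, φ x) ⊆
        (insert x F).powerset.image fun U => ∑ x ∈ U, φ x :=
      insert_subset (mem_image.2 ⟨_, mem_powerset_self _, rfl⟩)
        (image_subset_image (powerset_mono.2 (subset_insert _ _)))
    have h4 := card_le_card h3
    rw [card_insert_of_notMem h2] at h4
    rw [card_insert_of_notMem hx]
    omega

theorem DAV_pf : DAV_st := by
  intro G _ _ _ K E a
  classical
  obtain ⟨E', hE', hmax⟩ := exists_max_image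
    (E.powerset.filter fun U => ∑ x ∈ U, x - U.card • a ∈ K) card
    ⟨∅, by simp⟩
  rw [mem_filter, mem_powerset] at hE'
  refine ⟨E \ E', sdiff_subset, ?_, by rw [Finset.sdiff_sdiff_eq_self hE'.1]; exact hE'.2⟩
  have h1 := sums_Small (fun x => (QuotientAddGroup.mk' K (x - a) : G ⧸ K)) (E \ E') (by
    intro U hU hne h0
    rw [← map_sum, QuotientAddGroup.mk'_apply, QuotientAddGroup.eq_zero_iff, sum_sub_distrib,
      sum_const] at h0
    have hd : Disjoint E' U := disjoint_of_subset_right hU disjoint_sdiff
    have h2 := hmax (E' ∪ U) (by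
      rw [mem_filter, mem_powerset, sum_union hd, card_union_of_disjoint hd, add_nsmul]
      refine ⟨union_subset hE'.1 (hU.trans sdiff_subset), ?_⟩
      have := K.add_mem hE'.2 h0
      rwa [← add_sub_add_comm] at this)
    rw [card_union_of_disjoint hd] at h2
    have := hne.card_pos
    omega)
  refine h1.trans_le ?_
  rw [AddSubgroup.index_eq_card, Nat.card_eq_fintype_card]
  exact card_le_univ _

theorem TOR_pf : TOR_st := by
  intro G _ _ _ m hm z
  obtain ⟨φ, hφ⟩ : ∃ φ : G →+ G, ∀ x, φ x = x + x :=
    ⟨AddMonoidHom.id G + AddMonoidHom.id G, fun _ => rfl⟩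
  have h1 : Nat.card φ.ker * Nat.card φ.range = Fintype.card G := by
    rw [← AddSubgroup.index_ker, AddSubgroup.card_mul_index, Nat.card_eq_fintype_card]
  have hr : 0 < Nat.card φ.range := Nat.card_pos
  have h2 : AddMonoid.exponent G ∣ Nat.card φ.range * 2 := by
    apply AddMonoid.exponent_dvd_of_forall_nsmul_eq_zero
    intro g
    have h3 := congrArg Subtype.val (card_nsmul_eq_zero' (x := (⟨φ g, g, rfl⟩ : φ.range)))
    rw [mul_nsmul', two_nsmul, ← hφ]
    exact h3
  have h3 := Nat.le_of_dvd (by omega) h2
  have h4 : Nat.card φ.ker ≤ 2 * m := by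
    apply Nat.le_of_mul_le_mul_right _ hr
    rw [h1, hm]
    calc m * AddMonoid.exponent G ≤ m * (Nat.card φ.range * 2) := Nat.mul_le_mul_left _ h3
      _ = _ := by ring
  refine le_trans ?_ h4
  rcases (univ.filter fun a : G => a + a = z).eq_empty_or_nonempty with h | ⟨b, hb⟩
  · rw [h]; simp
  · rw [← card_fs, ← card_cos _ b]
    apply card_le_card
    intro x hx
    rw [mem_filter] at hx hb
    rw [mem_cos, AddMonoidHom.mem_ker, hφ, ← add_sub_add_comm, hx.2, hb.2, sub_self]

theorem ROB_pf : ROB_st := by
  intro G _ _ _ A H g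
  classical
  refine ⟨fun h hh x hx => ?_, ?_⟩
  · rw [mem_rob] at hx ⊢
    refine hx.trans (card_le_card (inter_subset_inter_left fun a ha => ?_))
    rw [mem_cos] at ha ⊢
    have := H.sub_mem ha hh
    rwa [sub_sub, add_comm] at this
  · rw [mul_comm g, ← card_univ]
    refine card_mul_le_card_mul (fun a x => x - a ∈ H) (fun a _ => ?_) (fun x _ => ?_)
    · rw [← card_cos H a]
      apply card_le_card
      intro x hx
      exact (mem_bipartiteAbove _).2 ⟨mem_univ _, mem_cos.1 hx⟩
    · rcases ((A \ rob A H g).bipartiteBelow (fun a x => x - a ∈ H) x).eq_empty_or_nonempty with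
        h | ⟨b, hb⟩
      · rw [h]; simp
      · rw [mem_bipartiteBelow, mem_sdiff, mem_rob, not_le] at hb
        refine le_trans (card_le_card fun a ha => ?_) hb.1.2.le
        rw [mem_bipartiteBelow, mem_sdiff] at ha
        refine mem_inter.2 ⟨ha.1.1, mem_cos.2 ?_⟩
        have := H.sub_mem hb.2 ha.2
        rwa [sub_sub_sub_cancel_left] at this

end Pool.Agent.MP_f9a021_co.BD
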