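import Pool.Agent.Mg.Ff9a021.G4a7582
import Pool.Agent.MP_f9a021_co.BD.Defs

/-! Statements of the steps for groups with bounded `|G| / exp G`. -/

open Finset Pointwise

namespace Pool.Agent.MP_f9a021_co.BD

/-- Iterated popular sums: `pop A T j` plays the role of the `(j + 1)`-fold sumset. -/
def pop {G : Type} [AddCommGroup G] [Fintype G] [DecidableEq G] (A : Finset G) (T : ℕ) :
    ℕ → Finset G
  | 0 => A
  | j + 1 => univ.filter fun y => T ≤ (A.filter fun a => y - a ∈ pop A T j).card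

@[simp] lemma pop_zero {G : Type} [AddCommGroup G] [Fintype G] [DecidableEq G] (A : Finset G)
    (T : ℕ) : pop A T 0 = A := rfl

lemma mem_pop_succ {G : Type} [AddCommGroup G] [Fintype G] [DecidableEq G] {A : Finset G}
    {T j : ℕ} {y : G} :
    y ∈ pop A T (j + 1) ↔ T ≤ (A.filter fun a => y - a ∈ pop A T j).card := by
  simp [pop]

/-- Arithmetic removal with budget `e` for at most `T * |G|` solutions of `a + b = c`. -/
def Rem (G : Type) [AddCommGroup G] [Fintype G] [DecidableEq G] (T e : ℕ) : Prop :=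
  ∀ A B C : Finset G, ((A ×ˢ B).filter fun p => p.1 + p.2 ∈ C).card ≤ T * Fintype.card G →
    ∃ A' ⊆ A, ∃ B' ⊆ B, ∃ C' ⊆ C, (A \ A').card ≤ e ∧ (B \ B').card ≤ e ∧ (C \ C').card ≤ e ∧
      ∀ a ∈ A', ∀ b ∈ B', a + b ∉ C'

/-- The union of the cosets of `H` that hold at least `g` elements of `A`. -/
noncomputable def rob {G : Type} [AddCommGroup G] [Fintype G] [DecidableEq G] (A : Finset G)
    (H : AddSubgroup G) (g : ℕ) : Finset G := univ.filter fun x => g ≤ (A ∩ cos H x).card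

lemma mem_rob {G : Type} [AddCommGroup G] [Fintype G] [DecidableEq G] {A : Finset G}
    {H : AddSubgroup G} {g : ℕ} {x : G} : x ∈ rob A H g ↔ g ≤ (A ∩ cos H x).card := by
  simp [rob]

def R_st : Prop :=
  ∀ T M : ℕ, 0 < M → ∃ N₀ : ℕ, ∀ (G : Type) [AddCommGroup G] [Fintype G] [DecidableEq G],
    N₀ ≤ Fintype.card G → Rem G T (Fintype.card G / M)

/-- The structured branch of the robust Kneser step. -/
def STR_st : Prop :=
  ∀ (G : Type) [AddCommGroup G] [Fintype G] [DecidableEq G] (A S' A' Z : Finset G)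
    (H : AddSubgroup G) (T e g j i : ℕ), S' ⊆ pop A T j → A' ⊆ A → (pop A T j \ S').card ≤ e →
    (A \ A').card ≤ e → Z.card ≤ e → S' + A' ⊆ pop A T (j + 1) ∪ Z → H ≤ stab (S' + A') →
    e + T ≤ g → (j + 1) * T * Fintype.card G + e * g < g * g → j + 2 ≤ i →
    (i + 1) • rob A H g ⊆ pop A T i

def RK_st : Prop :=
  ∀ (G : Type) [AddCommGroup G] [Fintype G] [DecidableEq G] (K : AddSubgroup G) (A : Finset G)
    (a y : G) (T e g h J i : ℕ), Rem G T e → A ⊆ cos K a → 1 ≤ J → J ≤ i → 0 < T →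
    T ≤ A.card → J * (h + 3 * e) + (fs K).card + T ≤ (J + 1) * A.card → e + T ≤ g →
    J * T * Fintype.card G + e * g < g * g → y - (i + 1) • a ∈ K → y ∉ pop A T i →
    ∃ H ≤ K, h ≤ (fs H).card ∧ y ∉ (i + 1) • rob A H g

def REP_st : Prop :=
  ∀ (G : Type) [AddCommGroup G] [Fintype G] [DecidableEq G] (A : Finset G) (T D j f : ℕ) (y : G),
    (∀ z : G, (univ.filter fun a : G => a + a = z).card ≤ D) → 2 * (f + j) + D < T →
    y ∈ pop A T (j + 1) → ∀ F : Finset G, F.card ≤ f →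
      ∃ U ⊆ A, Disjoint U F ∧ U.card = j + 2 ∧ ∑ x ∈ U, x = y

def DAV_st : Prop :=
  ∀ (G : Type) [AddCommGroup G] [Fintype G] [DecidableEq G] (K : AddSubgroup G) (E : Finset G)
    (a : G), ∃ F ⊆ E, F.card < K.index ∧ ∑ x ∈ E \ F, x - (E \ F).card • a ∈ K

def TOR_st : Prop :=
  ∀ (G : Type) [AddCommGroup G] [Fintype G] [DecidableEq G] (m : ℕ),
    Fintype.card G = m * AddMonoid.exponent G →
    ∀ z : G, (univ.filter fun a : G => a + a = z).card ≤ 2 * m

def ROB_st : Prop :=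
  ∀ (G : Type) [AddCommGroup G] [Fintype G] [DecidableEq G] (A : Finset G) (H : AddSubgroup G)
    (g : ℕ), H ≤ stab (rob A H g) ∧ (A \ rob A H g).card * (fs H).card ≤ g * Fintype.card G

def COV_st : Prop :=
  ∀ (G : Type) [AddCommGroup G] [Fintype G] [DecidableEq G] (B : Finset G) (m j : ℕ),
    Fintype.card G < m * B.card → AddSubgroup.closure ((B : Set G) - (B : Set G)) = ⊤ → 1 ≤ j →
    j • B ≠ univ → ∃ s : ℕ, 2 ≤ s ∧ j * (s - 1) + 2 ≤ (stab (j • B)).index ∧
      (stab (j • B)).index < m * s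

def BOR_st : Prop :=
  ∀ (G : Type) [AddCommGroup G] [Fintype G] [DecidableEq G] (A B : Finset G) (L : AddSubgroup G)
    (m n t l D : ℕ), Fintype.card G = m * n → m + 1 ≤ t → 2 ≤ t → 0 < n → L ≤ stab B →
    B.card = n → A.card = n + t → (A \ B).card ≤ l →
    (∀ z : G, (univ.filter fun a : G => a + a = z).card ≤ D) →
    2 * l + 4 * t + D < (fs L).card →
    (∃ U ⊆ A, U.card = t ∧ ∑ x ∈ U, x = ∑ x ∈ A, x) ∨
      ∃ B' : Finset G, B ⊆ B' ∧ L ≤ stab B' ∧ n < B'.card ∧ t • B' ≠ univ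

def LOW_st : Prop :=
  ∀ (G : Type) [AddCommGroup G] [Fintype G] [DecidableEq G] (B : Finset G) (H : AddSubgroup G)
    (m n t : ℕ), 2 ≤ m → Fintype.card G = m * n → 4 * m ^ 2 ≤ (fs H).card → H ≤ stab B →
    n < B.card → AddSubgroup.closure ((B : Set G) - (B : Set G)) = ⊤ → 1 ≤ t → t • B ≠ univ →
    ∃ A : Finset G, WeaklyZeroSumFree n A ∧ A.card = n + t

def CYC_st : Prop :=
  ∀ (G : Type) [AddCommGroup G] [Fintype G] [DecidableEq G] (m d : ℕ), 2 ≤ m →
    Fintype.card G = m * AddMonoid.exponent G → d ∣ AddMonoid.exponent G → m < d →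
    4 * m * d ≤ AddMonoid.exponent G →
    ∃ (H : AddSubgroup G) (B : Finset G), 4 * m ^ 2 ≤ (fs H).card ∧ H ≤ stab B ∧
      AddMonoid.exponent G < B.card ∧ AddSubgroup.closure ((B : Set G) - (B : Set G)) = ⊤ ∧
      ((d - 2) / (d / m)) • B ≠ univ

def PRED_st : Prop :=
  ∀ (G : Type) [AddCommGroup G] [Fintype G] [DecidableEq G] (m : ℕ), 2 ≤ m →
    Fintype.card G = m * AddMonoid.exponent G → 2 * m ^ 3 ≤ AddMonoid.exponent G →
    AddMonoid.exponent G + (m - 1) ≤ tauHat G (AddMonoid.exponent G)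

/-- The combinatorial core of the upper bound, with explicit scales. -/
def CORE_st : Prop :=
  ∀ (G : Type) [AddCommGroup G] [Fintype G] [DecidableEq G] (A : Finset G)
    (m n t T e g h l : ℕ), 2 ≤ m → Fintype.card G = m * n → (∀ x : G, n • x = 0) →
    (∀ z : G, (univ.filter fun a : G => a + a = z).card ≤ 2 * m) → m + 1 ≤ t → t ≤ 2 * m →
    A.card = n + t → Rem G T e → 6 * m < T → e + T ≤ g →
    m * T * Fintype.card G + e * g < g * g → g * Fintype.card G ≤ l * h →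
    m * (m + 1) * l + 2 * l + 10 * m + 4 * m ^ 2 < h →
    m * (h + 3 * e) + T + (m + 1) * (m + 1) * l < n →
    (∃ U ⊆ A, U.card = t ∧ ∑ x ∈ U, x = ∑ x ∈ A, x) ∨
      ∃ (H : AddSubgroup G) (B : Finset G), 4 * m ^ 2 ≤ (fs H).card ∧ H ≤ stab B ∧
        n < B.card ∧ AddSubgroup.closure ((B : Set G) - (B : Set G)) = ⊤ ∧ t • B ≠ univ

end Pool.Agent.MP_f9a021_co.BD
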