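import Pool.Agent.MP_f9a021_co.BD.St

/-! The structured branch of the robust Kneser step. -/

open Finset Pointwise

namespace Pool.Agent.MP_f9a021_co.BD

variable {G : Type} [AddCommGroup G] [Fintype G] [DecidableEq G]

omit [DecidableEq G] in
lemma cos_eq_Str {H : AddSubgroup G} {x y : G} (h : x - y ∈ H) : cos H x = cos H y := by
  ext z
  rw [mem_cos, mem_cos]
  constructor
  · intro hz
    have := H.add_mem hz h
    rwa [sub_add_sub_cancel] at this
  · intro hz
    have := H.sub_mem hz h
    rwa [sub_sub_sub_cancel_right] at this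

lemma rob_per_Str {A : Finset G} {H : AddSubgroup G} {g : ℕ} {x y : G} (hy : y ∈ rob A H g)
    (h : x - y ∈ H) : x ∈ rob A H g := by
  rw [mem_rob] at hy ⊢
  rwa [cos_eq_Str h]

lemma nsmul_per_Str {A : Finset G} {H : AddSubgroup G} {g k : ℕ} {x y : G}
    (hy : y ∈ (k + 1) • rob A H g) (h : x - y ∈ H) : x ∈ (k + 1) • rob A H g := by
  rw [succ_nsmul] at hy ⊢
  obtain ⟨z, hz, b, hb, rfl⟩ := Finset.mem_add.1 hy
  refine Finset.mem_add.2 ⟨z, hz, x - z, rob_per_Str hb ?_, by abel⟩
  rwa [sub_sub]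

lemma count_Str (A : Finset G) (H : AddSubgroup G) (T k : ℕ) (z b : G) :
    (pop A T k ∩ cos H z).card * (A ∩ cos H b).card ≤
      T * Fintype.card G + (pop A T (k + 1) ∩ cos H (z + b)).card * (A ∩ cos H b).card := by
  set P := pop A T k ∩ cos H z with hP
  set Q := A ∩ cos H b with hQ
  set W := pop A T (k + 1) ∩ cos H (z + b) with hW
  have h1 : (P ×ˢ Q).card =
      ∑ y : G, ((P ×ˢ Q).filter fun p : G × G => p.1 + p.2 = y).card :=
    Finset.card_eq_sum_card_fiberwise (f := fun p : G × G => p.1 + p.2)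
      (fun _ _ => Finset.mem_coe.2 (Finset.mem_univ _))
  have hinj : ∀ y : G, Set.InjOn (fun p : G × G => p.2)
      ↑((P ×ˢ Q).filter fun p : G × G => p.1 + p.2 = y) := by
    intro y p hp p' hp' hpp
    have e1 := (Finset.mem_filter.1 (Finset.mem_coe.1 hp)).2
    have e2 := (Finset.mem_filter.1 (Finset.mem_coe.1 hp')).2
    have e3 : p.2 = p'.2 := hpp
    refine Prod.ext ?_ e3
    rw [← e2, e3] at e1
    exact add_right_cancel e1
  have h2 : ∀ y : G, ((P ×ˢ Q).filter fun p : G × G => p.1 + p.2 = y).card ≤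
      T + if y ∈ W then Q.card else 0 := by
    intro y
    by_cases hy : y ∈ W
    · rw [if_pos hy]
      refine le_trans ?_ (Nat.le_add_left _ _)
      refine Finset.card_le_card_of_injOn (fun p : G × G => p.2) ?_ (hinj y)
      intro p hp
      exact Finset.mem_coe.2
        (Finset.mem_product.1 (Finset.mem_filter.1 (Finset.mem_coe.1 hp)).1).2
    · rw [if_neg hy, add_zero]
      rcases Finset.eq_empty_or_nonempty
        ((P ×ˢ Q).filter fun p : G × G => p.1 + p.2 = y) with he | ⟨p₀, hp₀⟩
      · rw [he]; simp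
      · obtain ⟨hp₁, hp₂⟩ := Finset.mem_filter.1 hp₀
        obtain ⟨hp₃, hp₄⟩ := Finset.mem_product.1 hp₁
        have hc : y ∈ cos H (z + b) := by
          rw [mem_cos, ← hp₂, add_sub_add_comm]
          exact H.add_mem (mem_cos.1 (Finset.mem_inter.1 hp₃).2)
            (mem_cos.1 (Finset.mem_inter.1 hp₄).2)
        have hn : y ∉ pop A T (k + 1) := fun h => hy (Finset.mem_inter.2 ⟨h, hc⟩)
        rw [mem_pop_succ, not_le] at hn
        refine le_trans ?_ hn.le
        refine Finset.card_le_card_of_injOn (fun p : G × G => p.2) ?_ (hinj y)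
        intro p hp
        obtain ⟨hq₁, hq₂⟩ := Finset.mem_filter.1 (Finset.mem_coe.1 hp)
        obtain ⟨hq₃, hq₄⟩ := Finset.mem_product.1 hq₁
        refine Finset.mem_coe.2 (Finset.mem_filter.2 ⟨(Finset.mem_inter.1 hq₄).1, ?_⟩)
        rw [← hq₂, add_sub_cancel_right]
        exact (Finset.mem_inter.1 hq₃).1
  rw [← Finset.card_product, h1]
  refine le_trans (Finset.sum_le_sum fun y _ => h2 y) (le_of_eq ?_)
  rw [Finset.sum_add_distrib, Finset.sum_const, Finset.card_univ, smul_eq_mul, mul_comm,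
    Finset.sum_ite_mem, Finset.univ_inter, Finset.sum_const, smul_eq_mul]

lemma dens_Str (A : Finset G) (H : AddSubgroup G) (T g : ℕ) : ∀ (k : ℕ) (z : G),
    z ∈ (k + 1) • rob A H g →
      g * g ≤ (pop A T k ∩ cos H z).card * g + k * T * Fintype.card G := by
  intro k
  induction k with
  | zero =>
    intro z hz
    rw [zero_add, one_nsmul, mem_rob] at hz
    rw [pop_zero]
    simpa using Nat.mul_le_mul_right g hz
  | succ k ih =>
    intro y hy
    rw [succ_nsmul] at hy
    obtain ⟨z, hz, b, hb, rfl⟩ := Finset.mem_add.1 hy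
    have h1 := ih z hz
    have h2 := count_Str A H T k z b
    rw [mem_rob] at hb
    generalize (pop A T k ∩ cos H z).card = u at h1 h2
    generalize (pop A T (k + 1) ∩ cos H (z + b)).card = w at h2 ⊢
    generalize (A ∩ cos H b).card = v at hb h2
    have e1 : (k + 1) * T * Fintype.card G = k * T * Fintype.card G + T * Fintype.card G := by
      ring
    rw [e1]
    rcases le_total u w with huw | huw
    · have := Nat.mul_le_mul_right g huw
      omega
    · obtain ⟨c, rfl⟩ := Nat.exists_eq_add_of_le huw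
      have h3 := Nat.mul_le_mul_left c hb
      rw [add_mul] at h1 h2
      omega

omit [AddCommGroup G] [Fintype G] in
lemma meet_Str {X X' C : Finset G} {e : ℕ} (h1 : (X \ X').card ≤ e) (h2 : e < (X ∩ C).card) :
    ∃ x ∈ X', x ∈ C := by
  by_contra hn
  have : X ∩ C ⊆ X \ X' := by
    intro x hx
    obtain ⟨hx1, hx2⟩ := Finset.mem_inter.1 hx
    exact Finset.mem_sdiff.2 ⟨hx1, fun h => hn ⟨x, h, hx2⟩⟩
  have := Finset.card_le_card this
  omega

lemma up_Str {A Z : Finset G} {H : AddSubgroup G} {T e g m : ℕ} (hZ : Z.card ≤ e)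
    (hg : e + T ≤ g) (h : (m + 1) • rob A H g ⊆ pop A T m ∪ Z) :
    (m + 1 + 1) • rob A H g ⊆ pop A T (m + 1) := by
  intro y hy
  rw [succ_nsmul] at hy
  obtain ⟨z, hz, b, hb, rfl⟩ := Finset.mem_add.1 hy
  rw [mem_rob] at hb
  rw [mem_pop_succ]
  have h1 : A ∩ cos H b ⊆ (A.filter fun a => z + b - a ∈ pop A T m) ∪
      Z.image fun x => z + b - x := by
    intro a ha
    obtain ⟨ha1, ha2⟩ := Finset.mem_inter.1 ha
    have h2 : z + b - a ∈ (m + 1) • rob A H g := by
      refine nsmul_per_Str hz ?_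
      have e1 : z + b - a - z = -(a - b) := by abel
      rw [e1]
      exact H.neg_mem (mem_cos.1 ha2)
    rcases Finset.mem_union.1 (h h2) with h3 | h3
    · exact Finset.mem_union_left _ (Finset.mem_filter.2 ⟨ha1, h3⟩)
    · exact Finset.mem_union_right _ (Finset.mem_image.2 ⟨_, h3, by abel⟩)
  have h2 := (Finset.card_le_card h1).trans (Finset.card_union_le _ _)
  have h3 : (Z.image fun x => z + b - x).card ≤ Z.card := Finset.card_image_le
  omega

theorem STR_pf : STR_st := by
  intro G _ _ _ A S' A' Z H T e g j i _ _ hS hA hZ hD hH hg hgg hi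
  have heg : e < g := by
    have : e * g < g * g := by omega
    exact Nat.lt_of_mul_lt_mul_right this
  have h0 : (j + 1 + 1) • rob A H g ⊆ pop A T (j + 1) ∪ Z := by
    intro y hy
    rw [succ_nsmul] at hy
    obtain ⟨z, hz, b, hb, rfl⟩ := Finset.mem_add.1 hy
    have h1 := dens_Str A H T g j z hz
    have e1 : (j + 1) * T * Fintype.card G = j * T * Fintype.card G + T * Fintype.card G := by
      ring
    have h2 : e * g < (pop A T j ∩ cos H z).card * g := by omega
    obtain ⟨s, hs, hs'⟩ := meet_Str hS (Nat.lt_of_mul_lt_mul_right h2)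
    obtain ⟨a, ha, ha'⟩ := meet_Str hA (lt_of_lt_of_le heg (mem_rob.1 hb))
    refine hD (mem_of_sub_mem hH (Finset.add_mem_add hs ha) ?_)
    have e2 : z + b - (s + a) = -(s - z) + -(a - b) := by abel
    rw [e2]
    exact H.add_mem (H.neg_mem (mem_cos.1 hs')) (H.neg_mem (mem_cos.1 ha'))
  induction i, hi using Nat.le_induction with
  | base => exact up_Str hZ hg h0
  | succ i _ ih => exact up_Str hZ hg (ih.trans Finset.subset_union_left)

end Pool.Agent.MP_f9a021_co.BD
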